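import Mathlib
import Pool.Agent.H75.Perc.Orbit

set_option autoImplicit false
open Finset

/-! # Cutting a permutation at a tile

`en p`, `ex p` : entering and leaving the tile at its side `p`; outside `range en` all the maps `f` agree
with `g`. The strand number `p` goes from `ex p` to `en (π p)` in `n p` steps. A map with
`f (en p) = ex (Y p)` has the cycles which follow the strands `p, Y (π p), …`. -/

namespace Pool.Agent.H84.W

open Pool.Agent.H75.Perc

variable {D P : Type*}

/-- the strands of `g` outside the tile -/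
structure Cut (g : D → D) (en ex : P → D) (π : P → P) (n : P → ℕ) : Prop where
  exi : Function.Injective ex
  run : ∀ p, g^[n p] (ex p) = en (π p)
  out : ∀ p, ∀ i < n p, ∀ q, g^[i] (ex p) ≠ en q

variable {g f : D → D} {en ex : P → D} {π Y : P → P} {n : P → ℕ}

/-- `f` is `g` outside the tile and `Y` at the tile -/
structure At (f g : D → D) (en ex : P → D) (Y : P → P) : Prop where
  inj : Function.Injective f
  off : ∀ x, (∀ q, x ≠ en q) → f x = g x
  on : ∀ q, f (en q) = ex (Y q)
  sur : Function.Surjective Y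

lemma Cut.iter (h : Cut g en ex π n) (hf : At f g en ex Y) (p : P) :
    ∀ i ≤ n p, f^[i] (ex p) = g^[i] (ex p) := by
  intro i
  induction i with
  | zero => intro _; rfl
  | succ i ih =>
    intro hi
    rw [Function.iterate_succ_apply', Function.iterate_succ_apply', ih (by omega)]
    exact hf.off _ (h.out p i (by omega))

/-- a directed corner belongs to one strand only -/
lemma Cut.uniq (h : Cut g en ex π n) (hf : At f g en ex Y) {p q : P} {i j : ℕ} (hi : i ≤ n p)
    (hj : j ≤ n q) (he : g^[i] (ex p) = g^[j] (ex q)) : p = q := by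
  have key : ∀ {p q : P} {i j : ℕ}, i ≤ n p → j ≤ n q → i ≤ j → f^[i] (ex p) = f^[j] (ex q) →
      p = q := by
    intro p q i j hi hj hij he
    have e1 : f^[i] (ex p) = f^[i] (f^[j - i] (ex q)) := by
      rw [he, ← Function.iterate_add_apply, Nat.add_sub_cancel' hij]
    have e2 := hf.inj.iterate i e1
    rcases Nat.eq_zero_or_pos (j - i) with h0 | h0
    · rw [h0] at e2; exact h.exi e2
    · exfalso
      obtain ⟨s, hs⟩ : ∃ s, j - i = s + 1 := ⟨j - i - 1, by omega⟩
      rw [hs, Function.iterate_succ_apply'] at e2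
      obtain ⟨q', hq'⟩ := hf.sur p
      rw [← hq', ← hf.on q'] at e2
      have e3 := hf.inj e2
      rw [h.iter hf q s (by omega)] at e3
      exact h.out q s (by omega) q' e3.symm
  rw [← h.iter hf p i hi, ← h.iter hf q j hj] at he
  rcases le_total i j with hij | hij
  · exact key hi hj hij he
  · exact (key hj hi hij he.symm).symm

/-- the next strand is reached -/
lemma Cut.next (h : Cut g en ex π n) (hf : At f g en ex Y) (p : P) {i : ℕ} (hi : i ≤ n p) :
    InOrb f (g^[i] (ex p)) (ex (Y (π p))) := by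
  refine ⟨n p - i + 1, ?_⟩
  rw [← h.iter hf p i hi, ← Function.iterate_add_apply, show n p - i + 1 + i = n p + 1 by omega,
    Function.iterate_succ_apply', h.iter hf p _ le_rfl, h.run, hf.on]

lemma Cut.pos (h : Cut g en ex π n) (hf : At f g en ex Y) (p : P) {i : ℕ} (hi : i ≤ n p) :
    InOrb f (ex p) (g^[i] (ex p)) := ⟨i, h.iter hf p i hi⟩

lemma Cut.reach (h : Cut g en ex π n) (hf : At f g en ex Y) (p : P) (k : ℕ) :
    InOrb f (ex p) (ex ((Y ∘ π)^[k] p)) := by
  induction k with
  | zero => exact ⟨0, rfl⟩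
  | succ k ih =>
    rw [Function.iterate_succ_apply']
    obtain ⟨a, ha⟩ := ih
    obtain ⟨b, hb⟩ := h.next hf ((Y ∘ π)^[k] p) (Nat.zero_le _)
    rw [Function.iterate_zero, id_eq] at hb
    exact ⟨b + a, by rw [Function.iterate_add_apply, ha]; exact hb⟩

/-- the union of the strands of a cycle is closed -/
lemma Cut.closed (h : Cut g en ex π n) (hf : At f g en ex Y) {p0 : P} {R y : D}
    (hR : ∃ k, ∃ i ≤ n ((Y ∘ π)^[k] p0), R = g^[i] (ex ((Y ∘ π)^[k] p0))) (hy : InOrb f R y) :
    ∃ k, ∃ i ≤ n ((Y ∘ π)^[k] p0), y = g^[i] (ex ((Y ∘ π)^[k] p0)) := by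
  obtain ⟨m, rfl⟩ := hy
  induction m with
  | zero => exact hR
  | succ m ih =>
    obtain ⟨k, i, hi, he⟩ := ih
    rw [Function.iterate_succ_apply', he]
    rcases Nat.lt_or_ge i (n ((Y ∘ π)^[k] p0)) with h1 | h1
    · refine ⟨k, i + 1, h1, ?_⟩
      rw [Function.iterate_succ_apply', ← hf.off _ (h.out _ i h1)]
    · have h2 : i = n ((Y ∘ π)^[k] p0) := le_antisymm hi h1
      refine ⟨k + 1, 0, Nat.zero_le _, ?_⟩
      rw [h2, h.run, hf.on, Function.iterate_zero, id_eq, Function.iterate_succ_apply']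
      rfl

/-- **Which strands are visited.** -/
theorem Cut.vis_iff (h : Cut g en ex π n) (hf : At f g en ex Y)
    (hsym : ∀ x y, InOrb f x y → InOrb f y x) {p0 p : P} {i j : ℕ} (hj : j ≤ n p0) (hi : i ≤ n p) :
    InOrb f (g^[j] (ex p0)) (g^[i] (ex p)) ↔ ∃ k, (Y ∘ π)^[k] p0 = p := by
  constructor
  · intro hv
    obtain ⟨k, i', hi', he⟩ := h.closed hf (p0 := p0) (R := g^[j] (ex p0)) ⟨0, j, hj, rfl⟩ hv
    exact ⟨k, (h.uniq hf hi hi' he).symm⟩
  · rintro ⟨k, rfl⟩
    obtain ⟨a, ha⟩ := hsym _ _ (h.pos hf p0 hj)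
    obtain ⟨b, hb⟩ := h.reach hf p0 k
    obtain ⟨c, hc⟩ := h.pos hf _ hi
    exact ⟨c + (b + a), by rw [Function.iterate_add_apply, Function.iterate_add_apply, ha, hb, hc]⟩

/-- a point on no strand is not visited -/
theorem Cut.not_vis (h : Cut g en ex π n) (hf : At f g en ex Y) {p0 : P} {j : ℕ} {y : D}
    (hj : j ≤ n p0) (hy : ∀ p, ∀ i ≤ n p, y ≠ g^[i] (ex p)) : ¬ InOrb f (g^[j] (ex p0)) y := by
  intro hv
  obtain ⟨k, i', hi', he⟩ := h.closed hf (p0 := p0) (R := g^[j] (ex p0)) ⟨0, j, hj, rfl⟩ hv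
  exact hy _ _ hi' he

/-- the strands exist -/
theorem exists_cut [Finite P] {G : P → P} (hg : At g g en ex G) (hex : Function.Injective ex)
    (hfin : ∀ x, ∃ m, Orb g x m) : ∃ π n, Cut g en ex π n := by
  classical
  have key : ∀ p, ∃ i, ∃ q, g^[i] (ex p) = en q := by
    intro p
    obtain ⟨q, hq⟩ := hg.sur p
    obtain ⟨m, hm⟩ := hfin (ex p)
    obtain ⟨s, hs⟩ : ∃ s, m = s + 1 := ⟨m - 1, by have := hm.pos; omega⟩
    have e := hm.per
    rw [hs, Function.iterate_succ_apply'] at e
    exact ⟨s, q, hg.inj (by rw [e, hg.on, hq])⟩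
  choose! π hπ using fun p => Nat.find_spec (key p)
  refine ⟨π, fun p => Nat.find (key p), hex, hπ, ?_⟩
  intro p i hi q he
  exact Nat.find_min (key p) hi ⟨q, he⟩

end Pool.Agent.H84.W
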