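import Mathlib
import Pool.Agent.H13.W.Graph
import Pool.Agent.Q1.Plane

set_option autoImplicit false
open Finset

/-! # The in-plane step

Directed corners `(c, b)`: `b = true` moves into the tile `lab c`, `b = false` into the tile `plab c`.
`ip F L`: at a tile of `F` go straight on, at any other tile follow the strand (open labels `L`).
`rv` reverses the direction. -/

namespace Pool.Agent.H84.W

open Pool.Agent.H75.Perc Pool.Agent.H75.TwoArm Pool.Agent.H75.Four Pool.Agent.H69.Q1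
open Pool.Agent.H13.W (eW eE eS eN lab_ne_plab nx_ne nx_inj)

/-- directed corners -/
abbrev DC : Type := (ℤ × ℤ) × Bool

/-- opposite side of the tile `e` -/
def op (e c : ℤ × ℤ) : ℤ × ℤ := (2 * e.1 + 1 - c.1, 2 * e.2 + 1 - c.2)

/-- reversal -/
def rv (x : DC) : DC := (x.1, !x.2)

/-- the tile entered -/
def tl (x : DC) : ℤ × ℤ := if x.2 then lab x.1 else plab x.1

/-- the in-plane step: crossing tiles `F`, open labels `L` -/
def ip (F L : Finset (ℤ × ℤ)) (x : DC) : DC :=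
  if x.2 then (if lab x.1 ∈ F then (op (lab x.1) x.1, false) else (nx L x.1, true))
  else (if plab x.1 ∈ F then (op (plab x.1) x.1, true) else (pv L x.1, false))

variable {F L : Finset (ℤ × ℤ)}

@[simp] lemma rv_rv (x : DC) : rv (rv x) = x := by
  obtain ⟨c, b⟩ := x; simp [rv]

@[simp] lemma rv_fst (x : DC) : (rv x).1 = x.1 := rfl

lemma rv_ne (x : DC) : rv x ≠ x := by
  obtain ⟨c, b⟩ := x; cases b <;> simp [rv]

lemma op_op (e c : ℤ × ℤ) : op e (op e c) = c := by
  unfold op; ext <;> simp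

lemma op_lab (c : ℤ × ℤ) : lab (op (lab c) c) = lab c ∧ op (lab c) c ≠ c := by
  obtain ⟨a, b⟩ := c
  rcases ty_cases (a, b) with ⟨-, h1, h2, h3, -, -⟩ | ⟨-, h1, h2, h3, -, -⟩ |
      ⟨-, h1, h2, h3, -, -⟩ | ⟨-, h1, h2, h3, -, -⟩ <;> rw [h3] <;> simp only at h1 h2 ⊢ <;>
    unfold op lab <;> simp only <;>
    refine ⟨?_, fun h => by simp only [Prod.mk.injEq] at h; omega⟩ <;> split_ifs <;>
    first
    | (exfalso; omega)
    | (refine Prod.ext ?_ ?_ <;> simp only <;> omega)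

lemma plab_cases (c : ℤ × ℤ) :
    (c.1 % 2 = 0 ∧ c.2 % 2 = 0 ∧ plab c = (c.1 - 1, c.2)) ∨
    (c.1 % 2 = 1 ∧ c.2 % 2 = 0 ∧ plab c = (c.1 - 1, c.2 - 1)) ∨
    (c.1 % 2 = 1 ∧ c.2 % 2 = 1 ∧ plab c = (c.1, c.2 - 1)) ∨
    (c.1 % 2 = 0 ∧ c.2 % 2 = 1 ∧ plab c = (c.1, c.2)) := by
  unfold plab
  rcases Int.emod_two_eq_zero_or_one c.1 with h1 | h1 <;>
    rcases Int.emod_two_eq_zero_or_one c.2 with h2 | h2 <;> simp [h1, h2]

lemma op_plab (c : ℤ × ℤ) : plab (op (plab c) c) = plab c ∧ op (plab c) c ≠ c := by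
  obtain ⟨a, b⟩ := c
  rcases plab_cases (a, b) with ⟨h1, h2, h3⟩ | ⟨h1, h2, h3⟩ | ⟨h1, h2, h3⟩ | ⟨h1, h2, h3⟩ <;>
    rw [h3] <;> simp only at h1 h2 ⊢ <;>
    unfold op plab <;> simp only <;>
    refine ⟨?_, fun h => by simp only [Prod.mk.injEq] at h; omega⟩ <;> split_ifs <;>
    first
    | (exfalso; omega)
    | (refine Prod.ext ?_ ?_ <;> simp only <;> omega)

lemma plab_nx' (w : Finset (ℤ × ℤ)) (c : ℤ × ℤ) : plab (nx w c) = lab c :=
  Pool.Agent.H75.TwoArm.SymmAux.plab_nx' w c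

lemma lab_pv' (w : Finset (ℤ × ℤ)) (c : ℤ × ℤ) : lab (pv w c) = plab c :=
  Pool.Agent.H75.TwoArm.lab_pv w c

lemma nx_pv' (w : Finset (ℤ × ℤ)) (c : ℤ × ℤ) : nx w (pv w c) = c :=
  Pool.Agent.H75.TwoArm.nx_pv w c

/-- **Reversal**: the step from the reverse of `ip x` leads to the reverse of `x`. -/
lemma ip_rv (F L : Finset (ℤ × ℤ)) (x : DC) : ip F L (rv (ip F L x)) = rv x := by
  obtain ⟨c, b⟩ := x
  cases b
  · by_cases h : plab c ∈ F
    · have e1 : ip F L (c, false) = (op (plab c) c, true) := by simp [ip, h]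
      rw [e1]
      show ip F L (op (plab c) c, false) = (c, true)
      have h2 := (op_plab c).1
      simp [ip, h2, h, op_op]
    · have e1 : ip F L (c, false) = (pv L c, false) := by simp [ip, h]
      rw [e1]
      show ip F L (pv L c, true) = (c, true)
      simp [ip, lab_pv', h, nx_pv']
  · by_cases h : lab c ∈ F
    · have e1 : ip F L (c, true) = (op (lab c) c, false) := by simp [ip, h]
      rw [e1]
      show ip F L (op (lab c) c, true) = (c, false)
      have h2 := (op_lab c).1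
      simp [ip, h2, h, op_op]
    · have e1 : ip F L (c, true) = (nx L c, true) := by simp [ip, h]
      rw [e1]
      show ip F L (nx L c, false) = (c, false)
      simp [ip, plab_nx', h, pv_nx]

lemma ip_inj (F L : Finset (ℤ × ℤ)) : Function.Injective (ip F L) := by
  intro x y h
  have h1 := ip_rv F L x
  rw [h, ip_rv F L y] at h1
  rw [← rv_rv x, ← h1, rv_rv]

lemma ip_fst_ne (x : DC) : (ip F L x).1 ≠ x.1 := by
  obtain ⟨c, b⟩ := x
  cases b
  · by_cases h : plab c ∈ F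
    · simp only [ip, h, if_true, Bool.false_eq_true, if_false]; exact (op_plab c).2
    · simp only [ip, h, if_false, Bool.false_eq_true]
      intro h1
      have h2 := lab_pv' L c
      rw [h1] at h2
      exact lab_ne_plab c h2
  · by_cases h : lab c ∈ F
    · simp only [ip, h, if_true]; exact (op_lab c).2
    · simp only [ip, h, if_false, if_true]; exact nx_ne L c

/-- no orbit contains a directed corner and its reverse -/
lemma ip_iter_ne_rv (n : ℕ) : ∀ x : DC, (ip F L)^[n] x ≠ rv x := by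
  induction n using Nat.strong_induction_on with
  | _ n ih =>
    intro x h
    match n, h with
    | 0, h => exact rv_ne x h.symm
    | 1, h => exact ip_fst_ne (F := F) (L := L) x (by
        have := congrArg Prod.fst h
        simpa using this)
    | k + 2, h =>
      have h1 : ip F L ((ip F L)^[k] (ip F L x)) = ip F L (rv (ip F L x)) := by
        rw [ip_rv, ← h, ← Function.iterate_succ_apply' (ip F L), ← Function.iterate_succ_apply (ip F L)]
      exact ih k (by omega) _ (ip_inj F L h1)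

/-- the step from a directed corner leads out of the tile entered -/
lemma tl_rv_ip (x : DC) : tl (rv (ip F L x)) = tl x := by
  obtain ⟨c, b⟩ := x
  cases b
  · by_cases h : plab c ∈ F
    · simp [ip, h, tl, rv, (op_plab c).1]
    · simp [ip, h, tl, rv, lab_pv']
  · by_cases h : lab c ∈ F
    · simp [ip, h, tl, rv, (op_lab c).1]
    · simp [ip, h, tl, rv, plab_nx']

lemma odd_plab (z : ℤ × ℤ) : ((plab z).1 + (plab z).2) % 2 = 1 := by
  rcases plab_cases z with ⟨h1, h2, h3⟩ | ⟨h1, h2, h3⟩ | ⟨h1, h2, h3⟩ | ⟨h1, h2, h3⟩ <;>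
    rw [h3] <;> simp only <;> omega

lemma odd_tl (x : DC) : ((tl x).1 + (tl x).2) % 2 = 1 := by
  unfold tl; split_ifs
  · exact odd_lab _
  · exact odd_plab _

/-! ### Finite orbits -/

open Pool.Agent.Q1 (PS mem_PS PS_of_lab PS_nx)

lemma vx_nxC' (c : ℤ × ℤ) : vx (nxC c) = vx c := (nxC_opc c).1

lemma op_lab_eq (c : ℤ × ℤ) : op (lab c) c = opc c := by
  rcases lab_eq_iff.1 (op_lab c).1 with h | h
  · exact absurd h (op_lab c).2
  · exact h

/-- the corner before an outgoing corner, at a closed tile -/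
lemma nxC_pv (c : ℤ × ℤ) : nxC (pv ∅ c) = c := by
  have := nx_pv' ∅ c
  unfold nx at this
  rwa [if_neg (notMem_empty _)] at this

lemma op_nxC (p : ℤ × ℤ) : op (lab p) (nxC p) = nxO p := by
  obtain ⟨a, b⟩ := p
  rcases ty_cases (a, b) with ⟨-, h1, h2, h3, h4, h5⟩ | ⟨-, h1, h2, h3, h4, h5⟩ |
      ⟨-, h1, h2, h3, h4, h5⟩ | ⟨-, h1, h2, h3, h4, h5⟩ <;>
    rw [h3, h4, h5] <;> unfold op <;> simp only <;> refine Prod.ext ?_ ?_ <;> simp only <;> ring

/-- opposite side of an outgoing corner -/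
lemma op_plab_eq (c : ℤ × ℤ) : op (plab c) c = nxO (pv ∅ c) := by
  have h := op_nxC (pv ∅ c)
  rwa [nxC_pv, lab_pv'] at h

lemma PS_opc {G : Finset (ℤ × ℤ)} {v z : ℤ × ℤ} (h : lab z ∈ G) : opc z ∈ PS G v :=
  PS_of_lab (by rw [lab_opc]; exact h)

lemma PS_nxO {G : Finset (ℤ × ℤ)} {v z : ℤ × ℤ} (h : lab z ∈ G) : nxO z ∈ PS G v := by
  rw [mem_PS, (nxO_opc z).1]
  exact mem_PS.1 (PS_opc h)

lemma PS_pv {G w : Finset (ℤ × ℤ)} (hw : w ⊆ G) {v z : ℤ × ℤ} (h : z ∈ PS G v) :
    pv w z ∈ PS G v := by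
  by_cases hl : plab z ∈ w
  · apply PS_of_lab; rw [lab_pv']; exact hw hl
  · have h1 := nx_pv' w z
    unfold nx at h1
    rw [lab_pv', if_neg hl] at h1
    rw [mem_PS, ← vx_nxC', h1]
    exact mem_PS.1 h

lemma PS_ip {G : Finset (ℤ × ℤ)} (hF : F ⊆ G) (hL : L ⊆ G) {v : ℤ × ℤ} {x : DC}
    (h : x.1 ∈ PS G v) : (ip F L x).1 ∈ PS G v := by
  obtain ⟨c, b⟩ := x
  cases b
  · by_cases h1 : plab c ∈ F
    · simp only [ip, h1, if_true, Bool.false_eq_true, if_false]
      rw [op_plab_eq]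
      exact PS_nxO (by rw [lab_pv']; exact hF h1)
    · simp only [ip, h1, if_false, Bool.false_eq_true]
      exact PS_pv hL h
  · by_cases h1 : lab c ∈ F
    · simp only [ip, h1, if_true]
      rw [op_lab_eq]
      exact PS_opc (hF h1)
    · simp only [ip, h1, if_false, if_true]
      exact PS_nx hL h

/-- orbits are finite -/
lemma exists_orb_ip (F L : Finset (ℤ × ℤ)) (x : DC) : ∃ n, Orb (ip F L) x n := by
  classical
  refine exists_orb (ip F L) (ip_inj F L) (PS (F ∪ L) (vx x.1) ×ˢ (univ : Finset Bool)) ?_ x ?_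
  · intro y hy
    rw [mem_product] at hy ⊢
    exact ⟨PS_ip subset_union_left subset_union_right hy.1, mem_univ _⟩
  · rw [mem_product]
    refine ⟨?_, mem_univ _⟩
    rw [mem_PS]; exact mem_insert_self _ _

lemma orb_finite (F L : Finset (ℤ × ℤ)) (x : DC) : {y | InOrb (ip F L) x y}.Finite := by
  obtain ⟨n, hn⟩ := exists_orb_ip F L x
  refine ((Set.finite_Iio n).image (fun i => (ip F L)^[i] x)).subset ?_
  rintro y hy
  obtain ⟨i, hi, h⟩ := (hn.inOrb_iff y).1 hy
  exact ⟨i, hi, h⟩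

section orbits

variable {α : Type*} {f : α → α}

lemma inOrb_symm' {x y : α} {n : ℕ} (hn : Orb f x n) (h : InOrb f x y) : InOrb f y x := by
  obtain ⟨i, hi, rfl⟩ := (hn.inOrb_iff y).1 h
  exact ⟨n - i, by rw [← Function.iterate_add_apply, Nat.sub_add_cancel hi.le, hn.per]⟩

lemma InOrb.trans' {x y z : α} (h : InOrb f x y) (h' : InOrb f y z) : InOrb f x z := by
  obtain ⟨i, rfl⟩ := h
  obtain ⟨j, rfl⟩ := h'
  exact ⟨j + i, by rw [Function.iterate_add_apply]⟩

lemma InOrb.refl' (x : α) : InOrb f x x := ⟨0, rfl⟩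

lemma InOrb.step' (x : α) : InOrb f x (f x) := ⟨1, rfl⟩

end orbits

lemma ip_symm {x y : DC} (h : InOrb (ip F L) x y) : InOrb (ip F L) y x := by
  obtain ⟨n, hn⟩ := exists_orb_ip F L x
  exact inOrb_symm' hn h

/-- the reverse orbit -/
lemma ip_rev {x y : DC} (h : InOrb (ip F L) x y) : InOrb (ip F L) (rv y) (rv x) := by
  obtain ⟨i, rfl⟩ := h
  induction i with
  | zero => exact InOrb.refl' _
  | succ i ih =>
    refine InOrb.trans' ⟨1, ?_⟩ ih
    rw [Function.iterate_one, Function.iterate_succ_apply', ip_rv]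

lemma ip_not_both {x y : DC} (h : InOrb (ip F L) x y) : ¬ InOrb (ip F L) x (rv y) := by
  intro h'
  obtain ⟨n, hn⟩ := InOrb.trans' (ip_symm h) h'
  exact ip_iter_ne_rv n y hn

end Pool.Agent.H84.W
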