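import Mathlib
import Pool.Agent.H84.W.Ip
import Pool.Agent.H75.TwoArm.Color

set_option autoImplicit false
open Finset

/-! # The colouring of a closed in-plane strand

`Zs F L x0` : the corners of the orbit of `x0`. There is a colouring `S` of vertices and faces which
changes exactly across these corners; it is constant on each side of a strand which crosses no tile whose
other two sides belong to `Zs`. -/

namespace Pool.Agent.H84.W

open Pool.Agent.H75.Perc Pool.Agent.H75.TwoArm Pool.Agent.H75.Four Pool.Agent.H69.Q1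
open Pool.Agent.H13.W (eW eE eS eN of_side side_cases)
open Pool.Agent.Q1 (DCo)

variable {F L : Finset (ℤ × ℤ)} {x0 : DC} {S : ℤ × ℤ → Bool}

/-- corners of the orbit of `x0` -/
def Zs (F L : Finset (ℤ × ℤ)) (x0 : DC) (y : ℤ × ℤ) : Prop := ∃ b, InOrb (ip F L) x0 (y, b)

lemma Zs_of {x : DC} (h : InOrb (ip F L) x0 x) : Zs F L x0 x.1 := ⟨x.2, h⟩

lemma Zs_self : Zs F L x0 x0.1 := Zs_of (InOrb.refl' _)

lemma orb_back {x : DC} (h : InOrb (ip F L) x0 (ip F L x)) : InOrb (ip F L) x0 x :=
  InOrb.trans' h (ip_symm (InOrb.step' x))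

lemma orb_fwd {x : DC} (h : InOrb (ip F L) x0 x) : InOrb (ip F L) x0 (ip F L x) :=
  InOrb.trans' h (InOrb.step' x)

lemma or_rv (x : DC) {y : DC} (h : y.1 = x.1) : y = x ∨ y = rv x := by
  obtain ⟨a, b⟩ := x
  obtain ⟨c, d⟩ := y
  simp only at h
  subst h
  cases b <;> cases d <;> simp [rv]

lemma Zs_step (x : DC) : Zs F L x0 x.1 ↔ Zs F L x0 (ip F L x).1 := by
  constructor
  · rintro ⟨b, h⟩
    rcases or_rv x (y := (x.1, b)) rfl with e | e
    · rw [e] at h; exact Zs_of (orb_fwd h)
    · rw [e] at h
      rw [← ip_rv] at h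
      have := Zs_of (orb_back h)
      simpa using this
  · rintro ⟨b, h⟩
    rcases or_rv (ip F L x) (y := ((ip F L x).1, b)) rfl with e | e
    · rw [e] at h; exact Zs_of (orb_back h)
    · rw [e] at h
      have := Zs_of (orb_fwd h)
      rw [ip_rv] at this
      simpa using this

lemma Zs_crossL {c : ℤ × ℤ} (h : lab c ∈ F) : Zs F L x0 c ↔ Zs F L x0 (op (lab c) c) := by
  have := Zs_step (F := F) (L := L) (x0 := x0) (c, true)
  simpa [ip, h] using this

lemma Zs_crossP {c : ℤ × ℤ} (h : plab c ∈ F) : Zs F L x0 c ↔ Zs F L x0 (op (plab c) c) := by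
  have := Zs_step (F := F) (L := L) (x0 := x0) (c, false)
  simpa [ip, h] using this

lemma Zs_nat {c : ℤ × ℤ} (h : lab c ∉ F) : Zs F L x0 c ↔ Zs F L x0 (nx L c) := by
  have := Zs_step (F := F) (L := L) (x0 := x0) (c, true)
  simpa [ip, h] using this

lemma Zs_side {e c : ℤ × ℤ} (he : e ∈ F) (hc : e = lab c ∨ e = plab c) :
    Zs F L x0 c ↔ Zs F L x0 (op e c) := by
  rcases hc with h | h
  · subst h; exact Zs_crossL he
  · subst h; exact Zs_crossP he

lemma heven (e : ℤ × ℤ) (he : (e.1 + e.2) % 2 = 1) :
    ((Zs F L x0 e ↔ Zs F L x0 (e.1 + 1, e.2 + 1)) ↔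
      (Zs F L x0 (e.1 + 1, e.2) ↔ Zs F L x0 (e.1, e.2 + 1))) := by
  by_cases hF : e ∈ F
  · have h1 := Zs_side (L := L) (x0 := x0) hF (of_side he (eW e) (Or.inl rfl))
    have h2 := Zs_side (L := L) (x0 := x0) hF (of_side he (eS e) (Or.inr (Or.inr (Or.inl rfl))))
    have e1 : op e (eW e) = (e.1 + 1, e.2 + 1) := by
      unfold op eW; refine Prod.ext ?_ ?_ <;> simp only <;> ring
    have e2 : op e (eS e) = (e.1, e.2 + 1) := by
      unfold op eS; refine Prod.ext ?_ ?_ <;> simp only <;> ring
    rw [e1] at h1
    rw [e2] at h2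
    have h1' : Zs F L x0 e ↔ Zs F L x0 (e.1 + 1, e.2 + 1) := h1
    have h2' : Zs F L x0 (e.1 + 1, e.2) ↔ Zs F L x0 (e.1, e.2 + 1) := h2
    exact iff_of_true h1' h2'
  · obtain ⟨a, b⟩ := e
    simp only at he ⊢
    rcases Int.emod_two_eq_zero_or_one a with ha | ha
    · -- incoming `N` and `S`
      have hb : b % 2 = 1 := by omega
      have l1 : lab (a, b + 1) = (a, b) := by
        unfold lab; simp only; rw [if_pos (by omega), if_pos (by omega)]; simp
      have l2 : lab (a + 1, b) = (a, b) := by
        unfold lab; simp only; rw [if_neg (by omega), if_neg (by omega)]; simp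
      have n1 := Zs_nat (L := L) (x0 := x0) (c := (a, b + 1)) (by rw [l1]; exact hF)
      have n2 := Zs_nat (L := L) (x0 := x0) (c := (a + 1, b)) (by rw [l2]; exact hF)
      unfold nx at n1 n2
      rw [l1] at n1
      rw [l2] at n2
      by_cases h : ((a, b) : ℤ × ℤ) ∈ L
      · rw [if_pos h] at n1 n2
        have e1 : nxO (a, b + 1) = (a, b) := by
          unfold nxO; simp only; rw [if_pos (by omega), if_pos (by omega)]; simp
        have e2 : nxO (a + 1, b) = (a + 1, b + 1) := by
          unfold nxO; simp only; rw [if_neg (by omega), if_neg (by omega)]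
        rw [e1] at n1; rw [e2] at n2
        tauto
      · rw [if_neg h] at n1 n2
        have e1 : nxC (a, b + 1) = (a + 1, b + 1) := by
          unfold nxC; simp only; rw [if_pos (by omega), if_pos (by omega)]
        have e2 : nxC (a + 1, b) = (a, b) := by
          unfold nxC; simp only; rw [if_neg (by omega), if_neg (by omega)]; simp
        rw [e1] at n1; rw [e2] at n2
        tauto
    · have hb : b % 2 = 0 := by omega
      have l1 : lab (a, b) = (a, b) := by
        unfold lab; simp only; rw [if_pos (by omega), if_neg (by omega)]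
      have l2 : lab (a + 1, b + 1) = (a, b) := by
        unfold lab; simp only; rw [if_neg (by omega), if_pos (by omega)]; simp
      have n1 := Zs_nat (L := L) (x0 := x0) (c := (a, b)) (by rw [l1]; exact hF)
      have n2 := Zs_nat (L := L) (x0 := x0) (c := (a + 1, b + 1)) (by rw [l2]; exact hF)
      unfold nx at n1 n2
      rw [l1] at n1
      rw [l2] at n2
      by_cases h : ((a, b) : ℤ × ℤ) ∈ L
      · rw [if_pos h] at n1 n2
        have e1 : nxO (a, b) = (a + 1, b) := by
          unfold nxO; simp only; rw [if_pos (by omega), if_neg (by omega)]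
        have e2 : nxO (a + 1, b + 1) = (a, b + 1) := by
          unfold nxO; simp only; rw [if_neg (by omega), if_pos (by omega)]; simp
        rw [e1] at n1; rw [e2] at n2
        tauto
      · rw [if_neg h] at n1 n2
        have e1 : nxC (a, b) = (a, b + 1) := by
          unfold nxC; simp only; rw [if_pos (by omega), if_neg (by omega)]
        have e2 : nxC (a + 1, b + 1) = (a + 1, b) := by
          unfold nxC; simp only; rw [if_neg (by omega), if_pos (by omega)]; simp
        rw [e1] at n1; rw [e2] at n2
        tauto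

/-- the colouring exists -/
theorem exists_col (F L : Finset (ℤ × ℤ)) (x0 : DC) : ∃ S : ℤ × ℤ → Bool, Col (Zs F L x0) S := by
  apply exists_Col
  · intro p
    have hf := (orb_finite F L x0).image Prod.fst
    refine (hf.preimage (f := fun k : ℕ => (p.1 + (k : ℤ), p.2 + (k : ℤ))) ?_).subset ?_
    · intro a _ b _ h
      simp only [Prod.mk.injEq] at h
      omega
    · rintro k ⟨b, hb⟩
      exact ⟨_, hb, rfl⟩
  · exact heven

/-- left side -/
def lf (x : DC) : ℤ × ℤ := if x.2 then dbl (vx x.1) else fce x.1

/-- right side -/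
def rt (x : DC) : ℤ × ℤ := if x.2 then fce x.1 else dbl (vx x.1)

lemma lf_rv (x : DC) : lf (rv x) = rt x := by
  obtain ⟨c, b⟩ := x; cases b <;> simp [lf, rt, rv]

lemma col_iff (hS : Col (Zs F L x0) S) (x : DC) : Zs F L x0 x.1 ↔ S (lf x) ≠ S (rt x) := by
  have := hS x.1
  obtain ⟨c, b⟩ := x
  cases b
  · simp only [lf, rt, Bool.false_eq_true, if_false]
    rw [this]; exact ne_comm
  · simp only [lf, rt, if_true]
    exact this

/-- a side of the tile which is not on the straight line through `x` -/
def pp (x : DC) : ℤ × ℤ := if x.2 then nxC x.1 else opc (pv ∅ x.1)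

lemma fce_of_fi {a b : ℤ × ℤ} (h : fi a = fi b) : fce a = fce b := by
  unfold fi at h
  unfold fce
  simp only [Prod.mk.injEq] at h ⊢
  omega

/-- natural tile, forward -/
lemma side_fwd (hS : Col (Zs F L x0) S) {c : ℤ × ℤ} (h : lab c ∉ F) :
    S (lf (nx L c, true)) = S (lf (c, true)) ∧ S (rt (nx L c, true)) = S (rt (c, true)) := by
  have h1 := col_iff hS (c, true)
  have h2 := col_iff hS (nx L c, true)
  have h3 := Zs_nat (L := L) (x0 := x0) h
  simp only at h1 h2
  by_cases hl : lab c ∈ L
  · have e : nx L c = nxO c := by unfold nx; rw [if_pos hl]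
    have e2 : rt (nx L c, true) = rt (c, true) := by
      simp only [rt, if_true]
      rw [e]; exact fce_of_fi (nxO_opc c).2
    rw [e2] at h2 ⊢
    refine ⟨?_, rfl⟩
    rw [h1, h2] at h3
    revert h3
    generalize S (lf (c, true)) = p
    generalize S (rt (c, true)) = q
    generalize S (lf (nx L c, true)) = r
    revert p q r; decide
  · have e : nx L c = nxC c := by unfold nx; rw [if_neg hl]
    have e2 : lf (nx L c, true) = lf (c, true) := by
      simp only [lf, if_true]
      rw [e, (nxC_opc c).1]
    rw [e2] at h2 ⊢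
    refine ⟨rfl, ?_⟩
    rw [h1, h2] at h3
    revert h3
    generalize S (lf (c, true)) = p
    generalize S (rt (c, true)) = q
    generalize S (rt (nx L c, true)) = r
    revert p q r; decide

/-- **One step along a strand keeps the colours of its sides.** -/
theorem side_step (hS : Col (Zs F L x0) S) (x : DC) (hx : tl x ∈ F → ¬ Zs F L x0 (pp x)) :
    S (lf (ip F L x)) = S (lf x) := by
  obtain ⟨c, b⟩ := x
  have key : ∀ {p q : DC}, (Zs F L x0 p.1 ↔ Zs F L x0 q.1) → S (rt p) = S (rt q) →
      S (lf p) = S (lf q) := by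
    intro p q h h'
    rw [col_iff hS p, col_iff hS q, h'] at h
    revert h
    generalize S (lf p) = a
    generalize S (lf q) = b
    generalize S (rt q) = r
    revert a b r; decide
  cases b
  · by_cases h : plab c ∈ F
    · have hx' : ¬ Zs F L x0 (opc (pv ∅ c)) := hx h
      have e1 : ip F L (c, false) = (op (plab c) c, true) := by simp [ip, h]
      rw [e1, op_plab_eq]
      simp only [lf, if_true, Bool.false_eq_true, if_false]
      have h3 := hS (opc (pv ∅ c))
      have h4 : S (dbl (vx (opc (pv ∅ c)))) = S (fce (opc (pv ∅ c))) := by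
        by_contra hn; exact hx' (h3.2 hn)
      rw [(nxO_opc (pv ∅ c)).1, h4]
      congr 1
      apply fce_of_fi
      have := (nxC_opc (pv ∅ c)).2
      rw [nxC_pv] at this
      exact this.symm
    · have e1 : ip F L (c, false) = (pv L c, false) := by simp [ip, h]
      rw [e1]
      have h5 := side_fwd hS (c := pv L c) (by rw [lab_pv']; exact h)
      rw [nx_pv'] at h5
      have h6 := h5.2
      have e2 : ∀ d : ℤ × ℤ, rt (d, true) = lf (d, false) := fun d => by simp [rt, lf]
      rw [e2, e2] at h6
      exact h6.symm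
  · by_cases h : lab c ∈ F
    · have hx' : ¬ Zs F L x0 (nxC c) := hx h
      have e1 : ip F L (c, true) = (op (lab c) c, false) := by simp [ip, h]
      rw [e1, op_lab_eq]
      simp only [lf, if_true, Bool.false_eq_true, if_false]
      have h3 := hS (nxC c)
      have h4 : S (dbl (vx (nxC c))) = S (fce (nxC c)) := by
        by_contra hn; exact hx' (h3.2 hn)
      rw [(nxC_opc c).1] at h4
      rw [h4]
      congr 1
      exact fce_of_fi (nxC_opc c).2.symm
    · have e1 : ip F L (c, true) = (nx L c, true) := by simp [ip, h]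
      rw [e1]
      exact (side_fwd hS h).1

/-- along a path -/
theorem side_path (hS : Col (Zs F L x0) S) (x : DC) (n : ℕ)
    (hx : ∀ i < n, tl ((ip F L)^[i] x) ∈ F → ¬ Zs F L x0 (pp ((ip F L)^[i] x))) :
    S (lf ((ip F L)^[n] x)) = S (lf x) := by
  induction n with
  | zero => rfl
  | succ n ih =>
    rw [Function.iterate_succ_apply', side_step hS _ (hx n (by omega))]
    exact ih fun i hi => hx i (by omega)

end Pool.Agent.H84.W
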