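import Mathlib
import Pool.Agent.H84.W.Colr
import Pool.Agent.H81.G1.Net

set_option autoImplicit false
open Finset

/-! # The sides of a tile, and the direction lemma -/

namespace Pool.Agent.H84.W

open Pool.Agent.H75.Perc Pool.Agent.H75.TwoArm Pool.Agent.H75.Four Pool.Agent.H69.Q1
open Pool.Agent.H13.W (eW eE eS eN of_side side_cases lab_ne_plab)
open Pool.Agent.Q1 (DCo)
open Pool.Agent.H81.G1 (Dir)

variable {F L : Finset (ℤ × ℤ)} {x0 : DC} {S : ℤ × ℤ → Bool} {t : ℤ × ℤ}

/-- side of a tile -/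
def sd (t : ℤ × ℤ) : Dir → ℤ × ℤ
  | .W => eW t
  | .E => eE t
  | .S => eS t
  | .N => eN t

/-- entering the tile `t` at the side `p` -/
def ent (t : ℤ × ℤ) (p : Dir) : DC := (sd t p, decide (lab (sd t p) = t))

/-- leaving the tile `t` at the side `p` -/
def exi (t : ℤ × ℤ) (p : Dir) : DC := rv (ent t p)

lemma sd_inj : Function.Injective (sd t) := by
  intro p q h
  cases p <;> cases q <;> first | rfl | (simp [sd, eW, eE, eS, eN, Prod.ext_iff] at h)

lemma ent_inj : Function.Injective (ent t) := fun p q h => sd_inj (congrArg Prod.fst h)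

lemma exi_inj : Function.Injective (exi t) := by
  intro p q h
  apply ent_inj (t := t)
  rw [← rv_rv (ent t p), ← rv_rv (ent t q)]
  exact congrArg rv h

lemma sd_label (ht : (t.1 + t.2) % 2 = 1) (p : Dir) : t = lab (sd t p) ∨ t = plab (sd t p) := by
  apply of_side ht
  cases p
  · exact Or.inl rfl
  · exact Or.inr (Or.inr (Or.inr rfl))
  · exact Or.inr (Or.inl rfl)
  · exact Or.inr (Or.inr (Or.inl rfl))

lemma tl_ent (ht : (t.1 + t.2) % 2 = 1) (p : Dir) : tl (ent t p) = t := by
  unfold tl ent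
  rcases sd_label ht p with h | h
  · simp [← h]
  · have h2 : lab (sd t p) ≠ t := fun h1 => lab_ne_plab (sd t p) (h1.trans h)
    simp [h2, ← h]

lemma eq_ent {x : DC} (hx : tl x = t) : ∃ p, x = ent t p := by
  obtain ⟨c, b⟩ := x
  have h1 : t = lab c ∨ t = plab c := by
    unfold tl at hx
    cases b
    · right; simpa using hx.symm
    · left; simpa using hx.symm
  have h2 : ∃ p, c = sd t p := by
    rcases side_cases c h1 with h | h | h | h
    · exact ⟨.W, h⟩
    · exact ⟨.E, h⟩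
    · exact ⟨.S, h⟩
    · exact ⟨.N, h⟩
  obtain ⟨p, rfl⟩ := h2
  refine ⟨p, ?_⟩
  unfold ent
  congr 1
  cases b
  · have h3 : plab (sd t p) = t := by simpa [tl] using hx
    have h4 : lab (sd t p) ≠ t := fun h => lab_ne_plab (sd t p) (h.trans h3.symm)
    simp [h4]
  · have h3 : lab (sd t p) = t := by simpa [tl] using hx
    simp [h3]

/-- straight on -/
def Xm : Dir → Dir
  | .W => .E
  | .E => .W
  | .S => .N
  | .N => .S

/-- the state `W–N, S–E` -/
def Am : Dir → Dir
  | .W => .N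
  | .N => .W
  | .S => .E
  | .E => .S

/-- the state `W–S, N–E` -/
def Bm : Dir → Dir
  | .W => .S
  | .S => .W
  | .N => .E
  | .E => .N

lemma ent_of_lab {p : Dir} (h : lab (sd t p) = t) : ent t p = (sd t p, true) := by
  unfold ent; simp [h]

lemma ent_of_plab {p : Dir} (h : plab (sd t p) = t) : ent t p = (sd t p, false) := by
  have h4 : lab (sd t p) ≠ t := fun h' => lab_ne_plab (sd t p) (h'.trans h.symm)
  unfold ent; simp [h4]

lemma exi_of_lab {p : Dir} (h : lab (sd t p) = t) : exi t p = (sd t p, false) := by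
  unfold exi; rw [ent_of_lab h]; rfl

lemma exi_of_plab {p : Dir} (h : plab (sd t p) = t) : exi t p = (sd t p, true) := by
  unfold exi; rw [ent_of_plab h]; rfl

/-- the labels of the sides, `t.1` odd -/
lemma sides_odd (ht : (t.1 + t.2) % 2 = 1) (h1 : t.1 % 2 = 1) :
    lab (sd t .W) = t ∧ lab (sd t .E) = t ∧ plab (sd t .S) = t ∧ plab (sd t .N) = t := by
  obtain ⟨x, y⟩ := t
  simp only at ht h1
  refine ⟨?_, ?_, ?_, ?_⟩ <;> simp only [sd, eW, eE, eS, eN] <;>
    (first | unfold lab | unfold plab) <;> simp only <;> split_ifs <;>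
    first | rfl | (exfalso; omega) | (refine Prod.ext ?_ ?_ <;> simp only <;> omega)

/-- the labels of the sides, `t.1` even -/
lemma sides_even (ht : (t.1 + t.2) % 2 = 1) (h1 : t.1 % 2 = 0) :
    plab (sd t .W) = t ∧ plab (sd t .E) = t ∧ lab (sd t .S) = t ∧ lab (sd t .N) = t := by
  obtain ⟨x, y⟩ := t
  simp only at ht h1
  refine ⟨?_, ?_, ?_, ?_⟩ <;> simp only [sd, eW, eE, eS, eN] <;>
    (first | unfold plab | unfold lab) <;> simp only <;> split_ifs <;>
    first | rfl | (exfalso; omega) | (refine Prod.ext ?_ ?_ <;> simp only <;> omega)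

lemma op_sd (p : Dir) : op t (sd t p) = sd t (Xm p) := by
  cases p <;> simp only [Xm, sd, op, eW, eE, eS, eN] <;> refine Prod.ext ?_ ?_ <;> simp only <;> ring

/-- crossing tile -/
lemma ip_cross (ht : (t.1 + t.2) % 2 = 1) (hF : t ∈ F) (p : Dir) :
    ip F L (ent t p) = exi t (Xm p) := by
  rcases Int.emod_two_eq_zero_or_one t.1 with h1 | h1
  · obtain ⟨a1, a2, a3, a4⟩ := sides_even ht h1
    cases p
    · rw [ent_of_plab a1]; show _ = exi t .E
      rw [exi_of_plab a2]; simp [ip, a1, hF, op_sd, Xm]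
    · rw [ent_of_lab a4]; show _ = exi t .S
      rw [exi_of_lab a3]; simp [ip, a4, hF, op_sd, Xm]
    · rw [ent_of_plab a2]; show _ = exi t .W
      rw [exi_of_plab a1]; simp [ip, a2, hF, op_sd, Xm]
    · rw [ent_of_lab a3]; show _ = exi t .N
      rw [exi_of_lab a4]; simp [ip, a3, hF, op_sd, Xm]
  · obtain ⟨a1, a2, a3, a4⟩ := sides_odd ht h1
    cases p
    · rw [ent_of_lab a1]; show _ = exi t .E
      rw [exi_of_lab a2]; simp [ip, a1, hF, op_sd, Xm]
    · rw [ent_of_plab a4]; show _ = exi t .S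
      rw [exi_of_plab a3]; simp [ip, a4, hF, op_sd, Xm]
    · rw [ent_of_lab a2]; show _ = exi t .W
      rw [exi_of_lab a1]; simp [ip, a2, hF, op_sd, Xm]
    · rw [ent_of_plab a3]; show _ = exi t .N
      rw [exi_of_plab a4]; simp [ip, a3, hF, op_sd, Xm]

lemma nx_sides_odd (ht : (t.1 + t.2) % 2 = 1) (h1 : t.1 % 2 = 1) :
    nxC (sd t .W) = sd t .N ∧ nxC (sd t .E) = sd t .S ∧ nxO (sd t .W) = sd t .S ∧
      nxO (sd t .E) = sd t .N := by
  obtain ⟨x, y⟩ := t
  simp only at ht h1
  refine ⟨?_, ?_, ?_, ?_⟩ <;> simp only [sd, eW, eE, eS, eN] <;>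
    (first | unfold nxC | unfold nxO) <;> simp only <;> split_ifs <;>
    first | rfl | (exfalso; omega) | (refine Prod.ext ?_ ?_ <;> simp only <;> omega)

lemma nx_sides_even (ht : (t.1 + t.2) % 2 = 1) (h1 : t.1 % 2 = 0) :
    nxC (sd t .S) = sd t .W ∧ nxC (sd t .N) = sd t .E ∧ nxO (sd t .S) = sd t .E ∧
      nxO (sd t .N) = sd t .W := by
  obtain ⟨x, y⟩ := t
  simp only at ht h1
  refine ⟨?_, ?_, ?_, ?_⟩ <;> simp only [sd, eW, eE, eS, eN] <;>
    (first | unfold nxC | unfold nxO) <;> simp only <;> split_ifs <;>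
    first | rfl | (exfalso; omega) | (refine Prod.ext ?_ ?_ <;> simp only <;> omega)

/-- the state of a natural tile -/
noncomputable def Nm (L : Finset (ℤ × ℤ)) (t : ℤ × ℤ) : Dir → Dir :=
  if (t.1 % 2 = 1 ↔ t ∈ L) then Bm else Am

/-- the step backwards, from the step forwards -/
lemma ip_of_rev {x y : DC} (h : ip F L (rv y) = rv x) : ip F L x = y := by
  have := ip_rv F L (rv y)
  rw [h, rv_rv, rv_rv] at this
  exact this

/-- natural tile -/
lemma ip_nat (ht : (t.1 + t.2) % 2 = 1) (hF : t ∉ F) (p : Dir) :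
    ip F L (ent t p) = exi t (Nm L t p) := by
  have fwd : ∀ {p q : Dir}, lab (sd t p) = t → plab (sd t q) = t → nx L (sd t p) = sd t q →
      ip F L (ent t p) = exi t q ∧ ip F L (ent t q) = exi t p := by
    intro p q h1 h2 h3
    have e1 : ip F L (ent t p) = exi t q := by
      rw [ent_of_lab h1, exi_of_plab h2]
      simp [ip, h1, hF, h3]
    refine ⟨e1, ip_of_rev ?_⟩
    have e2 : rv (exi t p) = ent t p := by unfold exi; rw [rv_rv]
    rw [e2, e1]; rfl
  unfold Nm
  rcases Int.emod_two_eq_zero_or_one t.1 with h1 | h1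
  · obtain ⟨a1, a2, a3, a4⟩ := sides_even ht h1
    obtain ⟨c1, c2, o1, o2⟩ := nx_sides_even ht h1
    by_cases hL : t ∈ L
    · rw [if_neg (by simp [h1, hL])]
      have n1 : nx L (sd t .S) = sd t .E := by unfold nx; rw [a3, if_pos hL, o1]
      have n2 : nx L (sd t .N) = sd t .W := by unfold nx; rw [a4, if_pos hL, o2]
      obtain ⟨g1, g2⟩ := fwd a3 a2 n1
      obtain ⟨g3, g4⟩ := fwd a4 a1 n2
      cases p <;> assumption
    · rw [if_pos (by simp [h1, hL])]
      have n1 : nx L (sd t .S) = sd t .W := by unfold nx; rw [a3, if_neg hL, c1]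
      have n2 : nx L (sd t .N) = sd t .E := by unfold nx; rw [a4, if_neg hL, c2]
      obtain ⟨g1, g2⟩ := fwd a3 a1 n1
      obtain ⟨g3, g4⟩ := fwd a4 a2 n2
      cases p <;> assumption
  · obtain ⟨a1, a2, a3, a4⟩ := sides_odd ht h1
    obtain ⟨c1, c2, o1, o2⟩ := nx_sides_odd ht h1
    by_cases hL : t ∈ L
    · rw [if_pos (by simp [h1, hL])]
      have n1 : nx L (sd t .W) = sd t .S := by unfold nx; rw [a1, if_pos hL, o1]
      have n2 : nx L (sd t .E) = sd t .N := by unfold nx; rw [a2, if_pos hL, o2]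
      obtain ⟨g1, g2⟩ := fwd a1 a3 n1
      obtain ⟨g3, g4⟩ := fwd a2 a4 n2
      cases p <;> assumption
    · rw [if_neg (by simp [h1, hL])]
      have n1 : nx L (sd t .W) = sd t .N := by unfold nx; rw [a1, if_neg hL, c1]
      have n2 : nx L (sd t .E) = sd t .S := by unfold nx; rw [a2, if_neg hL, c2]
      obtain ⟨g1, g2⟩ := fwd a1 a4 n1
      obtain ⟨g3, g4⟩ := fwd a2 a3 n2
      cases p <;> assumption

/-! ### The four points of a tile -/

/-- the point to the left when the tile is left at the side `p` -/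
def pt (t : ℤ × ℤ) : Dir → ℤ × ℤ
  | .W => (t.1, t.2 - 1)
  | .N => (t.1 - 1, t.2)
  | .E => (t.1, t.2 + 1)
  | .S => (t.1 + 1, t.2)

/-- clockwise -/
def cw : Dir → Dir
  | .W => .N
  | .N => .E
  | .E => .S
  | .S => .W

lemma lf_exi (ht : (t.1 + t.2) % 2 = 1) (p : Dir) :
    lf (exi t p) = pt t p ∧ rt (exi t p) = pt t (cw p) := by
  rcases Int.emod_two_eq_zero_or_one t.1 with h1 | h1
  · obtain ⟨a1, a2, a3, a4⟩ := sides_even ht h1
    cases p
    · rw [exi_of_plab a1]
      simp only [lf, rt, if_true, sd, eW, dbl, vx, fce, pt, cw, Prod.mk.injEq]; omega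
    · rw [exi_of_lab a4]
      simp only [lf, rt, Bool.false_eq_true, if_false, sd, eN, dbl, vx, fce, pt, cw, Prod.mk.injEq]
      omega
    · rw [exi_of_plab a2]
      simp only [lf, rt, if_true, sd, eE, dbl, vx, fce, pt, cw, Prod.mk.injEq]; omega
    · rw [exi_of_lab a3]
      simp only [lf, rt, Bool.false_eq_true, if_false, sd, eS, dbl, vx, fce, pt, cw, Prod.mk.injEq]
      omega
  · obtain ⟨a1, a2, a3, a4⟩ := sides_odd ht h1
    cases p
    · rw [exi_of_lab a1]
      simp only [lf, rt, Bool.false_eq_true, if_false, sd, eW, dbl, vx, fce, pt, cw, Prod.mk.injEq]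
      omega
    · rw [exi_of_plab a4]
      simp only [lf, rt, if_true, sd, eN, dbl, vx, fce, pt, cw, Prod.mk.injEq]; omega
    · rw [exi_of_lab a2]
      simp only [lf, rt, Bool.false_eq_true, if_false, sd, eE, dbl, vx, fce, pt, cw, Prod.mk.injEq]
      omega
    · rw [exi_of_plab a3]
      simp only [lf, rt, if_true, sd, eS, dbl, vx, fce, pt, cw, Prod.mk.injEq]; omega

/-- the side `pp` of a tile entered vertically is a horizontal one -/
lemma pp_ent (ht : (t.1 + t.2) % 2 = 1) {p : Dir} (hp : p = .S ∨ p = .N) :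
    pp (ent t p) = sd t .W ∨ pp (ent t p) = sd t .E := by
  rcases Int.emod_two_eq_zero_or_one t.1 with h1 | h1
  · obtain ⟨a1, a2, a3, a4⟩ := sides_even ht h1
    obtain ⟨c1, c2, o1, o2⟩ := nx_sides_even ht h1
    rcases hp with rfl | rfl
    · rw [ent_of_lab a3]; left; simp only [pp, if_true]; exact c1
    · rw [ent_of_lab a4]; right; simp only [pp, if_true]; exact c2
  · obtain ⟨a1, a2, a3, a4⟩ := sides_odd ht h1
    obtain ⟨c1, c2, o1, o2⟩ := nx_sides_odd ht h1
    have pW : opc (sd t .W) = sd t .E := by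
      rw [← op_lab_eq, a1, op_sd]; rfl
    have pE : opc (sd t .E) = sd t .W := by
      rw [← op_lab_eq, a2, op_sd]; rfl
    have q1 : pv ∅ (sd t .N) = sd t .W := by
      rw [← c1]
      have := pv_nx ∅ (sd t .W)
      unfold nx at this
      rwa [if_neg (notMem_empty _)] at this
    have q2 : pv ∅ (sd t .S) = sd t .E := by
      rw [← c2]
      have := pv_nx ∅ (sd t .E)
      unfold nx at this
      rwa [if_neg (notMem_empty _)] at this
    rcases hp with rfl | rfl
    · rw [ent_of_plab a3]; left; simp only [pp, Bool.false_eq_true, if_false]; rw [q2, pE]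
    · rw [ent_of_plab a4]; right; simp only [pp, Bool.false_eq_true, if_false]; rw [q1, pW]

end Pool.Agent.H84.W
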