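import Mathlib
import Pool.Agent.H84.W.Tile

set_option autoImplicit false
open Finset

/-! # The direction lemma

A closed in-plane strand (the orbit of `x0`) which misses the orbit of `w` through the root `R`: its
direction at the outer corner `x0.1` is determined by the side on which it leaves `w`. -/

namespace Pool.Agent.H84.W

open Pool.Agent.H75.Perc Pool.Agent.H75.TwoArm Pool.Agent.H75.Four Pool.Agent.H69.Q1
open Pool.Agent.H13.W (eW eE eS eN of_side side_cases lab_ne_plab)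
open Pool.Agent.Q1 (DCo)
open Pool.Agent.H81.G1 (Dir)

variable {F L : Finset (ℤ × ℤ)} {x0 : DC} {S : ℤ × ℤ → Bool} {t : ℤ × ℤ}

/-- the two faces next to a closed natural tile have the same colour -/
lemma face_step (hS : Col (Zs F L x0) S) {e : ℤ × ℤ} (he : (e.1 + e.2) % 2 = 1) (hF : e ∉ F)
    (hL : e ∉ L) : S (fce (zu e)) = S (fce (zv e)) := by
  obtain ⟨ho, -, hu, -, -, -⟩ := opc_zu he
  have hF' : lab (zu e) ∉ F := by rw [hu]; exact hF
  have h1 := side_fwd hS hF'
  have e1 : nx L (zu e) = nxC (zu e) := by unfold nx; rw [hu, if_neg hL]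
  have h2 := h1.2
  rw [e1] at h2
  simp only [rt, if_true] at h2
  rw [← h2, ← ho]
  congr 1
  exact fce_of_fi (nxC_opc (zu e)).2

/-- label point of a face index -/
def fq (f : ℤ × ℤ) : ℤ × ℤ := (2 * f.1 - 1, 2 * f.2 - 1)

lemma fce_fq (c : ℤ × ℤ) : fce c = fq (fi c) := rfl

lemma face_adj (hS : Col (Zs F L x0) S) {f g : ℤ × ℤ} (h : IsUnit4 (g - f))
    (he : f + g - (1, 1) ∉ F ∪ L) : S (fq f) = S (fq g) := by
  rw [mem_union, not_or] at he
  have ho : ((f + g - (1, 1) : ℤ × ℤ).1 + (f + g - (1, 1) : ℤ × ℤ).2) % 2 = 1 := by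
    have := unit_cases h
    simp only [Prod.fst_sub, Prod.snd_sub, Prod.fst_add, Prod.snd_add]
    omega
  have key := face_step hS ho he.1 he.2
  have hcase : (fi (zu (f + g - (1, 1))) = f ∧ fi (zv (f + g - (1, 1))) = g) ∨
      (fi (zu (f + g - (1, 1))) = g ∧ fi (zv (f + g - (1, 1))) = f) := by
    have := unit_cases h
    obtain ⟨a, b⟩ := f
    obtain ⟨c, d⟩ := g
    simp only [Prod.mk_add_mk, Prod.mk_sub_mk] at this ⊢
    unfold zu zv fi
    simp only
    by_cases h0 : (a + c - 1) % 2 = 0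
    · rw [if_pos h0, if_pos h0]
      simp only [Prod.mk.injEq]
      omega
    · rw [if_neg h0, if_neg h0]
      simp only [Prod.mk.injEq]
      omega
  rcases hcase with ⟨h1, h2⟩ | ⟨h1, h2⟩
  · rw [fce_fq, fce_fq, h1, h2] at key; exact key
  · rw [fce_fq, fce_fq, h1, h2] at key; exact key.symm

/-- the colour is constant along a closed dual path -/
lemma face_path (hS : Col (Zs F L x0) S) {f g : ℤ × ℤ} (h : DCo (F ∪ L) f g) :
    S (fq f) = S (fq g) := by
  obtain ⟨B, hB⟩ := h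
  induction hB with
  | refl => rfl
  | @tail a b _ hab ih =>
    rw [ih]
    refine face_adj hS hab.1 ?_
    have h2 := hab.2
    unfold du at h2
    rw [mem_map] at h2
    obtain ⟨e, he, hee⟩ := h2
    rw [mem_sdiff] at he
    have h3 : a + b - (1, 1) = e := by
      rw [← hee]
      show ((e.1 + 1, e.2 + 1) : ℤ × ℤ) - (1, 1) = e
      refine Prod.ext ?_ ?_ <;> simp
    rw [h3]; exact he.2

/-- **Direction lemma.** `w` starts the cycle of the root `R`, `u` lies on the orbit of `x0`. -/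
theorem direction {R w u : DC} {j N : ℕ} (hw : (ip F L)^[j] w = R)
    (h1 : ∀ e ∈ F, ∀ p, p = Dir.W ∨ p = Dir.E → ∃ i ≤ N, ((ip F L)^[i] w).1 = sd e p)
    (h2 : ∀ i < j, ∀ e ∈ F, tl ((ip F L)^[i] w) = e →
      ∀ p, p = Dir.W ∨ p = Dir.E → ((ip F L)^[i] w).1 ≠ sd e p)
    (h3 : ∀ b, ¬ InOrb (ip F L) w (x0.1, b))
    (h4 : DCo (F ∪ L) (fi x0.1) (fi R.1)) (h5 : InOrb (ip F L) x0 u) :
    ∃ S : ℤ × ℤ → Bool, Col (Zs F L x0) S ∧ (∀ i, ¬ Zs F L x0 ((ip F L)^[i] w).1) ∧
      S (lf w) = S (rt w) ∧ (S (lf u) = S (lf w) ↔ x0.2 = false) := by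
  obtain ⟨S, hS⟩ := exists_col F L x0
  -- the cycle of the root misses `Zs`
  have hmiss : ∀ i, ¬ Zs F L x0 ((ip F L)^[i] w).1 := by
    rintro i ⟨b, hb⟩
    have hi : InOrb (ip F L) w ((ip F L)^[i] w) := ⟨i, rfl⟩
    rcases or_rv ((ip F L)^[i] w) (y := (((ip F L)^[i] w).1, b)) rfl with e | e
    · rw [e] at hb
      have := InOrb.trans' hi (ip_symm hb)
      exact h3 x0.2 this
    · rw [e] at hb
      have h6 := ip_rev hb
      rw [rv_rv] at h6
      exact h3 (!x0.2) (InOrb.trans' hi h6)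
  have hRz : ¬ Zs F L x0 R.1 := by rw [← hw]; exact hmiss j
  have hsd : ∀ e ∈ F, ∀ p, p = Dir.W ∨ p = Dir.E → ¬ Zs F L x0 (sd e p) := by
    intro e he p hp
    obtain ⟨i, -, hi⟩ := h1 e he p hp
    rw [← hi]; exact hmiss i
  have hpp : ∀ y : DC, tl y ∈ F → (∀ p, p = Dir.W ∨ p = Dir.E → y.1 ≠ sd (tl y) p) →
      ¬ Zs F L x0 (pp y) := by
    intro y hy hne
    obtain ⟨p, hp⟩ := eq_ent (t := tl y) (x := y) rfl
    have ho := odd_tl y
    have hp' : p = .S ∨ p = .N := by
      have e1 : y.1 = sd (tl y) p := by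
        conv_lhs => rw [hp]
        rfl
      cases p
      · exact absurd e1 (hne _ (Or.inl rfl))
      · exact Or.inr rfl
      · exact absurd e1 (hne _ (Or.inr rfl))
      · exact Or.inl rfl
    rcases pp_ent ho hp' with h6 | h6
    · rw [← hp] at h6; rw [h6]; exact hsd _ hy _ (Or.inl rfl)
    · rw [← hp] at h6; rw [h6]; exact hsd _ hy _ (Or.inr rfl)
  -- along the root
  have hside : S (lf R) = S (lf w) := by
    rw [← hw]
    refine side_path hS w j fun i hi hF => hpp _ hF ?_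
    exact h2 i hi _ hF rfl
  -- along the orbit of `x0`
  have hside2 : S (lf u) = S (lf x0) := by
    obtain ⟨n, hn⟩ := h5
    rw [← hn]
    refine side_path hS x0 n fun i _ hF => hpp _ hF ?_
    intro p hp h6
    exact hsd _ hF p hp (by rw [← h6]; exact Zs_of ⟨i, rfl⟩)
  have hww : S (lf w) = S (rt w) := by
    by_contra hn
    exact hmiss 0 ((col_iff hS w).2 hn)
  have hRR : S (lf R) = S (rt R) := by
    by_contra hn
    exact hRz ((col_iff hS R).2 hn)
  have hRf : S (lf R) = S (fce R.1) := by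
    obtain ⟨c, b⟩ := R
    cases b
    · simp [lf]
    · rw [hRR]; simp [rt]
  have hxf : S (fce x0.1) = S (fce R.1) := by
    rw [fce_fq, fce_fq]; exact face_path hS h4
  refine ⟨S, hS, hmiss, hww, ?_⟩
  rw [hside2, ← hside, hRf, ← hxf]
  have hx := hS x0.1
  have hx' : S (dbl (vx x0.1)) ≠ S (fce x0.1) := hx.1 Zs_self
  obtain ⟨c, b⟩ := x0
  cases b
  · simp [lf]
  · simp only [lf, if_true]
    simp only at hx'
    constructor
    · intro h; exact absurd h hx'
    · intro h; exact absurd h (by decide)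

end Pool.Agent.H84.W
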