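import Mathlib
import Pool.Agent.H84.W.Dirn
import Pool.Agent.H84.W.Cut

set_option autoImplicit false
open Finset

/-! # The skein relation at the first string tile -/

namespace Pool.Agent.H84.W

open Pool.Agent.H75.Perc Pool.Agent.H75.TwoArm Pool.Agent.H75.Four Pool.Agent.H69.Q1
open Pool.Agent.H13.W (eW eE eS eN of_side side_cases lab_ne_plab)
open Pool.Agent.Q1 (DCo)
open Pool.Agent.H81.G1 (Dir)

variable {F F' L L' : Finset (ℤ × ℤ)} {t : ℤ × ℤ}

lemma pv_congr' {w w' : Finset (ℤ × ℤ)} {z : ℤ × ℤ} (h : plab z ∈ w' ↔ plab z ∈ w) :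
    pv w' z = pv w z := Pool.Agent.H75.TwoArm.StrandAux.pv_congr h

lemma ip_congr {x : DC} (hF : tl x ∈ F ↔ tl x ∈ F') (hL : tl x ∈ L ↔ tl x ∈ L') :
    ip F L x = ip F' L' x := by
  obtain ⟨c, b⟩ := x
  cases b
  · have hF1 : plab c ∈ F ↔ plab c ∈ F' := hF
    have hL1 : plab c ∈ L ↔ plab c ∈ L' := hL
    unfold ip
    simp only [Bool.false_eq_true, if_false]
    rw [pv_congr' hL1]
    by_cases h : plab c ∈ F
    · rw [if_pos h, if_pos (hF1.1 h)]
    · rw [if_neg h, if_neg (fun h' => h (hF1.2 h'))]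
  · have hF1 : lab c ∈ F ↔ lab c ∈ F' := hF
    have hL1 : lab c ∈ L ↔ lab c ∈ L' := hL
    unfold ip
    simp only [if_true]
    have e : nx L c = nx L' c := by
      unfold nx
      by_cases h : lab c ∈ L
      · rw [if_pos h, if_pos (hL1.1 h)]
      · rw [if_neg h, if_neg (fun h' => h (hL1.2 h'))]
    rw [e]
    by_cases h : lab c ∈ F
    · rw [if_pos h, if_pos (hF1.1 h)]
    · rw [if_neg h, if_neg (fun h' => h (hF1.2 h'))]

lemma tl_ne {x : DC} (h : ∀ q, x ≠ ent t q) : tl x ≠ t := fun h1 => by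
  obtain ⟨p, hp⟩ := eq_ent h1
  exact h p hp

lemma Xm_sur : Function.Surjective Xm := fun p => ⟨Xm p, by cases p <;> rfl⟩
lemma Am_sur : Function.Surjective Am := fun p => ⟨Am p, by cases p <;> rfl⟩
lemma Bm_sur : Function.Surjective Bm := fun p => ⟨Bm p, by cases p <;> rfl⟩

lemma Nm_sur : Function.Surjective (Nm L t) := by
  unfold Nm; split_ifs
  · exact Bm_sur
  · exact Am_sur

lemma at_cross (ht : (t.1 + t.2) % 2 = 1) :
    At (ip (insert t F) L) (ip F L) (ent t) (exi t) Xm :=
  ⟨ip_inj _ _, fun x hx => ip_congr (by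
      rw [mem_insert]; exact ⟨fun h => h.resolve_left (tl_ne hx), Or.inr⟩) Iff.rfl,
    ip_cross ht (mem_insert_self _ _), Xm_sur⟩

lemma at_nat (ht : (t.1 + t.2) % 2 = 1) (hF : t ∉ F) (hL : L' = L ∨ L' = insert t L) :
    At (ip F L') (ip F L) (ent t) (exi t) (Nm L' t) :=
  ⟨ip_inj _ _, fun x hx => ip_congr Iff.rfl (by
      rcases hL with rfl | rfl
      · rfl
      · rw [mem_insert]; exact ⟨fun h => h.resolve_left (tl_ne hx), Or.inr⟩),
    ip_nat ht hF, Nm_sur⟩

section pairing

variable {π : Dir → Dir} {n : Dir → ℕ}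

/-- reversed strand -/
lemma cut_rev (h : Cut (ip F L) (ent t) (exi t) π n) (p : Dir) :
    ∀ i ≤ n p, (ip F L)^[i] (exi t (π p)) = rv ((ip F L)^[n p - i] (exi t p)) := by
  intro i
  induction i with
  | zero =>
    intro _
    rw [Nat.sub_zero, h.run]
    rfl
  | succ i ih =>
    intro hi
    rw [Function.iterate_succ_apply', ih (by omega)]
    have e : n p - i = (n p - (i + 1)) + 1 := by omega
    rw [e, Function.iterate_succ_apply', ip_rv]

lemma cut_pi (ht : (t.1 + t.2) % 2 = 1) (hF : t ∉ F)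
    (h : Cut (ip F L) (ent t) (exi t) π n) (p : Dir) :
    π (π p) = p ∧ n (π p) = n p ∧ π p ≠ p := by
  have hg := at_nat (L := L) ht hF (Or.inl rfl)
  have h1 : (ip F L)^[n p] (exi t (π p)) = ent t p := by
    rw [cut_rev h p _ le_rfl, Nat.sub_self]
    show rv (exi t p) = _
    unfold exi; rw [rv_rv]
  have h2 : ∀ i < n p, ∀ q, (ip F L)^[i] (exi t (π p)) ≠ ent t q := by
    intro i hi q hq
    rw [cut_rev h p i hi.le] at hq
    have e1 : (ip F L)^[n p - i] (exi t p) = exi t q := by
      rw [← rv_rv ((ip F L)^[n p - i] (exi t p)), hq]; rfl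
    have e2 : n p - i = (n p - i - 1) + 1 := by omega
    obtain ⟨q', hq'⟩ := hg.sur q
    rw [e2, Function.iterate_succ_apply', ← hq', ← hg.on q'] at e1
    exact h.out p _ (by omega) q' (ip_inj F L e1)
  have h3 : n (π p) = n p := by
    rcases lt_trichotomy (n (π p)) (n p) with h4 | h4 | h4
    · exact absurd (h.run (π p)) (h2 _ h4 _)
    · exact h4
    · exact absurd h1 (h.out (π p) _ h4 p)
  refine ⟨?_, h3, ?_⟩
  · apply ent_inj (t := t)
    rw [← h.run (π p), h3, h1]
  · intro h4
    have h5 := h.run p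
    rw [h4] at h5
    apply ip_iter_ne_rv (F := F) (L := L) (n p) (exi t p)
    rw [h5]
    unfold exi; rw [rv_rv]

lemma pi_cases (h : ∀ p, π (π p) = p) (h' : ∀ p, π p ≠ p) : π = Xm ∨ π = Am ∨ π = Bm := by
  have key : ∀ q, π .E = q → π q = .E := fun q hq => by rw [← hq]; exact h _
  have other : ∀ {x y : Dir}, (∀ q, q = x ∨ q = y ∨ q = .E ∨ q = π .E) → x ≠ .E → y ≠ .E →
      x ≠ π .E → y ≠ π .E → π x = y := by
    intro x y hall hx hy hx' hy'
    rcases hall (π x) with h1 | h1 | h1 | h1
    · exact absurd h1 (h' x)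
    · exact h1
    · exfalso; apply hx'; rw [← h1, h]
    · exfalso
      have := congrArg π h1
      rw [h, h] at this
      exact hx this
  rcases hE : π .E with _ | _ | _ | _
  · -- `W`
    left
    have k := key _ hE
    rw [hE] at other
    have o1 : π .N = .S := other (by intro q; cases q <;> simp) (by decide) (by decide)
      (by decide) (by decide)
    have o2 : π .S = .N := by rw [← o1, h]
    funext p; cases p <;> simp only [Xm, k, hE, o1, o2]
  · -- `N`
    right; right
    have k := key _ hE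
    rw [hE] at other
    have o1 : π .W = .S := other (by intro q; cases q <;> simp) (by decide) (by decide)
      (by decide) (by decide)
    have o2 : π .S = .W := by rw [← o1, h]
    funext p; cases p <;> simp only [Bm, k, hE, o1, o2]
  · exact absurd hE (h' _)
  · right; left
    have k := key _ hE
    rw [hE] at other
    have o1 : π .W = .N := other (by intro q; cases q <;> simp) (by decide) (by decide)
      (by decide) (by decide)
    have o2 : π .N = .W := by rw [← o1, h]
    funext p; cases p <;> simp only [Am, k, hE, o1, o2]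

/-- one of the three states -/
def Three (Y : Dir → Dir) : Prop := Y = Xm ∨ Y = Am ∨ Y = Bm

lemma two_iter {Y : Dir → Dir} (hY : Three Y) (hπ : Three π) (p q : Dir) :
    (∃ k, (Y ∘ π)^[k] p = q) ↔ q = p ∨ q = Y (π p) := by
  have h2 : ∀ x, Y (π (Y (π x))) = x := by
    rcases hY with rfl | rfl | rfl <;> rcases hπ with rfl | rfl | rfl <;> intro x <;> cases x <;> rfl
  have hk : ∀ k, (Y ∘ π)^[k] p = p ∨ (Y ∘ π)^[k] p = Y (π p) := by
    intro k
    induction k with
    | zero => left; rfl
    | succ k ih =>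
      rw [Function.iterate_succ_apply']
      rcases ih with h | h
      · right; rw [h]; rfl
      · left; rw [h]; exact h2 p
  constructor
  · rintro ⟨k, rfl⟩; exact hk k
  · rintro (rfl | rfl)
    · exact ⟨0, rfl⟩
    · exact ⟨1, rfl⟩

end pairing

/-- the side of the strand which leads forward to the target -/
def cF : Dir → Dir
  | .W => .S
  | .N => .W
  | .S => .N
  | .E => .E

/-- the finite part of the direction lemma -/
lemma fin_dir {π : Dir → Dir} (hπ : Three π) {p : Dir} (s : Dir → Bool) (hpE : p ≠ .E)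
    (hp : p ≠ π .E) (h1 : s (π .E) = s (cw (π .E))) (h2 : s .E = s .S) (h3 : s p ≠ s (cw p))
    (h4 : s (π p) ≠ s (cw (π p))) (h5 : s p ≠ s (π .E)) : p = cF (π .E) := by
  revert h1 h2 h3 h4 h5 hp hpE
  rcases hπ with rfl | rfl | rfl <;> cases p <;> simp only [Xm, Am, Bm, cw, cF] <;>
    generalize s .W = a <;> generalize s .N = b <;> generalize s .E = c <;>
    generalize s .S = d <;> revert a b c d <;> decide

open Classical in
/-- value of the visit: `T`, `Fa` = the target corner is passed forwards, backwards -/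
noncomputable def vv (b0 : Bool) (a b : ℂ) (T Fa : Prop) : ℂ :=
  if b0 then (if T then 1 else if Fa then b else 0) else (if Fa then 1 else if T then a else 0)

/-- the finite part of the skein relation -/
lemma fin_skein {π : Dir → Dir} (hπ : Three π) {a b : ℂ} (h1 : a + b = 1) (h2 : a * b = 1)
    {p : Dir} (hp : p = .E ∨ p = π .E ∨ p = cF (π .E)) (b0 : Bool) :
    vv b0 a b (p = π .E ∨ p = Xm .E) (π p = π .E ∨ π p = Xm .E) =
      a * vv b0 a b (p = π .E ∨ p = Am .E) (π p = π .E ∨ π p = Am .E) +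
      b * vv b0 a b (p = π .E ∨ p = Bm .E) (π p = π .E ∨ π p = Bm .E) := by
  have hb : b = 1 - a := by linear_combination h1
  subst hb
  have h3 : a * a = a - 1 := by linear_combination -h2
  rcases hπ with rfl | rfl | rfl <;> rcases hp with rfl | rfl | rfl <;> cases b0 <;>
    simp [vv, Xm, Am, Bm, cF] <;>
    first | ring1 | linear_combination h3 | linear_combination -h3

end Pool.Agent.H84.W
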