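import Mathlib
import Pool.Agent.H84.W.Skein

set_option autoImplicit false
open Finset

/-! # The skein relation at the first string tile: the theorem -/

namespace Pool.Agent.H84.W

open Pool.Agent.H75.Perc Pool.Agent.H75.TwoArm Pool.Agent.H75.Four Pool.Agent.H69.Q1
open Pool.Agent.H13.W (eW eE eS eN of_side side_cases lab_ne_plab)
open Pool.Agent.Q1 (DCo)
open Pool.Agent.H81.G1 (Dir)

variable {F F0 L L0 G : Finset (ℤ × ℤ)} {t c : ℤ × ℤ} {R : DC} {K : ℕ}
  {π Y : Dir → Dir} {n : Dir → ℕ}

/-- the root enters the string: from `R` through the string to the tile `t` -/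
structure Rt (F L : Finset (ℤ × ℤ)) (t : ℤ × ℤ) (R : DC) (K : ℕ) : Prop where
  run : (ip F L)^[K] R = ent t .E
  out : ∀ i < K, ∀ p, (ip F L)^[i] R ≠ ent t p
  str : ∀ e ∈ F, (e.1 + e.2) % 2 = 1 ∧ ∃ i < K, (ip F L)^[i] R = ent e .E

/-- a world: the tile `t` in the state `Y` -/
structure World (F L : Finset (ℤ × ℤ)) (t : ℤ × ℤ) (G : Finset (ℤ × ℤ)) (Y : Dir → Dir)
    (F0 L0 : Finset (ℤ × ℤ)) : Prop where
  at_ : At (ip F0 L0) (ip F L) (ent t) (exi t) Y
  sub : F0 ∪ L0 ⊆ G
  str : ∀ e ∈ F0, e ∈ F ∨ (e = t ∧ Y = Xm)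

section
variable (ht : (t.1 + t.2) % 2 = 1) (hF : t ∉ F) (h : Cut (ip F L) (ent t) (exi t) π n)
  (hR : Rt F L t R K)
include ht hF h

/-- the directed corners of a strand are distinct -/
lemma idx_inj {p : Dir} {i i' : ℕ} (hi : i ≤ n p) (hi' : i' ≤ n p)
    (he : (ip F L)^[i] (exi t p) = (ip F L)^[i'] (exi t p)) : i = i' := by
  have hg := at_nat (L := L) ht hF (Or.inl rfl)
  have key : ∀ {i i' : ℕ}, i < i' → i' ≤ n p →
      (ip F L)^[i] (exi t p) ≠ (ip F L)^[i'] (exi t p) := by
    intro i i' hlt hi' he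
    have e1 : (ip F L)^[i] (exi t p) = (ip F L)^[i] ((ip F L)^[i' - i] (exi t p)) := by
      rw [he, ← Function.iterate_add_apply, Nat.add_sub_cancel' hlt.le]
    have e2 := (ip_inj F L).iterate i e1
    obtain ⟨s, hs⟩ : ∃ s, i' - i = s + 1 := ⟨i' - i - 1, by omega⟩
    rw [hs, Function.iterate_succ_apply'] at e2
    obtain ⟨q', hq'⟩ := hg.sur p
    rw [← hq', ← hg.on q'] at e2
    have e3 := (ip_inj F L e2).symm
    rw [hg.on, hq'] at e3
    exact h.out p s (by omega) q' e3
  rcases lt_trichotomy i i' with h1 | h1 | h1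
  · exact absurd he (key h1 hi')
  · exact h1
  · exact absurd he.symm (key h1 hi)

include hR

/-- the root lies on the strand `π E` -/
lemma root_pos : ∃ j, j + K = n (π .E) ∧ R = (ip F L)^[j] (exi t (π .E)) := by
  have hg := at_nat (L := L) ht hF (Or.inl rfl)
  obtain ⟨hpp, hnn, -⟩ := cut_pi ht hF h .E
  have h1 : (ip F L)^[n (π .E)] (exi t (π .E)) = ent t .E := by rw [h.run, hpp]
  rcases Nat.lt_or_ge (n (π .E)) K with h2 | h2
  · exfalso
    have e1 : (ip F L)^[n (π .E)] ((ip F L)^[K - n (π .E)] R) =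
        (ip F L)^[n (π .E)] (exi t (π .E)) := by
      rw [h1, ← Function.iterate_add_apply, Nat.add_sub_cancel' h2.le, hR.run]
    have e2 := (ip_inj F L).iterate _ e1
    obtain ⟨s, hs⟩ : ∃ s, K - n (π .E) = s + 1 := ⟨K - n (π .E) - 1, by omega⟩
    rw [hs, Function.iterate_succ_apply'] at e2
    obtain ⟨q', hq'⟩ := hg.sur (π .E)
    rw [← hq', ← hg.on q'] at e2
    exact hR.out s (by omega) q' (ip_inj F L e2)
  · refine ⟨n (π .E) - K, by omega, ?_⟩
    have e1 : (ip F L)^[K] R = (ip F L)^[K] ((ip F L)^[n (π .E) - K] (exi t (π .E))) := by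
      rw [hR.run, ← Function.iterate_add_apply, Nat.add_sub_cancel' h2, h1]
    exact (ip_inj F L).iterate _ e1

/-- **The direction of the strand through the outer corner.** -/
lemma dir_strand (hW : World F L t G π F0 L0) (hd : DCo G (fi c) (fi R.1)) {p : Dir} {i : ℕ}
    (hi : i ≤ n p) (hc : (c, true) = (ip F L)^[i] (exi t p)) (hpE : p ≠ .E) (hp : p ≠ π .E) :
    p = cF (π .E) := by
  have hinv : ∀ p, π (π p) = p := fun p => (cut_pi ht hF h p).1
  have hne : ∀ p, π p ≠ p := fun p => (cut_pi ht hF h p).2.2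
  have hnn : ∀ p, n (π p) = n p := fun p => (cut_pi ht hF h p).2.1
  have hth : Three π := pi_cases hinv hne
  have hat := hW.at_
  have hit := fun p i => h.iter hat p (i := i)
  have hsym : ∀ x y, InOrb (ip F0 L0) x y → InOrb (ip F0 L0) y x := fun x y => ip_symm
  obtain ⟨j, hjK, hRj⟩ := root_pos ht hF h hR
  have hRshift : ∀ i, (ip F L)^[i] R = (ip F L)^[i + j] (exi t (π .E)) := by
    intro i; rw [hRj, ← Function.iterate_add_apply]
  have hitE : ∀ i ≤ K, (ip F0 L0)^[i + j] (exi t (π .E)) = (ip F L)^[i] R := by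
    intro i hi; rw [hRshift, hit _ _ (by omega)]
  -- reversed strand
  have hcr : (c, false) = (ip F L)^[n p - i] (exi t (π p)) := by
    rw [cut_rev h p _ (by omega), show n p - (n p - i) = i by omega, ← hc]; rfl
  obtain ⟨S, hS, hmiss, hww, huw⟩ := direction (F := F0) (L := L0) (x0 := (c, true)) (R := R)
    (w := exi t (π .E)) (u := exi t p) (j := j) (N := n (π .E))
    (by rw [hit _ _ (by omega), ← hRj])
    (by
      intro e he q hq
      rcases hW.str e he with heF | ⟨rfl, hX⟩
      · obtain ⟨ho, i0, hi0, h0⟩ := hR.str e heF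
        rcases hq with rfl | rfl
        · refine ⟨i0 + 1 + j, by omega, ?_⟩
          rw [hitE _ (by omega), Function.iterate_succ_apply', h0, ip_cross ho heF]
          rfl
        · refine ⟨i0 + j, by omega, ?_⟩
          rw [hitE _ (by omega), h0]; rfl
      · rcases hq with rfl | rfl
        · refine ⟨0, Nat.zero_le _, ?_⟩
          rw [hX]; rfl
        · refine ⟨K + j, by omega, ?_⟩
          rw [hitE _ le_rfl, hR.run]; rfl)
    (by
      intro i0 hi0 e he htl q hq h0
      rw [hit _ _ (by omega)] at htl h0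
      rcases hW.str e he with heF | ⟨rfl, hX⟩
      · obtain ⟨ho, i1, hi1, h1⟩ := hR.str e heF
        obtain ⟨q', hq'⟩ := eq_ent htl
        have hqq : q' = q := by
          rw [hq'] at h0; exact sd_inj h0
        rw [hqq] at hq'
        rcases hq with rfl | rfl
        · -- `W`
          have e1 : (ip F L)^[i1 + 1] R = exi e .W := by
            rw [Function.iterate_succ_apply', h1, ip_cross ho heF]; rfl
          rw [hRshift] at e1
          apply ip_iter_ne_rv (F := F) (L := L) (i1 + 1 + j - i0) (ent e .W)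
          rw [← hq', ← Function.iterate_add_apply, show i1 + 1 + j - i0 + i0 = i1 + 1 + j by omega,
            e1, hq']
          rfl
        · -- `E`
          rw [hRshift, ← hq'] at h1
          have := idx_inj ht hF h (p := π .E) (by omega) (by omega) h1
          omega
      · obtain ⟨q', hq'⟩ := eq_ent htl
        exact h.out _ _ (by omega) q' hq')
    (by
      intro b
      have e0 : exi t (π .E) = (ip F L)^[0] (exi t (π .E)) := rfl
      rw [e0]
      cases b
      · show ¬ InOrb _ _ (c, false)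
        rw [hcr, h.vis_iff hat hsym (Nat.zero_le _) (by rw [hnn]; omega), two_iter hth hth]
        rintro (h1 | h1)
        · apply hpE; rw [← hinv p, h1, hinv]
        · rw [hinv] at h1
          apply hpE; rw [← hinv p, h1, hinv]
      · show ¬ InOrb _ _ (c, true)
        rw [hc, h.vis_iff hat hsym (Nat.zero_le _) hi, two_iter hth hth]
        rintro (h1 | h1)
        · exact hp h1
        · rw [hinv] at h1; exact hp h1)
    (hd.anti hW.sub)
    (by
      show InOrb _ (c, true) _
      rw [hc]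
      have := h.next hat p hi
      rwa [hinv] at this)
  have hxu : InOrb (ip F0 L0) (c, true) (exi t p) := by
    rw [hc]
    have := h.next hat p hi
    rwa [hinv] at this
  have hz : ∀ x : DC, InOrb (ip F0 L0) (c, true) x → Zs F0 L0 (c, true) x.1 := fun x hx => Zs_of hx
  have hmid : ∀ q, lf (exi t q) = pt t q ∧ rt (exi t q) = pt t (cw q) := lf_exi ht
  refine fin_dir hth (fun q => S (pt t q)) hpE hp ?_ ?_ ?_ ?_ ?_
  · have := hww
    rwa [(hmid _).1, (hmid _).2] at this
  · have h1 : ¬ Zs F0 L0 (c, true) (exi t .E).1 := by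
      have e1 : (exi t .E).1 = ((ip F0 L0)^[n (π .E)] (exi t (π .E))).1 := by
        rw [hit _ _ le_rfl, h.run, hinv]; rfl
      rw [e1]; exact hmiss _
    have h2 := col_iff hS (exi t .E)
    rw [(hmid _).1, (hmid _).2] at h2
    by_contra h3
    exact h1 (h2.2 h3)
  · have h2 := col_iff hS (exi t p)
    rw [(hmid _).1, (hmid _).2] at h2
    exact h2.1 (hz _ hxu)
  · have h2 := col_iff hS (exi t (π p))
    rw [(hmid _).1, (hmid _).2] at h2
    refine h2.1 ?_
    have h3 : InOrb (ip F0 L0) (c, true) (ent t (π p)) := by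
      refine InOrb.trans' hxu ⟨n p, ?_⟩
      rw [hit _ _ le_rfl, h.run]
    have h4 := hz _ h3
    exact h4
  · rw [(hmid _).1, (hmid _).1] at huw
    intro h3
    exact absurd (huw.1 h3) (by simp)

end

end Pool.Agent.H84.W
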