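import Mathlib
import Pool.Agent.H84.W.Skein2

set_option autoImplicit false
open Finset

/-! # The skein relation: statement and proof -/

namespace Pool.Agent.H84.W

open Pool.Agent.H75.Perc Pool.Agent.H75.TwoArm Pool.Agent.H75.Four Pool.Agent.H69.Q1
open Pool.Agent.Q1 (DCo)
open Pool.Agent.H81.G1 (Dir)

variable {F F0 L L0 G : Finset (ℤ × ℤ)} {t c : ℤ × ℤ} {R : DC} {K : ℕ}
  {π Y : Dir → Dir} {n : Dir → ℕ} {a b : ℂ}

/-- **The value** of the corner `c` in the world with crossing tiles `F` and open labels `L`: `1` if the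
in-plane strand of the root `R` passes `c` in the direction of the root, `b` resp. `a` if it passes it in
the other direction, `0` otherwise. -/
noncomputable def val (a b : ℂ) (F L : Finset (ℤ × ℤ)) (R : DC) (c : ℤ × ℤ) : ℂ :=
  vv R.2 a b (InOrb (ip F L) R (c, true)) (InOrb (ip F L) R (c, false))

/-- the labels which put the tile into the state `Am` -/
def LA (L : Finset (ℤ × ℤ)) (t : ℤ × ℤ) : Finset (ℤ × ℤ) := if t.1 % 2 = 1 then L else insert t L

/-- the labels which put the tile into the state `Bm` -/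
def LB (L : Finset (ℤ × ℤ)) (t : ℤ × ℤ) : Finset (ℤ × ℤ) := if t.1 % 2 = 1 then insert t L else L

lemma Nm_LA (hL : t ∉ L) : Nm (LA L t) t = Am := by
  unfold Nm LA
  by_cases h : t.1 % 2 = 1
  · rw [if_pos h, if_neg (fun h' => hL (h'.1 h))]
  · rw [if_neg h, if_neg (fun h' => h (h'.2 (mem_insert_self _ _)))]

lemma Nm_LB (hL : t ∉ L) : Nm (LB L t) t = Bm := by
  unfold Nm LB
  by_cases h : t.1 % 2 = 1
  · rw [if_pos h, if_pos ⟨fun _ => mem_insert_self _ _, fun _ => h⟩]
  · rw [if_neg h, if_pos ⟨fun h' => absurd h' h, fun h' => absurd h' hL⟩]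

lemma world_X (ht : (t.1 + t.2) % 2 = 1) (hG : insert t F ∪ L ⊆ G) :
    World F L t G Xm (insert t F) L where
  at_ := at_cross ht
  sub := hG
  str e he := by
    rw [mem_insert] at he
    exact he.symm.imp_right fun h => ⟨h, rfl⟩

lemma LA_cases : LA L t = L ∨ LA L t = insert t L := by unfold LA; split_ifs <;> simp
lemma LB_cases : LB L t = L ∨ LB L t = insert t L := by unfold LB; split_ifs <;> simp

lemma sub_of {L' : Finset (ℤ × ℤ)} (hG : insert t F ∪ L ⊆ G) (hL : L' = L ∨ L' = insert t L) :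
    F ∪ L' ⊆ G := by
  intro e he
  apply hG
  rw [mem_union] at he
  rcases he with he | he
  · exact mem_union_left _ (mem_insert_of_mem he)
  · rcases hL with rfl | rfl
    · exact mem_union_right _ he
    · rw [mem_insert] at he
      rcases he with rfl | he
      · exact mem_union_left _ (mem_insert_self _ _)
      · exact mem_union_right _ he

lemma world_A (ht : (t.1 + t.2) % 2 = 1) (hF : t ∉ F) (hL : t ∉ L) (hG : insert t F ∪ L ⊆ G) :
    World F L t G Am F (LA L t) where
  at_ := by have := at_nat (L := L) ht hF (LA_cases (L := L) (t := t)); rwa [Nm_LA hL] at this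
  sub := sub_of hG LA_cases
  str e he := Or.inl he

lemma world_B (ht : (t.1 + t.2) % 2 = 1) (hF : t ∉ F) (hL : t ∉ L) (hG : insert t F ∪ L ⊆ G) :
    World F L t G Bm F (LB L t) where
  at_ := by have := at_nat (L := L) ht hF (LB_cases (L := L) (t := t)); rwa [Nm_LB hL] at this
  sub := sub_of hG LB_cases
  str e he := Or.inl he

/-- **The skein relation.** -/
theorem skein (ht : (t.1 + t.2) % 2 = 1) (hF : t ∉ F) (hL : t ∉ L) (hG : insert t F ∪ L ⊆ G)
    (hR : Rt F L t R K) (hd : DCo G (fi c) (fi R.1)) (h1 : a + b = 1) (h2 : a * b = 1) :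
    val a b (insert t F) L R c = a * val a b F (LA L t) R c + b * val a b F (LB L t) R c := by
  obtain ⟨π, n, h⟩ := exists_cut (at_nat (L := L) ht hF (Or.inl rfl)) exi_inj (exists_orb_ip F L)
  have hinv : ∀ p, π (π p) = p := fun p => (cut_pi ht hF h p).1
  have hne : ∀ p, π p ≠ p := fun p => (cut_pi ht hF h p).2.2
  have hnn : ∀ p, n (π p) = n p := fun p => (cut_pi ht hF h p).2.1
  have hth : Three π := pi_cases hinv hne
  obtain ⟨j, hjK, hRj⟩ := root_pos ht hF h hR
  have hX := world_X (F := F) (L := L) ht hG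
  have hA := world_A ht hF hL hG
  have hB := world_B ht hF hL hG
  by_cases hc : ∃ p, ∃ i ≤ n p, ((c, true) : DC) = (ip F L)^[i] (exi t p)
  · obtain ⟨p, i, hi, hc⟩ := hc
    have hcr : ((c, false) : DC) = (ip F L)^[n p - i] (exi t (π p)) := by
      rw [cut_rev h p _ (by omega), show n p - (n p - i) = i by omega, ← hc]; rfl
    have vT : ∀ {Y F0 L0}, Three Y → World F L t G Y F0 L0 →
        (InOrb (ip F0 L0) R (c, true) ↔ p = π .E ∨ p = Y .E) := by
      intro Y F0 L0 hY hW
      rw [hc, hRj, h.vis_iff hW.at_ (fun x y => ip_symm) (by omega) hi, two_iter hY hth, hinv]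
    have vF : ∀ {Y F0 L0}, Three Y → World F L t G Y F0 L0 →
        (InOrb (ip F0 L0) R (c, false) ↔ π p = π .E ∨ π p = Y .E) := by
      intro Y F0 L0 hY hW
      rw [hcr, hRj, h.vis_iff hW.at_ (fun x y => ip_symm) (by omega) (by rw [hnn]; omega),
        two_iter hY hth, hinv]
    have hp : p = .E ∨ p = π .E ∨ p = cF (π .E) := by
      by_contra hcon
      rw [not_or, not_or] at hcon
      have hWπ : ∃ F0 L0, World F L t G π F0 L0 := by
        rcases hth with e | e | e <;> rw [e]
        · exact ⟨_, _, hX⟩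
        · exact ⟨_, _, hA⟩
        · exact ⟨_, _, hB⟩
      obtain ⟨F0, L0, hW⟩ := hWπ
      exact hcon.2.2 (dir_strand ht hF h hR hW hd hi hc hcon.1 hcon.2.1)
    unfold val
    rw [propext (vT (Or.inl rfl) hX), propext (vF (Or.inl rfl) hX),
      propext (vT (Or.inr (Or.inl rfl)) hA), propext (vF (Or.inr (Or.inl rfl)) hA),
      propext (vT (Or.inr (Or.inr rfl)) hB), propext (vF (Or.inr (Or.inr rfl)) hB)]
    exact fin_skein hth h1 h2 hp R.2
  · push_neg at hc
    have hcr : ∀ p, ∀ i ≤ n p, ((c, false) : DC) ≠ (ip F L)^[i] (exi t p) := by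
      intro p i hi h0
      apply hc (π p) (n p - i) (by rw [hnn]; omega)
      rw [cut_rev h p _ (by omega), show n p - (n p - i) = i by omega, ← h0]; rfl
    have v0 : ∀ {Y F0 L0}, World F L t G Y F0 L0 → val a b F0 L0 R c = 0 := by
      intro Y F0 L0 hW
      have a1 : ¬ InOrb (ip F0 L0) R (c, true) := by
        rw [hRj]; exact h.not_vis hW.at_ (by omega) hc
      have a2 : ¬ InOrb (ip F0 L0) R (c, false) := by
        rw [hRj]; exact h.not_vis hW.at_ (by omega) hcr
      unfold val vv
      rw [if_neg a1, if_neg a2, if_neg a2, if_neg a1, ite_self]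
    rw [v0 hX, v0 hA, v0 hB]; ring

end Pool.Agent.H84.W
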