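import Mathlib
import Pool.Agent.H84.W.Skein3
import Pool.Agent.Q1.ExC

set_option autoImplicit false
open Finset

/-! # The frozen string = the in-plane strand -/

namespace Pool.Agent.H84.W

open Pool.Agent.H75.Perc Pool.Agent.H75.TwoArm Pool.Agent.H75.Four Pool.Agent.H69.Q1
open Pool.Agent.H13.W (eW eE eS eN)
open Pool.Agent.Q1 (DCo Ec Ec_empty Ec_insert Ec_congr)
open Pool.Agent.H81.G1 (Dir)

variable {F F0 L L0 G : Finset (ℤ × ℤ)} {t c q : ℤ × ℤ} {R : DC} {K k m : ℕ} {a b : ℂ}

/-- a row of `m` tiles to the right of (and with) the tile `t` -/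
def srow (t : ℤ × ℤ) (m : ℕ) : Finset (ℤ × ℤ) :=
  (Finset.range m).image fun i : ℕ => (t.1 + (i : ℤ), t.2 + (i : ℤ))

lemma mem_srow {e : ℤ × ℤ} :
    e ∈ srow t m ↔ ∃ i : ℕ, i < m ∧ e = (t.1 + (i : ℤ), t.2 + (i : ℤ)) := by
  unfold srow
  rw [mem_image]
  constructor
  · rintro ⟨i, hi, rfl⟩; exact ⟨i, mem_range.1 hi, rfl⟩
  · rintro ⟨i, hi, rfl⟩; exact ⟨i, mem_range.2 hi, rfl⟩

@[simp] lemma srow_zero : srow t 0 = ∅ := rfl

lemma srow_succ : srow t (m + 1) = insert t (srow (t.1 + 1, t.2 + 1) m) := by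
  ext e
  rw [mem_insert, mem_srow, mem_srow]
  constructor
  · rintro ⟨i, hi, rfl⟩
    rcases Nat.eq_zero_or_pos i with rfl | h0
    · left; simp
    · right
      refine ⟨i - 1, by omega, ?_⟩
      refine Prod.ext ?_ ?_ <;> simp only <;> omega
  · rintro (rfl | ⟨i, hi, rfl⟩)
    · exact ⟨0, by omega, by simp⟩
    · refine ⟨i + 1, by omega, ?_⟩
      refine Prod.ext ?_ ?_ <;> simp only <;> push_cast <;> ring

lemma notMem_srow : t ∉ srow (t.1 + 1, t.2 + 1) m := by
  rw [mem_srow]
  rintro ⟨i, -, h⟩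
  have := congrArg Prod.fst h
  simp only at this
  omega

lemma odd_srow (ht : (t.1 + t.2) % 2 = 1) {e : ℤ × ℤ} (he : e ∈ srow t m) :
    (e.1 + e.2) % 2 = 1 := by
  obtain ⟨i, -, rfl⟩ := mem_srow.1 he
  simp only
  omega

/-- leaving a tile to the west = entering its west neighbour at the east side -/
lemma exi_W {e : ℤ × ℤ} (he : (e.1 + e.2) % 2 = 1) : exi e .W = ent (e.1 - 1, e.2 - 1) .E := by
  have hs : sd e .W = sd (e.1 - 1, e.2 - 1) .E := by
    refine Prod.ext ?_ ?_ <;> simp [sd, eW, eE]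
  have he' : ((e.1 - 1, e.2 - 1).1 + (e.1 - 1, e.2 - 1).2 : ℤ) % 2 = 1 := by simp only; omega
  rcases Int.emod_two_eq_zero_or_one e.1 with h1 | h1
  · obtain ⟨a1, -, -, -⟩ := sides_even he h1
    obtain ⟨-, a2, -, -⟩ := sides_odd he' (by simp only; omega)
    rw [exi_of_plab a1, ent_of_lab a2, hs]
  · obtain ⟨a1, -, -, -⟩ := sides_odd he h1
    obtain ⟨-, a2, -, -⟩ := sides_even he' (by simp only; omega)
    rw [exi_of_lab a1, ent_of_plab a2, hs]

/-- the directed corner which enters the string ending (to the right) before the tile `q` -/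
def wst (q : ℤ × ℤ) : DC := ent (q.1 - 1, q.2 - 1) .E

/-- `R` is a **root** of the string `F` with right end `q` : its strand leads into the right end. -/
structure Root (F L : Finset (ℤ × ℤ)) (q : ℤ × ℤ) (R : DC) (k : ℕ) : Prop where
  run : (ip F L)^[k] R = wst q
  out : ∀ i < k, tl ((ip F L)^[i] R) ∉ F

lemma Root.change (h : Root (insert t F) L q R k) {L' : Finset (ℤ × ℤ)}
    (hL : L' = L ∨ L' = insert t L) :
    (∀ i ≤ k, (ip F L')^[i] R = (ip (insert t F) L)^[i] R) ∧
      ∀ i < k, tl ((ip F L')^[i] R) ∉ insert t F := by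
  have key : ∀ i ≤ k, (ip F L')^[i] R = (ip (insert t F) L)^[i] R := by
    intro i
    induction i with
    | zero => intro _; rfl
    | succ i ih =>
      intro hi
      rw [Function.iterate_succ_apply', Function.iterate_succ_apply', ih (by omega)]
      have h1 := h.out i (by omega)
      have h2 := h1
      rw [mem_insert, not_or] at h2
      refine ip_congr ⟨fun h' => absurd h' h2.2, fun h' => absurd h' h1⟩ ?_
      rcases hL with rfl | rfl
      · rfl
      · rw [mem_insert]; exact ⟨fun h' => h'.resolve_left h2.1, Or.inr⟩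
  exact ⟨key, fun i hi => by rw [key i hi.le]; exact h.out i hi⟩

lemma Root.small (h : Root (insert t F) L q R k) {L' : Finset (ℤ × ℤ)}
    (hL : L' = L ∨ L' = insert t L) : Root F L' q R k := by
  obtain ⟨h1, h2⟩ := h.change hL
  refine ⟨by rw [h1 k le_rfl]; exact h.run, fun i hi h' => h2 i hi (mem_insert_of_mem h')⟩

/-- the way through the string to its first tile -/
lemma Root.rt (ht : (t.1 + t.2) % 2 = 1)
    (h : Root (srow t (m + 1)) L (t.1 + (m + 1 : ℕ), t.2 + (m + 1 : ℕ)) R k) :
    Rt (srow (t.1 + 1, t.2 + 1) m) L t R (k + m) := by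
  rw [srow_succ] at h
  obtain ⟨h1, h2⟩ := h.change (L' := L) (Or.inl rfl)
  set F := srow (t.1 + 1, t.2 + 1) m with hFd
  have hrun : (ip F L)^[k] R = ent (t.1 + (m : ℤ), t.2 + (m : ℤ)) .E := by
    rw [h1 k le_rfl, h.run]
    unfold wst
    congr 1
    refine Prod.ext ?_ ?_ <;> simp only <;> push_cast <;> ring
  have hthr : ∀ i : ℕ, i ≤ m →
      (ip F L)^[k + i] R = ent (t.1 + (m : ℤ) - (i : ℤ), t.2 + (m : ℤ) - (i : ℤ)) .E := by
    intro i
    induction i with
    | zero => intro _; simpa using hrun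
    | succ i ih =>
      intro hi
      have hmem : (t.1 + (m : ℤ) - (i : ℤ), t.2 + (m : ℤ) - (i : ℤ)) ∈ F := by
        rw [hFd, mem_srow]
        refine ⟨m - 1 - i, by omega, ?_⟩
        refine Prod.ext ?_ ?_ <;> simp only <;> omega
      rw [← Nat.add_assoc, Function.iterate_succ_apply', ih (by omega),
        ip_cross (by simp only; omega) hmem]
      show exi _ .W = _
      rw [exi_W (by simp only; omega)]
      congr 1
      refine Prod.ext ?_ ?_ <;> simp only <;> push_cast <;> ring
  refine ⟨?_, ?_, ?_⟩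
  · rw [hthr m le_rfl]
    congr 1
    refine Prod.ext ?_ ?_ <;> simp
  · intro i hi p hp
    rcases Nat.lt_or_ge i k with h3 | h3
    · apply h2 i h3
      rw [hp, tl_ent ht]
      exact mem_insert_self _ _
    · obtain ⟨s, rfl⟩ := Nat.exists_eq_add_of_le h3
      rw [hthr s (by omega)] at hp
      have h4 := congrArg tl hp
      rw [tl_ent (by simp only; omega), tl_ent ht] at h4
      have := congrArg Prod.fst h4
      simp only at this
      omega
  · intro e he
    rw [hFd, mem_srow] at he
    obtain ⟨i, hi, rfl⟩ := he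
    refine ⟨by simp only; omega, k + (m - 1 - i), by omega, ?_⟩
    rw [hthr _ (by omega)]
    congr 1
    refine Prod.ext ?_ ?_ <;> simp only <;> omega

lemma ip_empty_true (L : Finset (ℤ × ℤ)) (c : ℤ × ℤ) (n : ℕ) :
    (ip ∅ L)^[n] (c, true) = ((nx L)^[n] c, true) := by
  induction n with
  | zero => rfl
  | succ n ih => rw [Function.iterate_succ_apply', ih, Function.iterate_succ_apply']; simp [ip]

lemma ip_empty_false (L : Finset (ℤ × ℤ)) (c : ℤ × ℤ) (n : ℕ) :
    (ip ∅ L)^[n] (c, false) = ((pv L)^[n] c, false) := by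
  induction n with
  | zero => rfl
  | succ n ih => rw [Function.iterate_succ_apply', ih, Function.iterate_succ_apply']; simp [ip]

open Classical in
lemma val_empty (L : Finset (ℤ × ℤ)) (R : DC) (c : ℤ × ℤ) :
    val a b ∅ L R c = if InOrb (nx L) R.1 c then 1 else 0 := by
  obtain ⟨r, s⟩ := R
  have tt : InOrb (ip ∅ L) (r, true) (c, true) ↔ InOrb (nx L) r c := by
    constructor
    · rintro ⟨n, hn⟩; rw [ip_empty_true] at hn; exact ⟨n, congrArg Prod.fst hn⟩
    · rintro ⟨n, hn⟩; exact ⟨n, by rw [ip_empty_true, hn]⟩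
  have tf : ¬ InOrb (ip ∅ L) (r, true) (c, false) := by
    rintro ⟨n, hn⟩; rw [ip_empty_true] at hn
    exact absurd (congrArg Prod.snd hn) (by simp)
  have ff : InOrb (ip ∅ L) (r, false) (c, false) ↔ InOrb (nx L) r c := by
    rw [← inOrb_pv_iff]
    constructor
    · rintro ⟨n, hn⟩; rw [ip_empty_false] at hn; exact ⟨n, congrArg Prod.fst hn⟩
    · rintro ⟨n, hn⟩; exact ⟨n, by rw [ip_empty_false, hn]⟩
  have ft : ¬ InOrb (ip ∅ L) (r, false) (c, true) := by
    rintro ⟨n, hn⟩; rw [ip_empty_false] at hn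
    exact absurd (congrArg Prod.snd hn) (by simp)
  unfold val vv
  cases s
  · by_cases h : InOrb (nx L) r c
    · simp [ff, h]
    · simp [ff, ft, h]
  · by_cases h : InOrb (nx L) r c
    · simp [tt, h]
    · simp [tt, tf, h]

/-- weights of the string -/
noncomputable def qs (a b : ℂ) (e : ℤ × ℤ) : ℂ := if e.1 % 2 = 0 then a else b

open Classical in
/-- **The frozen string is the in-plane strand.** For every configuration `L` of the labels off the
string and every root `R` at the right end of the string: the mean over the states of the string (complex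
weights `qs a b`, `a + b = 1`, `a b = 1`) of the indicator that the corner `c` lies on the loop of the
root is the value `val`. -/
theorem str_val (h1 : a + b = 1) (h2 : a * b = 1) (hd : DCo G (fi c) (fi R.1)) :
    ∀ (m : ℕ) (t : ℤ × ℤ) (L : Finset (ℤ × ℤ)), (t.1 + t.2) % 2 = 1 → Disjoint (srow t m) L →
      srow t m ∪ L ⊆ G → Root (srow t m) L (t.1 + (m : ℤ), t.2 + (m : ℤ)) R k →
      Ec (qs a b) (srow t m) (fun σ => if InOrb (nx (L ∪ σ)) R.1 c then (1 : ℂ) else 0) =
        val a b (srow t m) L R c := by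
  intro m
  induction m with
  | zero =>
    intro t L _ _ _ _
    rw [srow_zero, Ec_empty, val_empty, union_empty]
  | succ m ih =>
    intro t L ht hdis hG hR
    have hRt := Root.rt ht (by simpa using hR)
    rw [srow_succ] at hdis hG hR ⊢
    set F := srow (t.1 + 1, t.2 + 1) m with hFd
    have htF : t ∉ F := notMem_srow
    rw [disjoint_insert_left] at hdis
    have hS := skein ht htF hdis.1 hG hRt hd h1 h2
    have hq : ((t.1 + ((m + 1 : ℕ) : ℤ), t.2 + ((m + 1 : ℕ) : ℤ)) : ℤ × ℤ) =
        ((t.1 + 1, t.2 + 1).1 + (m : ℤ), (t.1 + 1, t.2 + 1).2 + (m : ℤ)) := by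
      refine Prod.ext ?_ ?_ <;> simp only <;> push_cast <;> ring
    rw [hq] at hR
    have i1 := ih (t.1 + 1, t.2 + 1) L (by simp only; omega) hdis.2
      (sub_of hG (Or.inl rfl)) (hR.small (Or.inl rfl))
    have hdis2 : Disjoint F (insert t L) := by
      rw [disjoint_insert_right]; exact ⟨htF, hdis.2⟩
    have i2 := ih (t.1 + 1, t.2 + 1) (insert t L) (by simp only; omega) hdis2
      (sub_of hG (Or.inr rfl)) (hR.small (Or.inr rfl))
    rw [← hFd] at i1 i2
    rw [Ec_insert _ htF, i1, hS]
    have e2 : Ec (qs a b) F (fun σ => if InOrb (nx (L ∪ insert t σ)) R.1 c then (1 : ℂ) else 0) =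
        val a b F (insert t L) R c := by
      rw [← i2]
      refine Ec_congr fun σ _ => ?_
      rw [union_insert, insert_union]
    rw [e2]
    unfold LA LB qs
    rcases Int.emod_two_eq_zero_or_one t.1 with h0 | h0
    · have h0' : ¬ t.1 % 2 = 1 := by omega
      simp only [if_neg h0', if_pos h0]
      linear_combination -(val a b F L R c) * h1
    · have h0' : ¬ t.1 % 2 = 0 := by omega
      simp only [if_pos h0, if_neg h0']
      linear_combination -(val a b F L R c) * h1

end Pool.Agent.H84.W
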