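import Mathlib
import Pool.Agent.Q1.Outer

set_option autoImplicit false
open Finset

/-! # The turning index at an outer corner does not depend on the configuration

`c0`, `c` : corners whose faces are joined to each other and to infinity off `G`. For `w ⊆ w' ⊆ G`: if the
loop of `c0` in `w` passes `c`, then also in `w'`, with the same turning index at `c`. -/

namespace Pool.Agent.H84.W

open Pool.Agent.H75.Perc Pool.Agent.H75.TwoArm Pool.Agent.H75.Four Pool.Agent.H69.Q1
open Pool.Agent.Q1 (DCo total_outer)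

section abstract

variable {α : Type*} {f f' : α → α} {d d' : α → ℤ} {c0 c : α} {k0 : ℤ}

lemma KK_add' (f : α → α) (d : α → ℤ) (x : α) (k : ℤ) (i n : ℕ) :
    KK f d x k (i + n) = KK f d (f^[i] x) (KK f d x k i) n := by
  unfold KK
  rw [Finset.sum_range_add]
  have : ∀ j ∈ range n, d (f^[i + j] x) = d (f^[j] (f^[i] x)) := by
    intro j _
    rw [← Function.iterate_add_apply, Nat.add_comm]
  rw [Finset.sum_congr rfl this]
  ring

/-- `P z` : the point `z` is not in the tile -/
lemma agree {P : α → Prop} (hf : ∀ z, P z → f' z = f z ∧ d' z = d z) {z : α} {n : ℕ}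
    (h : ∀ j < n, P (f^[j] z)) : ∀ j ≤ n, f'^[j] z = f^[j] z ∧ ∀ k, KK f' d' z k j = KK f d z k j := by
  intro j
  induction j with
  | zero => intro _; exact ⟨rfl, fun k => by unfold KK; simp⟩
  | succ j ih =>
    intro hj
    obtain ⟨h1, h2⟩ := ih (by omega)
    obtain ⟨h3, h4⟩ := hf _ (h j (by omega))
    refine ⟨?_, fun k => ?_⟩
    · rw [Function.iterate_succ_apply', Function.iterate_succ_apply', h1, h3]
    · rw [KK_succ, KK_succ, h2, h1, h4]

/-- **One tile is changed.** -/
theorem one_tile {P : α → Prop} (hf : ∀ z, P z → f' z = f z ∧ d' z = d z)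
    {L L' i i' : ℕ} (hO : Orb f c0 L) (hO' : Orb f' c0 L')
    (hT : KK f d c0 k0 L = KK f' d' c0 k0 L')
    (hi : i < L) (hc : f^[i] c0 = c) (hi' : i' < L') (hc' : f'^[i'] c0 = c)
    (hcase : (∀ j < i, P (f^[j] c0)) ∨ ∀ j, i ≤ j → j < L → P (f^[j] c0)) :
    KK f' d' c0 k0 i' = KK f d c0 k0 i := by
  rcases hcase with h | h
  · have ha := agree hf h
    have e1 : f'^[i] c0 = f'^[i'] c0 := by rw [(ha i le_rfl).1, hc, hc']
    have hiL : i < L' := by
      by_contra hcon
      have h1 := (ha L' (by omega)).1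
      rw [hO'.per] at h1
      exact hO.inj 0 L' hO'.pos (by omega) h1
    have hii : i = i' := by
      rcases lt_trichotomy i i' with h1 | h1 | h1
      · exact absurd e1 (hO'.inj _ _ h1 hi')
      · exact h1
      · exact absurd e1.symm (hO'.inj _ _ h1 hiL)
    rw [← hii]; exact (ha i le_rfl).2 k0
  · rcases Nat.eq_zero_or_pos i with h0 | h0
    · subst h0
      rw [Function.iterate_zero, id_eq] at hc
      have : i' = 0 := by
        rcases Nat.eq_zero_or_pos i' with h1 | h1
        · exact h1
        · exact absurd (by rw [hc', ← hc]; rfl) (hO'.inj 0 i' h1 hi')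
      subst this
      unfold KK; simp
    · have ha := agree hf (z := c) (n := L - i) (by
        intro j hj
        rw [← hc, ← Function.iterate_add_apply]
        exact h _ (by omega) (by omega))
      have hend : f^[L - i] c = c0 := by
        rw [← hc, ← Function.iterate_add_apply, Nat.sub_add_cancel hi.le, hO.per]
      have hend' : f'^[L' - i'] c = c0 := by
        rw [← hc', ← Function.iterate_add_apply, Nat.sub_add_cancel hi'.le, hO'.per]
      have hs : L' - i' = L - i := by
        rcases lt_trichotomy (L' - i') (L - i) with h1 | h1 | h1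
        · exfalso
          rw [(ha _ h1.le).1, ← hc, ← Function.iterate_add_apply] at hend'
          exact hO.inj 0 _ (by omega) (by omega) hend'.symm
        · exact h1
        · exfalso
          rw [← (ha _ le_rfl).1, ← hc', ← Function.iterate_add_apply] at hend
          exact hO'.inj 0 _ (by omega) (by omega) hend.symm
      have k1 := KK_add' f d c0 k0 i (L - i)
      have k2 := KK_add' f' d' c0 k0 i' (L - i)
      rw [show i + (L - i) = L by omega, hc] at k1
      rw [show i' + (L - i) = L' by omega, hc', (ha _ le_rfl).2] at k2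
      rw [k1, k2] at hT
      unfold KK at hT ⊢
      linarith

end abstract

variable {w w' G : Finset (ℤ × ℤ)} {c0 c g e : ℤ × ℤ} {k0 : ℤ}

lemma nxC_eq_nxO' (c : ℤ × ℤ) : nxC c = nxO (opc c) := by
  have := (nxO_opc (opc c))
  obtain ⟨a, b⟩ := c
  unfold nxC nxO opc
  rcases ty_cases (a, b) with ⟨-, h1, h2, -, -, -⟩ | ⟨-, h1, h2, -, -, -⟩ |
      ⟨-, h1, h2, -, -, -⟩ | ⟨-, h1, h2, -, -, -⟩ <;> simp only at h1 h2 ⊢ <;> split_ifs <;>
    first | rfl | (exfalso; omega) | (refine Prod.ext ?_ ?_ <;> simp only <;> omega)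

lemma nx_del_agree (w : Finset (ℤ × ℤ)) {e z : ℤ × ℤ} (h : lab z ≠ e) :
    nx (insert e w) z = nx w z ∧ del (insert e w) z = del w z := by
  have : lab z ∈ insert e w ↔ lab z ∈ w := by
    rw [mem_insert]; exact ⟨fun h' => h'.resolve_left h, Or.inr⟩
  unfold nx del
  simp only [this, and_self]

/-- both arcs pass the tile: impossible -/
lemma both_arcs (he : e ∉ w) {L L' i i' j1 j2 : ℕ} (hO : Orb (nx w) c0 L)
    (hO' : Orb (nx (insert e w)) c0 L') (hi : i < L) (hc : (nx w)^[i] c0 = c)
    (hi' : i' < L') (hc' : (nx (insert e w))^[i'] c0 = c)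
    (h1 : j1 < i) (e1 : lab ((nx w)^[j1] c0) = e) (h2 : i ≤ j2) (h2L : j2 < L)
    (e2 : lab ((nx w)^[j2] c0) = e) : False := by
  have hne : (nx w)^[j2] c0 ≠ (nx w)^[j1] c0 := fun h => hO.inj j1 j2 (by omega) h2L h.symm
  have ho : (nx w)^[j2] c0 = opc ((nx w)^[j1] c0) := by
    have := lab_eq_iff.1 (e2.trans e1.symm)
    exact this.resolve_left hne
  have huniq : ∀ j < L, lab ((nx w)^[j] c0) = e → j = j1 ∨ j = j2 := by
    intro j hj h3
    rcases lab_eq_iff.1 (h3.trans e1.symm) with h4 | h4
    · left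
      rcases lt_trichotomy j j1 with h5 | h5 | h5
      · exact absurd h4 (hO.inj _ _ h5 (by omega))
      · exact h5
      · exact absurd h4.symm (hO.inj _ _ h5 hj)
    · right
      rw [← ho] at h4
      rcases lt_trichotomy j j2 with h5 | h5 | h5
      · exact absurd h4 (hO.inj _ _ h5 h2L)
      · exact h5
      · exact absurd h4.symm (hO.inj _ _ h5 hj)
  have a1 := agree (f := nx w) (f' := nx (insert e w)) (d := del w) (d' := del (insert e w))
    (P := fun z => lab z ≠ e) (fun z h => nx_del_agree w h) (z := c0) (n := j1) (by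
      intro j hj h3
      rcases huniq j (by omega) h3 with h4 | h4 <;> omega)
  have hstep : (nx (insert e w))^[j1 + 1] c0 = (nx w)^[j2 + 1] c0 := by
    rw [Function.iterate_succ_apply', (a1 j1 le_rfl).1, Function.iterate_succ_apply']
    have r1 : ∀ z, lab z = e → nx (insert e w) z = nxO z := by
      intro z hz
      unfold nx; rw [if_pos]
      rw [hz]; exact mem_insert_self _ _
    have r2 : ∀ z, lab z = e → nx w z = nxC z := by
      intro z hz
      unfold nx; rw [if_neg]
      rw [hz]; exact he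
    rw [r1 _ e1, r2 _ e2, nxC_eq_nxO', ho, opc_opc]
  have a2 := agree (f := nx w) (f' := nx (insert e w)) (d := del w) (d' := del (insert e w))
    (P := fun z => lab z ≠ e) (fun z h => nx_del_agree w h) (z := (nx w)^[j2 + 1] c0)
    (n := L - (j2 + 1)) (by
      intro j hj h3
      rw [← Function.iterate_add_apply] at h3
      rcases huniq _ (by omega) h3 with h4 | h4 <;> omega)
  have a3 : ∀ s ≤ L - (j2 + 1), (nx (insert e w))^[s + (j1 + 1)] c0 = (nx w)^[s + (j2 + 1)] c0 := by
    intro s hs
    rw [Function.iterate_add_apply, hstep, (a2 s hs).1, ← Function.iterate_add_apply]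
  have hL' : L' ≤ L - (j2 + 1) + (j1 + 1) := by
    by_contra hcon
    have h3 := a3 _ le_rfl
    rw [show L - (j2 + 1) + (j2 + 1) = L by omega, hO.per] at h3
    exact hO'.inj 0 _ (by omega) (by omega) h3.symm
  rcases Nat.lt_or_ge i' (j1 + 1) with h3 | h3
  · rw [(a1 i' (by omega)).1, ← hc] at hc'
    exact hO.inj i' i (by omega) hi hc'
  · obtain ⟨s, rfl⟩ := Nat.exists_eq_add_of_le h3
    rw [Nat.add_comm (j1 + 1) s, a3 s (by omega), ← hc] at hc'
    exact hO.inj i _ (by omega) (by omega) hc'.symm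

/-- one label is opened -/
lemma kc_step (hG : insert e w ⊆ G) (he : e ∉ w) (hd : DCo G (fi c0) g)
    (hlow : ∀ v, Co G (vx c0) v → g.2 < v.2) {L L' i i' : ℕ} (hO : Orb (nx w) c0 L)
    (hO' : Orb (nx (insert e w)) c0 L') (hi : i < L) (hc : (nx w)^[i] c0 = c)
    (hi' : i' < L') (hc' : (nx (insert e w))^[i'] c0 = c) :
    KK (nx (insert e w)) (del (insert e w)) c0 k0 i' = KK (nx w) (del w) c0 k0 i := by
  have hG' : w ⊆ G := (subset_insert _ _).trans hG
  refine one_tile (P := fun z => lab z ≠ e) (fun z h => nx_del_agree w h) hO hO' ?_ hi hc hi' hc' ?_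
  · rw [total_outer (hd.anti hG') (fun v hv => hlow v (hv.mono hG')) hO,
      total_outer (hd.anti hG) (fun v hv => hlow v (hv.mono hG)) hO']
  · by_contra hcon
    rw [not_or] at hcon
    obtain ⟨h1, h2⟩ := hcon
    simp only [not_forall, not_not] at h1 h2
    obtain ⟨j1, h1, e1⟩ := h1
    obtain ⟨j2, h2, h2L, e2⟩ := h2
    exact both_arcs he hO hO' hi hc hi' hc' h1 e1 h2 h2L e2

/-- the loop of `c0` passes the outer corner `c` iff the vertices are connected -/
lemma inOrb_iff_co (hw : w ⊆ G) (hcc : DCo G (fi c0) (fi c)) :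
    InOrb (nx w) c0 c ↔ Co w (vx c0) (vx c) := by
  constructor
  · rintro ⟨i, rfl⟩; exact co_orb w c0 i
  · intro h
    obtain ⟨E, hE⟩ := hcc.anti hw
    exact inOrb_of_co w h hE

/-- **The turning index at an outer corner is increasing-constant.** -/
theorem kc (hd : DCo G (fi c0) g) (hlow : ∀ v, Co G (vx c0) v → g.2 < v.2)
    (hcc : DCo G (fi c0) (fi c)) (S : Finset (ℤ × ℤ)) :
    ∀ w, w ∪ S ⊆ G → Disjoint w S → ∀ {L L' i i' : ℕ}, Orb (nx w) c0 L → Orb (nx (w ∪ S)) c0 L' →
      i < L → (nx w)^[i] c0 = c → i' < L' → (nx (w ∪ S))^[i'] c0 = c →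
      KK (nx (w ∪ S)) (del (w ∪ S)) c0 k0 i' = KK (nx w) (del w) c0 k0 i := by
  induction S using Finset.induction_on with
  | empty =>
    intro w hG _ L L' i i' hO hO' hi hc hi' hc'
    rw [union_empty] at hO' hc' ⊢
    have hL := hO.unique hO'
    subst hL
    have hii : i = i' := by
      rcases lt_trichotomy i i' with h1 | h1 | h1
      · exact absurd (hc.trans hc'.symm) (hO.inj _ _ h1 hi')
      · exact h1
      · exact absurd (hc'.trans hc.symm) (hO.inj _ _ h1 hi)
    rw [hii]
  | @insert e S heS ih =>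
    intro w hG hdis L L' i i' hO hO' hi hc hi' hc'
    have hew : w ∪ insert e S = insert e w ∪ S := by rw [union_insert, insert_union]
    rw [disjoint_insert_right] at hdis
    rw [hew] at hG hO' hc' ⊢
    have hG1 : insert e w ⊆ G := subset_union_left.trans hG
    obtain ⟨L1, hL1⟩ := exists_orb_nx (insert e w) c0
    have hin : InOrb (nx (insert e w)) c0 c := by
      rw [inOrb_iff_co hG1 hcc]
      have : Co w (vx c0) (vx c) := by rw [← hc]; exact co_orb w c0 i
      exact this.mono (subset_insert _ _)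
    obtain ⟨i1, hi1, hc1⟩ := (hL1.inOrb_iff c).1 hin
    rw [ih (insert e w) hG (by rw [disjoint_insert_left]; exact ⟨heS, hdis.2⟩) hL1 hO' hi1 hc1 hi' hc',
      kc_step hG1 hdis.1 hd hlow hO hL1 hi hc hi1 hc1]

end Pool.Agent.H84.W
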