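import Mathlib
import Pool.Agent.H84.W.Str
import Pool.Agent.H84.W.KC
import Pool.Agent.Q1.M6a.WClosed
import Pool.Agent.Q1.Plane

set_option autoImplicit false
open Finset

/-! # The increment at an outer corner, frozen string: in-plane form -/

namespace Pool.Agent.H84.W

open Pool.Agent.H75.Perc Pool.Agent.H75.TwoArm Pool.Agent.H75.Four Pool.Agent.H69.Q1
open Pool.Agent.Q1

open Classical in
/-- the turning index of the loop of `c0` at the outer corner `c` (all labels open) -/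
noncomputable def kap (G : Finset (ℤ × ℤ)) (c0 : ℤ × ℤ) (k0 : ℤ) (c : ℤ × ℤ) : ℤ :=
  if h : ∃ i, (nx G)^[i] c0 = c then KK (nx G) (del G) c0 k0 (Nat.find h) else 0

variable {E W : Finset (ℤ × ℤ)} {c0 : ℤ × ℤ} {k0 : ℤ} {g : ℤ × ℤ}
    {hE : ∀ e ∈ E, (e.1 + e.2) % 2 = 1} {hd : Disjoint E W} {hk : k0 % 4 = ty c0}
    {hroot : plab c0 ∉ E} {hg : DCo (E ∪ W) (fi c0) g}
    {hlow : ∀ v, Co (E ∪ W) (vx c0) v → g.2 < v.2}

open Classical in
/-- **The increment at an outer corner**: a constant phase times the indicator that the corner lies on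
the loop of the root. -/
theorem incO_kap {c : ℤ × ℤ} (hcc : DCo (E ∪ W) (fi c0) (fi c)) {ω : Finset (ℤ × ℤ)} (hω : ω ⊆ E) :
    (Env.plane E W c0 k0 g hE hd hk hroot hg hlow).incO ω c =
      if InOrb (nx (ω ∪ W)) c0 c then ph (kap (E ∪ W) c0 k0 c) else 0 := by
  set X := Env.plane E W c0 k0 g hE hd hk hroot hg hlow with hX
  have hO : Orb (nx (ω ∪ W)) c0 (X.len ω) := plane_orb hω
  by_cases h : InOrb (nx (ω ∪ W)) c0 c
  · rw [if_pos h]
    obtain ⟨i, hi, hc⟩ := (hO.inOrb_iff c).1 h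
    have hz : X.z ω i = c := by rw [hX, plane_z hω]; exact hc
    rw [Env.incO_of (X := X) hω hi hz]
    congr 1
    rw [hX, plane_K hω]
    have hsub : ω ∪ W ⊆ E ∪ W := union_subset_union_left hω
    have hex : ∃ i, (nx (E ∪ W))^[i] c0 = c := by
      have h2 := (inOrb_iff_co hsub hcc).1 h
      exact (inOrb_iff_co subset_rfl hcc).2 (h2.mono hsub)
    obtain ⟨L', hL'⟩ := exists_orb_nx (E ∪ W) c0
    have hfind : Nat.find hex < L' := by
      obtain ⟨j, hj, hjc⟩ := (hL'.inOrb_iff c).1 hex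
      exact lt_of_le_of_lt (Nat.find_min' hex hjc) hj
    unfold kap
    rw [dif_pos hex]
    have hw : (ω ∪ W) ∪ ((E ∪ W) \ (ω ∪ W)) = E ∪ W := union_sdiff_of_subset hsub
    have key := kc (c0 := c0) (c := c) (k0 := k0) hg hlow hcc ((E ∪ W) \ (ω ∪ W)) (ω ∪ W)
      (by rw [hw]) disjoint_sdiff hO (L' := L') (i' := Nat.find hex) (by rw [hw]; exact hL') hi hc
      hfind (by rw [hw]; exact Nat.find_spec hex)
    rw [hw] at key
    exact key.symm
  · rw [if_neg h]
    apply Env.incO_zero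
    intro i hi hz
    apply h
    rw [hX, plane_z hω] at hz
    exact ⟨i, hz⟩

open Classical in
/-- **One configuration, string summed**: the frozen string is the in-plane strand. -/
theorem string_sum {c : ℤ × ℤ} (hcc : DCo (E ∪ W) (fi c0) (fi c)) {t : ℤ × ℤ} {m : ℕ}
    (ht : (t.1 + t.2) % 2 = 1) (hF : srow t m ⊆ E) {a b : ℂ} (h1 : a + b = 1) (h2 : a * b = 1)
    {ω : Finset (ℤ × ℤ)} (hω : ω ⊆ E \ srow t m) {s : Bool} {k : ℕ}
    (hR : Root (srow t m) (ω ∪ W) (t.1 + (m : ℤ), t.2 + (m : ℤ)) (c0, s) k) :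
    Ec (qs a b) (srow t m)
        (fun σ => (Env.plane E W c0 k0 g hE hd hk hroot hg hlow).incO (ω ∪ σ) c) =
      ph (kap (E ∪ W) c0 k0 c) * val a b (srow t m) (ω ∪ W) (c0, s) c := by
  have hωE : ω ⊆ E := hω.trans sdiff_subset
  have hdis : Disjoint (srow t m) (ω ∪ W) := by
    rw [disjoint_union_right]
    refine ⟨?_, hd.mono_left hF⟩
    exact disjoint_sdiff.mono_right hω
  have hG : srow t m ∪ (ω ∪ W) ⊆ E ∪ W :=
    union_subset (hF.trans subset_union_left) (union_subset_union_left hωE)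
  rw [← str_val h1 h2 (by exact hcc.symm) m t (ω ∪ W) ht hdis hG hR, ← Ec_smul]
  refine Ec_congr fun σ hσ => ?_
  rw [incO_kap hcc (union_subset hωE (hσ.trans hF)), union_right_comm]
  split_ifs <;> simp

/-- **The increment with a frozen string.** -/
theorem incW_string {c : ℤ × ℤ} (hcc : DCo (E ∪ W) (fi c0) (fi c)) {t : ℤ × ℤ} {m : ℕ}
    (ht : (t.1 + t.2) % 2 = 1) (hF : srow t m ⊆ E) {a b : ℂ} (h1 : a + b = 1) (h2 : a * b = 1)
    {q : ℤ × ℤ → ℂ} (hq : ∀ e ∈ srow t m, q e = qs a b e) {s : Bool}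
    (hR : ∀ ω, ω ⊆ E \ srow t m → ∃ k,
      Root (srow t m) (ω ∪ W) (t.1 + (m : ℤ), t.2 + (m : ℤ)) (c0, s) k) :
    (Env.plane E W c0 k0 g hE hd hk hroot hg hlow).incW q c =
      ph (kap (E ∪ W) c0 k0 c) *
        Ec q (E \ srow t m) (fun ω => val a b (srow t m) (ω ∪ W) (c0, s) c) := by
  have hsp : ∀ G : Finset (ℤ × ℤ) → ℂ, Ec q E G =
      Ec q (E \ srow t m) (fun ω1 => Ec q (srow t m) (fun ω2 => G (ω1 ∪ ω2))) := by
    intro G
    rw [← Ec_union q sdiff_disjoint, sdiff_union_of_subset hF]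
  unfold Env.incW
  rw [plane_E, hsp, ← Ec_smul]
  refine Ec_congr fun ω hω => ?_
  obtain ⟨k, hk'⟩ := hR ω hω
  rw [Ec_congr_q (q' := qs a b) hq]
  have := string_sum (k0 := k0) (hE := hE) (hd := hd) (hk := hk) (hroot := hroot) (hg := hg)
    (hlow := hlow) hcc ht hF h1 h2 hω hk'
  convert this using 3

end Pool.Agent.H84.W
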