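import Mathlib
import Pool.Agent.H84.W.IncS

set_option autoImplicit false
open Finset

/-! # The in-plane strand in the strand graph of `H13/W/Graph.lean`

The strand graph of the plane world (string deleted), cut at the root and at the target corner: the
strand of the interior end `z` (west side of the first string tile) ends at the root, or at one of the two
ends at the target corner; the value `val` in the three cases. -/

namespace Pool.Agent.H84.W

open Pool.Agent.H75.Perc Pool.Agent.H75.TwoArm Pool.Agent.H75.Four Pool.Agent.H69.Q1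
open Pool.Agent.H13.W Pool.Agent.H99.W
open Pool.Agent.H81.G1 (Dir)

variable {F L : Finset (ℤ × ℤ)} {t c ct q : ℤ × ℤ} {R : DC} {k m : ℕ} {a b : ℂ}

/-- a step which does not pass a string tile horizontally is an edge of the strand graph -/
lemma sg_step {x : DC} (h : tl x ∈ F → x ≠ ent (tl x) .W ∧ x ≠ ent (tl x) .E) :
    (SG Set.univ (↑F : Set (ℤ × ℤ)) L).Adj x.1 (ip F L x).1 := by
  by_cases hF : tl x ∈ F
  · obtain ⟨p, hp⟩ := eq_ent (t := tl x) (x := x) rfl
    have ho := odd_tl x
    have h1 := ip_cross (L := L) ho hF p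
    rw [← hp] at h1
    refine ⟨tl x, trivial, Or.inl ⟨mem_coe.2 hF, ho, ?_⟩⟩
    have h2 : x.1 = sd (tl x) p := congrArg Prod.fst hp
    rw [h1]
    cases p
    · exact absurd hp (h hF).1
    · right; exact ⟨rfl, h2⟩
    · exact absurd hp (h hF).2
    · left; exact ⟨h2, rfl⟩
  · refine ⟨tl x, trivial, Or.inr ⟨fun h' => hF (mem_coe.1 h'), ?_⟩⟩
    obtain ⟨c, s⟩ := x
    cases s
    · right
      have h1 : plab c ∉ F := hF
      show lab (ip F L (c, false)).1 = plab c ∧ nx L (ip F L (c, false)).1 = c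
      simp only [ip, Bool.false_eq_true, if_false, h1]
      exact ⟨lab_pv' L c, nx_pv' L c⟩
    · left
      have h1 : lab c ∉ F := hF
      show lab c = lab c ∧ nx L c = (ip F L (c, true)).1
      simp only [ip, if_true, h1, if_false, and_self]

/-- the way through the string -/
lemma Root.thr (ht : (t.1 + t.2) % 2 = 1)
    (h : Root (srow t m) L (t.1 + (m : ℤ), t.2 + (m : ℤ)) R k) : ∀ i : ℕ, i ≤ m →
      (ip (srow t m) L)^[k + i] R =
        ent (t.1 + (m : ℤ) - (i : ℤ) - 1, t.2 + (m : ℤ) - (i : ℤ) - 1) .E := by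
  intro i
  induction i with
  | zero =>
    intro _
    rw [Nat.add_zero, h.run]
    unfold wst
    simp
  | succ i ih =>
    intro hi
    have hmem : (t.1 + (m : ℤ) - (i : ℤ) - 1, t.2 + (m : ℤ) - (i : ℤ) - 1) ∈ srow t m := by
      rw [mem_srow]
      refine ⟨m - 1 - i, by omega, ?_⟩
      refine Prod.ext ?_ ?_ <;> simp only <;> omega
    rw [← Nat.add_assoc, Function.iterate_succ_apply', ih (by omega),
      ip_cross (by simp only; omega) hmem]
    show exi _ .W = _
    rw [exi_W (by simp only; omega)]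
    congr 1
    refine Prod.ext ?_ ?_ <;> simp only <;> push_cast <;> ring

/-- the interior end, leaving the string -/
def zz (t : ℤ × ℤ) : DC := exi t .W

lemma Root.zz (ht : (t.1 + t.2) % 2 = 1)
    (h : Root (srow t m) L (t.1 + (m : ℤ), t.2 + (m : ℤ)) R k) :
    (ip (srow t m) L)^[k + m] R = zz t := by
  rw [h.thr ht m le_rfl]
  unfold H84.W.zz
  rw [exi_W ht]
  congr 1
  refine Prod.ext ?_ ?_ <;> simp

/-- **The setting of the bridge.** -/
structure Brg (L : Finset (ℤ × ℤ)) (t : ℤ × ℤ) (m : ℕ) (R : DC) (k : ℕ) (ct : ℤ × ℤ) : Prop where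
  odd : (t.1 + t.2) % 2 = 1
  m1 : 1 ≤ m
  k1 : 1 ≤ k
  root : Root (srow t m) L (t.1 + (m : ℤ), t.2 + (m : ℤ)) R k
  rz : R.1 ≠ eW t
  l1 : lab ct ∉ srow t m
  l2 : plab ct ∉ srow t m
  cR : ∀ j < k, ct ≠ ((ip (srow t m) L)^[j] R).1

variable {P : ℕ}

namespace Brg

variable (h : Brg L t m R k ct)
include h

lemma tl_mem {i : ℕ} (hi : i < m) : tl ((ip (srow t m) L)^[k + i] R) ∈ srow t m := by
  rw [h.root.thr h.odd i hi.le, tl_ent (by have := h.odd; simp only; omega), mem_srow]
  refine ⟨m - 1 - i, by omega, ?_⟩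
  refine Prod.ext ?_ ?_ <;> simp only <;> omega

/-- the period of the root is longer than the string -/
lemma lt_per (hP : Orb (ip (srow t m) L) R P) : k + m < P := by
  by_contra hcon
  push Not at hcon
  have hp := hP.per
  rcases Nat.lt_or_ge k P with h1 | h1
  · rcases Nat.lt_or_ge P (k + m) with h2 | h2
    · obtain ⟨i, rfl⟩ := Nat.exists_eq_add_of_le h1.le
      have h3 := h.tl_mem (i := i) (by omega)
      rw [hp] at h3
      exact h.root.out 0 (by have := h.k1; omega) h3
    · have h3 : P = k + m := le_antisymm hcon h2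
      rw [h3, h.root.zz h.odd] at hp
      exact h.rz (by rw [← hp]; rfl)
  · have h3 := h.tl_mem (i := 0) (by have := h.m1; omega)
    rw [Nat.add_zero] at h3
    have h4 : (ip (srow t m) L)^[k] R = (ip (srow t m) L)^[k - P] R := by
      conv_lhs => rw [show k = k - P + P by omega]
      rw [Function.iterate_add_apply, hp]
    rw [h4] at h3
    exact h.root.out (k - P) (by have := hP.pos; have := h.k1; omega) h3

/-- after the string the orbit does not pass a string tile horizontally -/
lemma not_hor (hP : Orb (ip (srow t m) L) R P) {u : ℕ} (hu : k + m ≤ u) (huP : u < P)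
    (hF : tl ((ip (srow t m) L)^[u] R) ∈ srow t m) :
    (ip (srow t m) L)^[u] R ≠ ent (tl ((ip (srow t m) L)^[u] R)) .W ∧
      (ip (srow t m) L)^[u] R ≠ ent (tl ((ip (srow t m) L)^[u] R)) .E := by
  obtain ⟨s, hs, he⟩ := mem_srow.1 hF
  set e := tl ((ip (srow t m) L)^[u] R) with hed
  have ho := h.odd
  have hE : (ip (srow t m) L)^[k + (m - 1 - s)] R = ent e .E := by
    rw [h.root.thr h.odd _ (by omega), he]
    congr 1
    refine Prod.ext ?_ ?_ <;> simp only <;> omega
  constructor
  · intro hW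
    have h1 : (ip (srow t m) L)^[k + (m - 1 - s) + 1] R = exi e .W := by
      rw [Function.iterate_succ_apply', hE, ip_cross (odd_srow h.odd hF) hF]; rfl
    have h2 : InOrb (ip (srow t m) L) R (exi e .W) := ⟨_, h1⟩
    apply ip_not_both h2
    refine ⟨u, ?_⟩
    rw [hW]
    show ent e .W = rv (exi e .W)
    unfold exi; rw [rv_rv]
  · intro hE'
    exact hP.inj _ _ (show k + (m - 1 - s) < u by omega) huP (by rw [hE, hE'])

lemma adj (hP : Orb (ip (srow t m) L) R P) {u : ℕ} (hu : k + m ≤ u) (huP : u < P) :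
    (SG Set.univ (↑(srow t m) : Set (ℤ × ℤ)) L).Adj ((ip (srow t m) L)^[u] R).1
      ((ip (srow t m) L)^[u + 1] R).1 := by
  rw [Function.iterate_succ_apply']
  exact sg_step (h.not_hor hP hu huP)

end Brg

/-- **the cut graph**: the strand graph of the plane, cut next to the root and after the target -/
def CG (L : Finset (ℤ × ℤ)) (t : ℤ × ℤ) (m : ℕ) (R : DC) (ct : ℤ × ℤ) : SimpleGraph (ℤ × ℤ) :=
  (SG Set.univ (↑(srow t m) : Set (ℤ × ℤ)) L).deleteEdges
    {s(R.1, (ip (srow t m) L R).1), s(ct, nx L ct)}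

/-- two corners with the same two tiles are equal -/
lemma eq_of_tiles {c d : ℤ × ℤ} (h1 : lab c = plab d) (h2 : plab c = lab d) : c = d := by
  obtain ⟨a, b⟩ := c
  obtain ⟨a', b'⟩ := d
  unfold lab plab at h1 h2
  rcases Int.emod_two_eq_zero_or_one a with i1 | i1 <;>
    rcases Int.emod_two_eq_zero_or_one b with i2 | i2 <;>
    rcases Int.emod_two_eq_zero_or_one a' with i3 | i3 <;>
    rcases Int.emod_two_eq_zero_or_one b' with i4 | i4 <;>
    simp [i1, i2, i3, i4, Prod.ext_iff] at h1 h2 ⊢ <;> omega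

lemma eq_of_tiles' {c d : ℤ × ℤ} (h1 : lab c = lab d) (h2 : plab c = plab d) : c = d := by
  obtain ⟨a, b⟩ := c
  obtain ⟨a', b'⟩ := d
  unfold lab at h1
  unfold plab at h2
  rcases Int.emod_two_eq_zero_or_one a with i1 | i1 <;>
    rcases Int.emod_two_eq_zero_or_one b with i2 | i2 <;>
    rcases Int.emod_two_eq_zero_or_one a' with i3 | i3 <;>
    rcases Int.emod_two_eq_zero_or_one b' with i4 | i4 <;>
    simp [i1, i2, i3, i4, Prod.ext_iff] at h1 h2 ⊢ <;> omega

/-- the two tiles of the corner of a directed corner -/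
lemma tl_pair (x : DC) : (tl x = lab x.1 ∧ tl (rv x) = plab x.1) ∨
    (tl x = plab x.1 ∧ tl (rv x) = lab x.1) := by
  obtain ⟨c, s⟩ := x
  cases s
  · right; exact ⟨rfl, rfl⟩
  · left; exact ⟨rfl, rfl⟩

lemma eq_of_tl {x y : DC} (h1 : tl x = tl y) (h2 : tl (rv x) = tl (rv y)) : x.1 = y.1 := by
  rcases tl_pair x with ⟨a1, a2⟩ | ⟨a1, a2⟩ <;> rcases tl_pair y with ⟨b1, b2⟩ | ⟨b1, b2⟩
  · exact eq_of_tiles' (by rw [← a1, ← b1, h1]) (by rw [← a2, ← b2, h2])
  · exact eq_of_tiles (by rw [← a1, ← b1, h1]) (by rw [← a2, ← b2, h2])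
  · exact eq_of_tiles (by rw [← a2, ← b2, h2]) (by rw [← a1, ← b1, h1])
  · exact eq_of_tiles' (by rw [← a2, ← b2, h2]) (by rw [← a1, ← b1, h1])

lemma edge_eq1 {x y : DC} (h1 : x.1 = y.1) (h2 : (ip F L x).1 = (ip F L y).1) : x = y := by
  rcases or_rv x (y := y) h1.symm with h3 | h3
  · exact h3.symm
  · exfalso
    have t1 : tl (rv (ip F L x)) = tl x := tl_rv_ip x
    have t2 : tl (rv (ip F L y)) = tl (rv x) := by rw [tl_rv_ip y, h3]
    rcases or_rv (ip F L x) (y := ip F L y) h2.symm with h4 | h4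
    · rw [h4, t1] at t2
      rcases tl_pair x with ⟨a1, a2⟩ | ⟨a1, a2⟩
      · rw [a1, a2] at t2; exact lab_ne_plab _ t2
      · rw [a1, a2] at t2; exact lab_ne_plab _ t2.symm
    · rw [h4, rv_rv] at t2
      -- the tiles of `ip x` are those of `x`
      have := eq_of_tl (x := rv (ip F L x)) (y := x) t1 (by rw [rv_rv]; exact t2)
      exact ip_fst_ne (F := F) (L := L) x this

/-- two steps in the same pair of corners -/
lemma edge_eq {x y : DC} (h : s(x.1, (ip F L x).1) = s(y.1, (ip F L y).1)) :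
    x = y ∨ x = rv (ip F L y) := by
  rw [Sym2.eq_iff] at h
  rcases h with ⟨h1, h2⟩ | ⟨h1, h2⟩
  · exact Or.inl (edge_eq1 h1 h2)
  · right
    refine edge_eq1 (F := F) (L := L) h1 ?_
    rw [ip_rv, h2]; rfl

lemma ip_ct (h1 : lab ct ∉ F) : ip F L (ct, true) = (nx L ct, true) := by
  simp [ip, h1]

lemma ip_ct' (h1 : lab ct ∉ F) : ip F L (nx L ct, false) = (ct, false) := by
  have h2 := ip_rv F L (ct, true)
  rw [ip_ct h1] at h2
  exact h2

namespace Brg

variable (h : Brg L t m R k ct)
include h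

lemma reach (hP : Orb (ip (srow t m) L) R P) : ∀ n, k + m ≤ n → n ≤ P →
    (∀ u, k + m ≤ u → u < n → (ip (srow t m) L)^[u] R ≠ (ct, true) ∧
      (ip (srow t m) L)^[u + 1] R ≠ (ct, false)) →
    (CG L t m R ct).Reachable (eW t) ((ip (srow t m) L)^[n] R).1 := by
  intro n hn
  induction n, hn using Nat.le_induction with
  | base =>
    intro _ _
    rw [h.root.zz h.odd]
    exact SimpleGraph.Reachable.refl _
  | succ n hn ih =>
    intro hnP hu
    refine (ih (by omega) fun u h1 h2 => hu u h1 (by omega)).trans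
      (SimpleGraph.Adj.reachable ?_)
    unfold CG
    rw [SimpleGraph.deleteEdges_adj]
    refine ⟨h.adj hP hn hnP, ?_⟩
    obtain ⟨n1, n2⟩ := hu n hn (by omega)
    rw [Set.mem_insert_iff, Set.mem_singleton_iff, not_or]
    rw [Function.iterate_succ_apply'] at n2 ⊢
    constructor
    · intro he
      rcases edge_eq he with h1 | h1
      · exact hP.inj 0 n (by have := h.m1; omega) (by omega) h1.symm
      · exact ip_not_both (F := srow t m) (L := L) (InOrb.step' R) ⟨n, h1⟩
    · intro he
      have e1 : s(ct, nx L ct) = s(((ct, true) : DC).1, (ip (srow t m) L (ct, true)).1) := by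
        rw [ip_ct h.l1]
      rw [e1] at he
      rcases edge_eq he with h1 | h1
      · exact n1 h1
      · apply n2
        rw [h1, ip_rv]; rfl

/-- **The three cases.** The strand of the interior end `eW t` ends at the root (`val = 0`), before the
target corner (`val = 1` or `a`) or behind it (`val = b` or `1`). -/
theorem three (a b : ℂ) :
    ((CG L t m R ct).Reachable (eW t) R.1 ∧ val a b (srow t m) L R ct = 0) ∨
    ((CG L t m R ct).Reachable (eW t) ct ∧ val a b (srow t m) L R ct = if R.2 then 1 else a) ∨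
    ((CG L t m R ct).Reachable (eW t) (nx L ct) ∧
      val a b (srow t m) L R ct = if R.2 then b else 1) := by
  obtain ⟨P, hP⟩ := exists_orb_ip (srow t m) L R
  have hlt := h.lt_per hP
  have hk := h.k1
  have hm := h.m1
  have hcR : ct ≠ R.1 := h.cR 0 (by omega)
  by_cases hA : ∃ u, k + m ≤ u ∧ u < P ∧ (ip (srow t m) L)^[u] R = (ct, true)
  · right; left
    obtain ⟨u, hu, huP, he⟩ := hA
    have hin : InOrb (ip (srow t m) L) R (ct, true) := ⟨u, he⟩
    have hout : ¬ InOrb (ip (srow t m) L) R (ct, false) := ip_not_both hin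
    refine ⟨?_, ?_⟩
    · have := h.reach hP u hu huP.le fun u' h1 h2 =>
        ⟨fun h3 => hP.inj u' u h2 huP (h3.trans he.symm), fun h3 => hout ⟨_, h3⟩⟩
      rwa [he] at this
    · unfold val vv
      rw [if_pos hin, if_neg hout, if_pos hin]
  · by_cases hB : ∃ u, k + m ≤ u ∧ u < P ∧ (ip (srow t m) L)^[u + 1] R = (ct, false)
    · right; right
      obtain ⟨u, hu, huP, he⟩ := hB
      have hin : InOrb (ip (srow t m) L) R (ct, false) := ⟨_, he⟩
      have hout : ¬ InOrb (ip (srow t m) L) R (ct, true) := ip_not_both hin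
      have huP' : u + 1 < P := by
        rcases Nat.lt_or_ge (u + 1) P with h1 | h1
        · exact h1
        · exfalso
          have h2 : u + 1 = P := by omega
          rw [h2, hP.per] at he
          exact hcR (by rw [he])
      have he' : (ip (srow t m) L)^[u] R = (nx L ct, false) := by
        apply ip_inj (srow t m) L
        rw [← Function.iterate_succ_apply' (ip (srow t m) L), he, ip_ct' h.l1]
      refine ⟨?_, ?_⟩
      · have := h.reach hP u hu huP.le fun u' h1 h2 =>
          ⟨fun h3 => hout ⟨_, h3⟩, fun h3 => hP.inj (u' + 1) (u + 1) (by omega) huP' (h3.trans he.symm)⟩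
        rwa [he'] at this
      · unfold val vv
        rw [if_neg hout, if_pos hin, if_pos hin]
    · left
      refine ⟨?_, ?_⟩
      · have := h.reach hP P hlt.le le_rfl fun u h1 h2 =>
          ⟨fun h3 => hA ⟨u, h1, h2, h3⟩, fun h3 => hB ⟨u, h1, h2, h3⟩⟩
        rwa [hP.per] at this
      · have key : ∀ s, ¬ InOrb (ip (srow t m) L) R (ct, s) := by
          intro s hs
          obtain ⟨u, hu, he⟩ := (hP.inOrb_iff _).1 hs
          rcases Nat.lt_or_ge u k with h1 | h1
          · exact h.cR u h1 (by rw [he])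
          · rcases Nat.lt_or_ge u (k + m) with h2 | h2
            · obtain ⟨i, rfl⟩ := Nat.exists_eq_add_of_le h1
              have h3 := h.tl_mem (i := i) (by omega)
              rw [he] at h3
              cases s
              · exact h.l2 h3
              · exact h.l1 h3
            · cases s
              · rcases Nat.lt_or_ge (k + m) u with h3 | h3
                · refine hB ⟨u - 1, by omega, by omega, ?_⟩
                  rw [Nat.sub_add_cancel (by omega)]; exact he
                · have h4 : u = k + m := by omega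
                  rw [h4, h.root.zz h.odd] at he
                  have h5 := congrArg tl (congrArg rv he)
                  unfold zz exi at h5
                  rw [rv_rv, tl_ent h.odd] at h5
                  apply h.l1
                  have h6 : t = lab ct := h5
                  rw [← h6, mem_srow]
                  exact ⟨0, by omega, by simp⟩
              · exact hA ⟨u, h2, hu, he⟩
        unfold val vv
        rw [if_neg (key true), if_neg (key false), if_neg (key false), if_neg (key true), ite_self]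

/-! ### The three cases exclude each other -/

lemma t_mem : t ∈ srow t m := mem_srow.2 ⟨0, by have := h.m1; omega, by simp⟩

omit h in
lemma cg_end {u v : ℤ × ℤ} (hadj : (SG Set.univ (↑(srow t m) : Set (ℤ × ℤ)) L).Adj u v)
    (hcut : s(u, v) ∈ ({s(R.1, (ip (srow t m) L R).1), s(ct, nx L ct)} : Set (Sym2 (ℤ × ℤ)))) :
    IsEnd (CG L t m R ct) u := by
  intro x y hx hy
  unfold CG at hx hy
  rw [SimpleGraph.deleteEdges_adj] at hx hy
  rcases SG_deg2 u x y v hx.1 hy.1 hadj with h1 | h1 | h1
  · exact h1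
  · subst h1; exact absurd hcut hx.2
  · subst h1; exact absurd hcut hy.2

omit h in
lemma cg_deg2 : Deg2 (CG L t m R ct) := by
  intro v x y z hx hy hz
  unfold CG at hx hy hz
  rw [SimpleGraph.deleteEdges_adj] at hx hy hz
  exact SG_deg2 v x y z hx.1 hy.1 hz.1

lemma end_z : IsEnd (CG L t m R ct) (eW t) := by
  intro x y hx hy
  unfold CG at hx hy
  rw [SimpleGraph.deleteEdges_adj] at hx hy
  exact isEnd_eW (mem_coe.2 h.t_mem) h.odd x y hx.1 hy.1

lemma end_R : IsEnd (CG L t m R ct) R.1 := by
  refine cg_end (v := (ip (srow t m) L R).1) (sg_step fun h1 => ?_) (by simp)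
  exact absurd h1 (h.root.out 0 (by have := h.k1; omega))

lemma adj_ct : (SG Set.univ (↑(srow t m) : Set (ℤ × ℤ)) L).Adj ct (nx L ct) :=
  ⟨lab ct, trivial, Or.inr ⟨fun h' => h.l1 (mem_coe.1 h'), Or.inl ⟨rfl, rfl⟩⟩⟩

lemma end_ct : IsEnd (CG L t m R ct) ct := cg_end h.adj_ct (by simp)

lemma end_nx : IsEnd (CG L t m R ct) (nx L ct) :=
  cg_end h.adj_ct.symm (by rw [Sym2.eq_swap]; simp)

lemma ct_ne_z : ct ≠ eW t := by
  intro h1
  have h2 := of_side h.odd ct (Or.inl h1)
  rcases h2 with h2 | h2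
  · exact h.l1 (h2 ▸ h.t_mem)
  · exact h.l2 (h2 ▸ h.t_mem)

lemma ct_ne_R : ct ≠ R.1 := h.cR 0 (by have := h.k1; omega)

open Classical in
/-- **The value in the strand graph.** -/
theorem val_eq (a b : ℂ) (n1 : nx L ct ≠ R.1) (n2 : nx L ct ≠ eW t) :
    ((CG L t m R ct).Reachable (eW t) R.1 ∧ ¬ (CG L t m R ct).Reachable (eW t) ct ∧
        ¬ (CG L t m R ct).Reachable (eW t) (nx L ct) ∧ val a b (srow t m) L R ct = 0) ∨
    (¬ (CG L t m R ct).Reachable (eW t) R.1 ∧ (CG L t m R ct).Reachable (eW t) ct ∧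
        ¬ (CG L t m R ct).Reachable (eW t) (nx L ct) ∧
        val a b (srow t m) L R ct = if R.2 then 1 else a) ∨
    (¬ (CG L t m R ct).Reachable (eW t) R.1 ∧ ¬ (CG L t m R ct).Reachable (eW t) ct ∧
        (CG L t m R ct).Reachable (eW t) (nx L ct) ∧
        val a b (srow t m) L R ct = if R.2 then b else 1) := by
  have e12 : (CG L t m R ct).Reachable (eW t) R.1 → ¬ (CG L t m R ct).Reachable (eW t) ct := by
    intro h1 h2
    rcases ends_two cg_deg2 h.end_z h.end_R h.end_ct h1 h2 h.rz.symm with h3 | h3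
    · exact h.ct_ne_z h3
    · exact h.ct_ne_R h3
  have e13 : (CG L t m R ct).Reachable (eW t) R.1 →
      ¬ (CG L t m R ct).Reachable (eW t) (nx L ct) := by
    intro h1 h2
    rcases ends_two cg_deg2 h.end_z h.end_R h.end_nx h1 h2 h.rz.symm with h3 | h3
    · exact n2 h3
    · exact n1 h3
  have e23 : (CG L t m R ct).Reachable (eW t) ct →
      ¬ (CG L t m R ct).Reachable (eW t) (nx L ct) := by
    intro h1 h2
    rcases ends_two cg_deg2 h.end_z h.end_ct h.end_nx h1 h2 h.ct_ne_z.symm with h3 | h3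
    · exact n2 h3
    · exact nx_ne L ct h3
  rcases h.three a b with ⟨h1, h2⟩ | ⟨h1, h2⟩ | ⟨h1, h2⟩
  · exact Or.inl ⟨h1, e12 h1, e13 h1, h2⟩
  · exact Or.inr (Or.inl ⟨fun h3 => e12 h3 h1, h1, e23 h1, h2⟩)
  · exact Or.inr (Or.inr ⟨fun h3 => e13 h3 h1, fun h3 => e23 h3 h1, h1, h2⟩)

end Brg

end Pool.Agent.H84.W
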