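import Mathlib
import Pool.Agent.H84.W.Brg

set_option autoImplicit false
open Finset

/-! # The seam: two solid tiles behind the string

`q0`, `q1 = q0 + (1,1)` : the two tiles behind the (east) end of the string; the four tiles north and south of
them are solid, of two different colours, with the states `A, B` (north), `B, A` (south). For all states of
`q0`, `q1` (both natural or both passed straight) the connections of the other corners are the same. -/

namespace Pool.Agent.H84.W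

open Pool.Agent.H75.Perc Pool.Agent.H75.TwoArm Pool.Agent.H75.Four Pool.Agent.H69.Q1
open Pool.Agent.H13.W Pool.Agent.H99.W
open Pool.Agent.Q1 (DCo Ec Ec_empty Ec_insert Ec_congr)
open Pool.Agent.H81.G1 (Dir)

section ret

variable {α : Type*} {f g : α → α} {P : α → Prop}

/-- first return to `P` -/
def Ret (f : α → α) (P : α → Prop) (x y : α) : Prop :=
  P y ∧ ∃ i, f^[i + 1] x = y ∧ ∀ s < i, ¬ P (f^[s + 1] x)

lemma orb_of_ret (h : ∀ x, P x → ∃ y, Ret f P x y ∧ Ret g P x y) {y : α} (hy : P y) :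
    ∀ n x, P x → f^[n] x = y → InOrb g x y := by
  intro n
  induction n using Nat.strong_induction_on with
  | _ n ih =>
    intro x hx he
    rcases Nat.eq_zero_or_pos n with rfl | hn
    · exact ⟨0, he⟩
    · obtain ⟨z, ⟨hz, i, hi, hno⟩, ⟨-, j, hj, -⟩⟩ := h x hx
      rcases Nat.lt_or_ge n (i + 1) with h1 | h1
      · exfalso
        apply hno (n - 1) (by omega)
        rw [Nat.sub_add_cancel hn, he]; exact hy
      · have h2 : f^[n - (i + 1)] z = y := by
          rw [← hi, ← Function.iterate_add_apply, Nat.sub_add_cancel h1, he]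
        obtain ⟨l, hl⟩ := ih (n - (i + 1)) (by omega) z hz h2
        exact ⟨l + (j + 1), by rw [Function.iterate_add_apply, hj, hl]⟩

lemma orb_iff_of_ret (h : ∀ x, P x → ∃ y, Ret f P x y ∧ Ret g P x y) {x y : α} (hx : P x)
    (hy : P y) : InOrb f x y ↔ InOrb g x y :=
  ⟨fun ⟨n, hn⟩ => orb_of_ret h hy n x hx hn,
    fun ⟨n, hn⟩ => orb_of_ret (fun x hx => (h x hx).imp fun _ h => ⟨h.2, h.1⟩) hy n x hx hn⟩

end ret

variable {F L F' L' G : Finset (ℤ × ℤ)} {t c q e : ℤ × ℤ} {R : DC} {k m : ℕ} {a b : ℂ}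

/-! ### Neighbours -/

/-- north neighbour -/
def nb (e : ℤ × ℤ) : Dir → ℤ × ℤ
  | .W => (e.1 - 1, e.2 - 1)
  | .E => (e.1 + 1, e.2 + 1)
  | .S => (e.1 + 1, e.2 - 1)
  | .N => (e.1 - 1, e.2 + 1)

lemma nb_odd (he : (e.1 + e.2) % 2 = 1) (p : Dir) : ((nb e p).1 + (nb e p).2) % 2 = 1 := by
  cases p <;> simp only [nb] <;> omega

lemma sd_nb (p : Dir) : sd e p = sd (nb e p) (Xm p) := by
  cases p <;> simp only [nb, sd, Xm, eW, eE, eS, eN] <;> refine Prod.ext ?_ ?_ <;> simp only <;> ring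

/-- leaving a tile = entering its neighbour -/
lemma exi_nb (he : (e.1 + e.2) % 2 = 1) (p : Dir) : exi e p = ent (nb e p) (Xm p) := by
  have h1 := sd_nb (e := e) p
  have h2 := tl_ent he p
  have h3 := tl_ent (nb_odd he p) (Xm p)
  have h4 : (ent (nb e p) (Xm p)).1 = (ent e p).1 := h1.symm
  rcases or_rv (ent e p) (y := ent (nb e p) (Xm p)) h4 with h5 | h5
  · exfalso
    rw [h5, h2] at h3
    have := congrArg Prod.fst h3
    cases p <;> simp only [nb] at this <;> omega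
  · rw [h5]; rfl

/-! ### The seam -/

/-- **The seam.** -/
structure Seam (F L : Finset (ℤ × ℤ)) (q : ℤ × ℤ) : Prop where
  odd : (q.1 + q.2) % 2 = 1
  n0 : nb q .N ∉ F ∧ Nm L (nb q .N) = Am
  s0 : nb q .S ∉ F ∧ Nm L (nb q .S) = Bm
  n1 : nb (nb q .E) .N ∉ F ∧ Nm L (nb (nb q .E) .N) = Bm
  s1 : nb (nb q .E) .S ∉ F ∧ Nm L (nb (nb q .E) .S) = Am
  both : (q ∈ F ∧ nb q .E ∈ F) ∨ (q ∉ F ∧ nb q .E ∉ F)

/-- the corners inside the seam -/
def IntS (q : ℤ × ℤ) (c : ℤ × ℤ) : Prop :=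
  c = sd q .N ∨ c = sd q .S ∨ c = sd q .E ∨ c = sd (nb q .E) .N ∨ c = sd (nb q .E) .S ∨
    c = sd (nb q .N) .E ∨ c = sd (nb q .S) .E

/-- the tiles of the seam -/
def TilS (q : ℤ × ℤ) (e : ℤ × ℤ) : Prop :=
  e = q ∨ e = nb q .E ∨ e = nb q .N ∨ e = nb q .S ∨ e = nb (nb q .E) .N ∨ e = nb (nb q .E) .S

lemma til_of_int (hq : (q.1 + q.2) % 2 = 1) {x : DC} (h : IntS q x.1) : TilS q (tl x) := by
  have key : ∀ {e : ℤ × ℤ} {p : Dir}, (e.1 + e.2) % 2 = 1 → x.1 = sd e p →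
      tl x = e ∨ tl x = nb e p := by
    intro e p he hx
    rcases or_rv (ent e p) (y := x) hx with h1 | h1
    · left; rw [h1, tl_ent he]
    · right
      have h2 : x = exi e p := h1
      rw [h2, exi_nb he, tl_ent (nb_odd he p)]
  have hE := nb_odd hq .E
  have hN := nb_odd hq .N
  have hS := nb_odd hq .S
  have e1 : nb (nb q .N) .E = nb (nb q .E) .N := by
    refine Prod.ext ?_ ?_ <;> simp only [nb] <;> ring
  have e2 : nb (nb q .S) .E = nb (nb q .E) .S := by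
    refine Prod.ext ?_ ?_ <;> simp only [nb] <;> ring
  unfold TilS
  rcases h with h | h | h | h | h | h | h
  · rcases key hq h with h | h <;> simp [h]
  · rcases key hq h with h | h <;> simp [h]
  · rcases key hq h with h | h <;> simp [h]
  · rcases key hE h with h | h <;> simp [h]
  · rcases key hE h with h | h <;> simp [h]
  · rcases key hN h with h | h
    · simp [h]
    · rw [e1] at h; simp [h]
  · rcases key hS h with h | h
    · simp [h]
    · rw [e2] at h; simp [h]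

/-- a way with the intermediate points in `Q` -/
def Th {α : Type*} (f : α → α) (Q : α → Prop) (x y : α) : Prop :=
  ∃ i, f^[i + 1] x = y ∧ ∀ s < i, Q (f^[s + 1] x)

lemma Th.one {α : Type*} {f : α → α} {Q : α → Prop} {x y : α} (h : f x = y) : Th f Q x y :=
  ⟨0, h, fun s hs => by omega⟩

lemma Th.step {α : Type*} {f : α → α} {Q : α → Prop} {x y z : α} (h : f x = z) (hz : Q z)
    (h' : Th f Q z y) : Th f Q x y := by
  obtain ⟨i, hi, hno⟩ := h'
  refine ⟨i + 1, ?_, fun s hs => ?_⟩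
  · rw [Function.iterate_succ_apply, h]; exact hi
  · rw [Function.iterate_succ_apply, h]
    rcases Nat.eq_zero_or_pos s with rfl | h0
    · exact hz
    · have := hno (s - 1) (by omega)
      rwa [Nat.sub_add_cancel h0] at this

lemma nbs (q : ℤ × ℤ) : nb (nb q .N) .E = nb (nb q .E) .N ∧ nb (nb q .S) .E = nb (nb q .E) .S ∧
    nb (nb (nb q .E) .N) .S = nb q .E ∧ nb (nb (nb q .E) .S) .N = nb q .E ∧
    nb (nb q .E) .W = q ∧ nb (nb q .S) .N = q ∧ nb (nb q .N) .S = q ∧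
    nb (nb (nb q .E) .N) .W = nb q .N ∧ nb (nb (nb q .E) .S) .W = nb q .S := by
  refine ⟨?_, ?_, ?_, ?_, ?_, ?_, ?_, ?_, ?_⟩ <;> simp only [nb] <;> refine Prod.ext ?_ ?_ <;>
    simp only <;> ring

lemma ent_fst (e : ℤ × ℤ) (p : Dir) : (ent e p).1 = sd e p := rfl

/-- the ways through the seam -/
lemma seam_path {f : DC → DC} {Yq Ye : Dir → Dir} (q : ℤ × ℤ)
    (h0 : ∀ p, f (ent q p) = ent (nb q (Yq p)) (Xm (Yq p)))
    (h1 : ∀ p, f (ent (nb q .E) p) = ent (nb (nb q .E) (Ye p)) (Xm (Ye p)))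
    (hn0 : ∀ p, f (ent (nb q .N) p) = ent (nb (nb q .N) (Am p)) (Xm (Am p)))
    (hs0 : ∀ p, f (ent (nb q .S) p) = ent (nb (nb q .S) (Bm p)) (Xm (Bm p)))
    (hn1 : ∀ p, f (ent (nb (nb q .E) .N) p) =
      ent (nb (nb (nb q .E) .N) (Bm p)) (Xm (Bm p)))
    (hs1 : ∀ p, f (ent (nb (nb q .E) .S) p) =
      ent (nb (nb (nb q .E) .S) (Am p)) (Xm (Am p)))
    (hY : (Yq = Xm ∧ Ye = Xm) ∨ ((Yq = Am ∨ Yq = Bm) ∧ (Ye = Am ∨ Ye = Bm))) :
    Th f (fun x => IntS q x.1) (ent q .W) (ent (nb (nb q .E) .E) .W) ∧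
      Th f (fun x => IntS q x.1) (ent (nb q .E) .E) (ent (nb q .W) .E) := by
  obtain ⟨b1, b2, b3, b4, b5, b6, b7, b8, b9⟩ := nbs q
  -- the interior corners
  have i1 : IntS q (ent (nb q .N) .S).1 := by rw [ent_fst]; left; rw [sd_nb (e := q) .N]; rfl
  have i2 : IntS q (ent (nb q .S) .N).1 := by
    rw [ent_fst]; right; left; rw [sd_nb (e := q) .S]; rfl
  have i3 : IntS q (ent (nb q .E) .W).1 := by
    rw [ent_fst]; right; right; left; rw [sd_nb (e := q) .E]; rfl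
  have i4 : IntS q (ent q .E).1 := by rw [ent_fst]; right; right; left; rfl
  have i5 : IntS q (ent q .N).1 := by rw [ent_fst]; left; rfl
  have i6 : IntS q (ent q .S).1 := by rw [ent_fst]; right; left; rfl
  have i7 : IntS q (ent (nb q .E) .N).1 := by rw [ent_fst]; right; right; right; left; rfl
  have i8 : IntS q (ent (nb q .E) .S).1 := by
    rw [ent_fst]; right; right; right; right; left; rfl
  have i9 : IntS q (ent (nb (nb q .E) .N) .S).1 := by
    rw [ent_fst]; right; right; right; left; rw [sd_nb (e := nb q .E) .N]; rfl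
  have i10 : IntS q (ent (nb (nb q .E) .S) .N).1 := by
    rw [ent_fst]; right; right; right; right; left; rw [sd_nb (e := nb q .E) .S]; rfl
  have i11 : IntS q (ent (nb (nb q .E) .N) .W).1 := by
    rw [ent_fst]; right; right; right; right; right; left; rw [sd_nb (e := nb q .N) .E, b1]; rfl
  have i12 : IntS q (ent (nb (nb q .E) .S) .W).1 := by
    rw [ent_fst]; right; right; right; right; right; right; rw [sd_nb (e := nb q .S) .E, b2]; rfl
  have i13 : IntS q (ent (nb q .N) .E).1 := by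
    rw [ent_fst]; right; right; right; right; right; left; rfl
  have i14 : IntS q (ent (nb q .S) .E).1 := by
    rw [ent_fst]; right; right; right; right; right; right; rfl
  -- the steps at the solid tiles
  have sn0 : f (ent (nb q .N) .S) = ent (nb (nb q .E) .N) .W := by
    rw [hn0]; show ent (nb (nb q .N) .E) .W = _; rw [b1]
  have sn0' : f (ent (nb q .N) .E) = ent q .N := by
    rw [hn0]; show ent (nb (nb q .N) .S) .N = _; rw [b7]
  have ss0 : f (ent (nb q .S) .N) = ent (nb (nb q .E) .S) .W := by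
    rw [hs0]; show ent (nb (nb q .S) .E) .W = _; rw [b2]
  have ss0' : f (ent (nb q .S) .E) = ent q .S := by
    rw [hs0]; show ent (nb (nb q .S) .N) .S = _; rw [b6]
  have sn1 : f (ent (nb (nb q .E) .N) .W) = ent (nb q .E) .N := by
    rw [hn1]; show ent (nb (nb (nb q .E) .N) .S) .N = _; rw [b3]
  have sn1' : f (ent (nb (nb q .E) .N) .S) = ent (nb q .N) .E := by
    rw [hn1]; show ent (nb (nb (nb q .E) .N) .W) .E = _; rw [b8]
  have ss1 : f (ent (nb (nb q .E) .S) .W) = ent (nb q .E) .S := by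
    rw [hs1]; show ent (nb (nb (nb q .E) .S) .N) .S = _; rw [b4]
  have ss1' : f (ent (nb (nb q .E) .S) .N) = ent (nb q .S) .E := by
    rw [hs1]; show ent (nb (nb (nb q .E) .S) .W) .E = _; rw [b9]
  rcases hY with ⟨rfl, rfl⟩ | ⟨hYq, hYe⟩
  · -- both passed straight
    have r1 : f (ent (nb q .E) .E) = ent q .E := by
      rw [h1]; show ent (nb (nb q .E) .W) .E = _; rw [b5]
    exact ⟨Th.step (h0 .W) i3 (Th.one (h1 .W)), Th.step r1 i4 (Th.one (h0 .E))⟩
  · rcases hYq with rfl | rfl <;> rcases hYe with rfl | rfl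
    · -- `A`, `A`
      have r1 : f (ent (nb q .E) .N) = ent q .E := by
        rw [h1]; show ent (nb (nb q .E) .W) .E = _; rw [b5]
      exact ⟨Th.step (h0 .W) i1 (Th.step sn0 i11 (Th.step sn1 i7 (Th.step r1 i4
          (Th.step (h0 .E) i2 (Th.step ss0 i12 (Th.step ss1 i8 (Th.one (h1 .S)))))))),
        Th.step (h1 .E) i10 (Th.step ss1' i14 (Th.step ss0' i6 (Th.step (h0 .S) i3
          (Th.step (h1 .W) i9 (Th.step sn1' i13 (Th.step sn0' i5 (Th.one (h0 .N))))))))⟩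
    · -- `A`, `B`
      exact ⟨Th.step (h0 .W) i1 (Th.step sn0 i11 (Th.step sn1 i7 (Th.one (h1 .N)))),
        Th.step (h1 .E) i9 (Th.step sn1' i13 (Th.step sn0' i5 (Th.one (h0 .N))))⟩
    · -- `B`, `A`
      exact ⟨Th.step (h0 .W) i2 (Th.step ss0 i12 (Th.step ss1 i8 (Th.one (h1 .S)))),
        Th.step (h1 .E) i10 (Th.step ss1' i14 (Th.step ss0' i6 (Th.one (h0 .S))))⟩
    · -- `B`, `B`
      have r1 : f (ent (nb q .E) .S) = ent q .E := by
        rw [h1]; show ent (nb (nb q .E) .W) .E = _; rw [b5]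
      exact ⟨Th.step (h0 .W) i2 (Th.step ss0 i12 (Th.step ss1 i8 (Th.step r1 i4
          (Th.step (h0 .E) i1 (Th.step sn0 i11 (Th.step sn1 i7 (Th.one (h1 .N)))))))),
        Th.step (h1 .E) i9 (Th.step sn1' i13 (Th.step sn0' i5 (Th.step (h0 .N) i3
          (Th.step (h1 .W) i10 (Th.step ss1' i14 (Th.step ss0' i6 (Th.one (h0 .S))))))))⟩

lemma Th.ret {f : DC → DC} {q : ℤ × ℤ} {x y : DC} (h : Th f (fun x => IntS q x.1) x y)
    (hy : ¬ IntS q y.1) : Ret f (fun x => ¬ IntS q x.1) x y := by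
  obtain ⟨i, hi, hno⟩ := h
  exact ⟨hy, i, hi, fun s hs => not_not.2 (hno s hs)⟩

lemma step_nat (he : (e.1 + e.2) % 2 = 1) (hF : e ∉ F) (p : Dir) :
    ip F L (ent e p) = ent (nb e (Nm L e p)) (Xm (Nm L e p)) := by rw [ip_nat he hF, exi_nb he]

lemma step_cross (he : (e.1 + e.2) % 2 = 1) (hF : e ∈ F) (p : Dir) :
    ip F L (ent e p) = ent (nb e (Xm p)) (Xm (Xm p)) := by rw [ip_cross he hF, exi_nb he]

lemma Nm_cases (L : Finset (ℤ × ℤ)) (t : ℤ × ℤ) : Nm L t = Am ∨ Nm L t = Bm := by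
  unfold Nm; split_ifs <;> simp

/-- boundary corners of the seam -/
lemma not_int {q : ℤ × ℤ} : ¬ IntS q (sd (nb q .W) .E) ∧ ¬ IntS q (sd (nb (nb q .E) .E) .W) ∧
    ¬ IntS q (sd (nb q .N) .W) ∧ ¬ IntS q (sd (nb q .N) .N) ∧ ¬ IntS q (sd (nb q .S) .W) ∧
    ¬ IntS q (sd (nb q .S) .S) ∧ ¬ IntS q (sd (nb (nb q .E) .N) .N) ∧
    ¬ IntS q (sd (nb (nb q .E) .N) .E) ∧ ¬ IntS q (sd (nb (nb q .E) .S) .S) ∧
    ¬ IntS q (sd (nb (nb q .E) .S) .E) := by
  obtain ⟨x, y⟩ := q
  unfold IntS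
  simp only [nb, sd, eW, eE, eS, eN, Prod.mk.injEq, not_or, not_and]
  omega

/-- the ways through the seam in a world -/
lemma Seam.paths (h : Seam F L q) :
    Ret (ip F L) (fun x => ¬ IntS q x.1) (ent q .W) (ent (nb (nb q .E) .E) .W) ∧
      Ret (ip F L) (fun x => ¬ IntS q x.1) (ent (nb q .E) .E) (ent (nb q .W) .E) := by
  obtain ⟨n1, n2, -⟩ := not_int (q := q)
  have hq := h.odd
  have hE := nb_odd hq .E
  have key : ∀ {Yq Ye : Dir → Dir},
      (∀ p, ip F L (ent q p) = ent (nb q (Yq p)) (Xm (Yq p))) →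
      (∀ p, ip F L (ent (nb q .E) p) = ent (nb (nb q .E) (Ye p)) (Xm (Ye p))) →
      ((Yq = Xm ∧ Ye = Xm) ∨ ((Yq = Am ∨ Yq = Bm) ∧ (Ye = Am ∨ Ye = Bm))) →
      Ret (ip F L) (fun x => ¬ IntS q x.1) (ent q .W) (ent (nb (nb q .E) .E) .W) ∧
        Ret (ip F L) (fun x => ¬ IntS q x.1) (ent (nb q .E) .E) (ent (nb q .W) .E) := by
    intro Yq Ye h0 h1 hY
    have h2 := seam_path q h0 h1
      (fun p => by rw [step_nat (nb_odd hq .N) h.n0.1, h.n0.2])
      (fun p => by rw [step_nat (nb_odd hq .S) h.s0.1, h.s0.2])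
      (fun p => by rw [step_nat (nb_odd hE .N) h.n1.1, h.n1.2])
      (fun p => by rw [step_nat (nb_odd hE .S) h.s1.1, h.s1.2]) hY
    exact ⟨h2.1.ret n2, h2.2.ret n1⟩
  rcases h.both with ⟨a1, a2⟩ | ⟨a1, a2⟩
  · exact key (step_cross hq a1) (step_cross hE a2) (Or.inl ⟨rfl, rfl⟩)
  · exact key (step_nat hq a1) (step_nat hE a2) (Or.inr ⟨Nm_cases _ _, Nm_cases _ _⟩)

/-- **Two worlds which differ only in the states of the two tiles of the seam.** -/
theorem seam_orb (h : Seam F L q) (h' : Seam F' L' q)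
    (hF : ∀ e, e ≠ q → e ≠ nb q .E → (e ∈ F ↔ e ∈ F'))
    (hL : ∀ e, e ≠ q → e ≠ nb q .E → (e ∈ L ↔ e ∈ L')) {x y : DC} (hx : ¬ IntS q x.1)
    (hy : ¬ IntS q y.1) : InOrb (ip F L) x y ↔ InOrb (ip F' L') x y := by
  obtain ⟨n1, n2, n3, n4, n5, n6, n7, n8, n9, n10⟩ := not_int (q := q)
  have hq := h.odd
  have hqE := nb_odd hq .E
  refine orb_iff_of_ret (P := fun x : DC => ¬ IntS q x.1) (fun x hx => ?_) hx hy
  by_cases t1 : tl x = q
  · obtain ⟨p, rfl⟩ := eq_ent t1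
    cases p
    · exact ⟨_, h.paths.1, h'.paths.1⟩
    · exact absurd (Or.inl rfl) hx
    · exact absurd (Or.inr (Or.inr (Or.inl rfl))) hx
    · exact absurd (Or.inr (Or.inl rfl)) hx
  by_cases t2 : tl x = nb q .E
  · obtain ⟨p, rfl⟩ := eq_ent t2
    cases p
    · exact absurd (Or.inr (Or.inr (Or.inl (by rw [sd_nb (e := q) .E]; rfl)))) hx
    · exact absurd (Or.inr (Or.inr (Or.inr (Or.inl rfl)))) hx
    · exact ⟨_, h.paths.2, h'.paths.2⟩
    · exact absurd (Or.inr (Or.inr (Or.inr (Or.inr (Or.inl rfl))))) hx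
  -- the other tiles have the same step
  have he : ip F' L' x = ip F L x :=
    ip_congr (hF _ t1 t2).symm (hL _ t1 t2).symm
  have one : ¬ IntS q (ip F L x).1 → ∃ y, Ret (ip F L) (fun x : DC => ¬ IntS q x.1) x y ∧
      Ret (ip F' L') (fun x : DC => ¬ IntS q x.1) x y := fun hP =>
    ⟨_, ⟨hP, 0, rfl, fun s hs => by omega⟩, ⟨hP, 0, he, fun s hs => by omega⟩⟩
  apply one
  by_cases t3 : tl x = nb q .N
  · obtain ⟨p, rfl⟩ := eq_ent t3
    rw [step_nat (nb_odd hq .N) h.n0.1, h.n0.2, ent_fst, ← sd_nb]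
    cases p
    · exact n4
    · exact n3
    · exact absurd (Or.inr (Or.inr (Or.inr (Or.inr (Or.inr (Or.inl rfl)))))) hx
    · exact absurd (Or.inl (by rw [sd_nb (e := q) .N]; rfl)) hx
  by_cases t4 : tl x = nb q .S
  · obtain ⟨p, rfl⟩ := eq_ent t4
    rw [step_nat (nb_odd hq .S) h.s0.1, h.s0.2, ent_fst, ← sd_nb]
    cases p
    · exact n6
    · exact absurd (Or.inr (Or.inl (by rw [sd_nb (e := q) .S]; rfl))) hx
    · exact absurd (Or.inr (Or.inr (Or.inr (Or.inr (Or.inr (Or.inr rfl)))))) hx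
    · exact n5
  by_cases t5 : tl x = nb (nb q .E) .N
  · obtain ⟨p, rfl⟩ := eq_ent t5
    rw [step_nat (nb_odd hqE .N) h.n1.1, h.n1.2, ent_fst, ← sd_nb]
    cases p
    · exact absurd (Or.inr (Or.inr (Or.inr (Or.inr (Or.inr (Or.inl (by
        rw [sd_nb (e := nb q .N) .E, (nbs q).1]; rfl))))))) hx
    · exact n8
    · exact n7
    · exact absurd (Or.inr (Or.inr (Or.inr (Or.inl (by
        rw [sd_nb (e := nb q .E) .N]; rfl))))) hx
  by_cases t6 : tl x = nb (nb q .E) .S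
  · obtain ⟨p, rfl⟩ := eq_ent t6
    rw [step_nat (nb_odd hqE .S) h.s1.1, h.s1.2, ent_fst, ← sd_nb]
    cases p
    · exact absurd (Or.inr (Or.inr (Or.inr (Or.inr (Or.inr (Or.inr (by
        rw [sd_nb (e := nb q .S) .E, (nbs q).2.1]; rfl))))))) hx
    · exact absurd (Or.inr (Or.inr (Or.inr (Or.inr (Or.inl (by
        rw [sd_nb (e := nb q .E) .S]; rfl)))))) hx
    · exact n9
    · exact n10
  · intro hint
    have h1 : TilS q (tl (rv (ip F L x))) := til_of_int hq (x := rv (ip F L x)) hint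
    rw [tl_rv_ip] at h1
    rcases h1 with h1 | h1 | h1 | h1 | h1 | h1
    · exact t1 h1
    · exact t2 h1
    · exact t3 h1
    · exact t4 h1
    · exact t5 h1
    · exact t6 h1

/-- **The value does not see the seam.** -/
theorem val_seam (h : Seam F L q) (h' : Seam F' L' q)
    (hF : ∀ e, e ≠ q → e ≠ nb q .E → (e ∈ F ↔ e ∈ F'))
    (hL : ∀ e, e ≠ q → e ≠ nb q .E → (e ∈ L ↔ e ∈ L')) (hR : ¬ IntS q R.1) (hc : ¬ IntS q c)
    (a b : ℂ) : val a b F L R c = val a b F' L' R c := by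
  unfold val
  rw [propext (seam_orb h h' hF hL (x := R) (y := (c, true)) hR hc),
    propext (seam_orb h h' hF hL (x := R) (y := (c, false)) hR hc)]

end Pool.Agent.H84.W
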