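import Mathlib
import Pool.Agent.H84.W.Seam

set_option autoImplicit false
open Finset

/-! # The frozen sum in the second parity

`seam_sum` : string of `m + 1` tiles, behind it a fixed tile; rows north and south solid (`Seam`). The frozen
sum is the value with the string prolonged by this tile. -/

namespace Pool.Agent.H84.W

open Pool.Agent.H75.Perc Pool.Agent.H75.TwoArm Pool.Agent.H75.Four Pool.Agent.H69.Q1
open Pool.Agent.H13.W Pool.Agent.H99.W
open Pool.Agent.Q1 (DCo Ec Ec_empty Ec_insert Ec_congr)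
open Pool.Agent.H81.G1 (Dir)

variable {F L F' L' G : Finset (ℤ × ℤ)} {t c q e : ℤ × ℤ} {R : DC} {k m : ℕ} {a b : ℂ}

lemma srow_succ' : srow t (m + 1) = insert (t.1 + (m : ℤ), t.2 + (m : ℤ)) (srow t m) := by
  ext e
  rw [mem_insert, mem_srow, mem_srow]
  constructor
  · rintro ⟨i, hi, rfl⟩
    rcases Nat.lt_or_ge i m with h0 | h0
    · exact Or.inr ⟨i, h0, rfl⟩
    · left
      have : i = m := by omega
      rw [this]
  · rintro (rfl | ⟨i, hi, rfl⟩)
    · exact ⟨m, by omega, rfl⟩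
    · exact ⟨i, by omega, rfl⟩

lemma end_notMem : (t.1 + (m : ℤ), t.2 + (m : ℤ)) ∉ srow t m := by
  rw [mem_srow]
  rintro ⟨i, hi, h⟩
  have := congrArg Prod.fst h
  simp only at this
  omega

lemma Nm_congr (h : e ∈ L ↔ e ∈ L') : Nm L e = Nm L' e := by
  unfold Nm; simp only [h]

/-- the seam of the shorter string, both tiles natural -/
lemma Seam.nat (h : Seam F L q) (hF : F' ⊆ F) (h0 : q ∉ F') (h1 : nb q .E ∉ F')
    (hL : ∀ e, e ≠ q → e ≠ nb q .E → (e ∈ L ↔ e ∈ L')) : Seam F' L' q := by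
  have ne : ∀ {x y : ℤ × ℤ}, (x.1 ≠ y.1 ∨ x.2 ≠ y.2) → x ≠ y := fun h h' => by
    rcases h with h | h <;> exact h (by rw [h'])
  have e1 : nb q .N ≠ q ∧ nb q .N ≠ nb q .E := ⟨ne (by simp only [nb]; omega), ne (by simp only [nb]; omega)⟩
  have e2 : nb q .S ≠ q ∧ nb q .S ≠ nb q .E := ⟨ne (by simp only [nb]; omega), ne (by simp only [nb]; omega)⟩
  have e3 : nb (nb q .E) .N ≠ q ∧ nb (nb q .E) .N ≠ nb q .E :=
    ⟨ne (by simp only [nb]; omega), ne (by simp only [nb]; omega)⟩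
  have e4 : nb (nb q .E) .S ≠ q ∧ nb (nb q .E) .S ≠ nb q .E :=
    ⟨ne (by simp only [nb]; omega), ne (by simp only [nb]; omega)⟩
  exact ⟨h.odd, ⟨fun h' => h.n0.1 (hF h'), by rw [← Nm_congr (hL _ e1.1 e1.2)]; exact h.n0.2⟩,
    ⟨fun h' => h.s0.1 (hF h'), by rw [← Nm_congr (hL _ e2.1 e2.2)]; exact h.s0.2⟩,
    ⟨fun h' => h.n1.1 (hF h'), by rw [← Nm_congr (hL _ e3.1 e3.2)]; exact h.n1.2⟩,
    ⟨fun h' => h.s1.1 (hF h'), by rw [← Nm_congr (hL _ e4.1 e4.2)]; exact h.s1.2⟩,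
    Or.inr ⟨h0, h1⟩⟩

/-- the root of the longer string is a root of the shorter one -/
lemma root_short (hS : Seam (srow t (m + 2)) L (t.1 + (m : ℤ), t.2 + (m : ℤ)))
    (hR : Root (srow t (m + 2)) L (t.1 + ((m + 2 : ℕ) : ℤ), t.2 + ((m + 2 : ℕ) : ℤ)) R k)
    (hL : ∀ e, e ≠ (t.1 + (m : ℤ), t.2 + (m : ℤ)) →
      e ≠ nb (t.1 + (m : ℤ), t.2 + (m : ℤ)) .E → (e ∈ L ↔ e ∈ L')) :
    ∃ k', Root (srow t m) L' (t.1 + (m : ℤ), t.2 + (m : ℤ)) R k' := by
  set q : ℤ × ℤ := (t.1 + (m : ℤ), t.2 + (m : ℤ)) with hq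
  have e1 : nb q .E = (t.1 + ((m + 1 : ℕ) : ℤ), t.2 + ((m + 1 : ℕ) : ℤ)) := by
    rw [hq]; refine Prod.ext ?_ ?_ <;> simp only [nb] <;> push_cast <;> ring
  have hlong : srow t (m + 2) = insert (nb q .E) (insert q (srow t m)) := by
    rw [srow_succ', srow_succ', e1]
  have hsub : srow t m ⊆ srow t (m + 2) := by
    rw [hlong]; exact (subset_insert _ _).trans (subset_insert _ _)
  have hq0 : q ∉ srow t m := end_notMem
  have hq1 : nb q .E ∉ srow t m := by
    intro h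
    apply end_notMem (t := t) (m := m + 1)
    rw [← e1, srow_succ']; exact mem_insert_of_mem h
  have hS' : Seam (srow t m) L' q := hS.nat hsub hq0 hq1 hL
  -- outside of the seam the steps are the same
  have key : ∀ i ≤ k, (ip (srow t m) L')^[i] R = (ip (srow t (m + 2)) L)^[i] R := by
    intro i
    induction i with
    | zero => intro _; rfl
    | succ i ih =>
      intro hi
      rw [Function.iterate_succ_apply', Function.iterate_succ_apply', ih (by omega)]
      have h1 := hR.out i (by omega)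
      generalize (ip (srow t (m + 2)) L)^[i] R = x at h1
      have h2 := h1
      rw [hlong, mem_insert, mem_insert, not_or, not_or] at h2
      exact ip_congr ⟨fun h' => absurd h' h2.2.2, fun h' => absurd h' h1⟩ (hL _ h2.2.1 h2.1).symm
  have hend : (ip (srow t m) L')^[k] R = ent (nb q .E) .E := by
    rw [key k le_rfl, hR.run]
    unfold wst
    congr 1
    rw [e1]
    refine Prod.ext ?_ ?_ <;> simp only <;> push_cast <;> ring
  obtain ⟨-, i, hi, hno⟩ := hS'.paths.2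
  refine ⟨k + (i + 1), ?_, ?_⟩
  · rw [Nat.add_comm, Function.iterate_add_apply, hend, hi]
    rfl
  · have hT : ∀ e, TilS q e → e ∉ srow t m := by
      intro e he
      rcases he with rfl | rfl | rfl | rfl | rfl | rfl
      · exact hq0
      · exact hq1
      · exact hS'.n0.1
      · exact hS'.s0.1
      · exact hS'.n1.1
      · exact hS'.s1.1
    intro j hj
    rcases Nat.lt_or_ge j k with h1 | h1
    · rw [key j h1.le]
      exact fun h' => hR.out j h1 (hsub h')
    · obtain ⟨s, rfl⟩ := Nat.exists_eq_add_of_le h1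
      rw [Nat.add_comm k s, Function.iterate_add_apply, hend]
      rcases Nat.eq_zero_or_pos s with rfl | h0
      · rw [Function.iterate_zero, id_eq, tl_ent (nb_odd hS.odd .E)]
        exact hq1
      · have h2 := hno (s - 1) (by omega)
        rw [Nat.sub_add_cancel h0, not_not] at h2
        exact hT _ (til_of_int hS.odd h2)

open Classical in
/-- **The frozen sum of the shorter string**, the two tiles behind it are fixed in any state. -/
theorem seam_sum2 (h1 : a + b = 1) (h2 : a * b = 1) (ht : (t.1 + t.2) % 2 = 1)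
    (hd : DCo G (fi c) (fi R.1)) (hS : Seam (srow t (m + 2)) L (t.1 + (m : ℤ), t.2 + (m : ℤ)))
    (hR : Root (srow t (m + 2)) L (t.1 + ((m + 2 : ℕ) : ℤ), t.2 + ((m + 2 : ℕ) : ℤ)) R k)
    (hRi : ¬ IntS (t.1 + (m : ℤ), t.2 + (m : ℤ)) R.1)
    (hci : ¬ IntS (t.1 + (m : ℤ), t.2 + (m : ℤ)) c)
    (hL : ∀ e, e ≠ (t.1 + (m : ℤ), t.2 + (m : ℤ)) →
      e ≠ nb (t.1 + (m : ℤ), t.2 + (m : ℤ)) .E → (e ∈ L ↔ e ∈ L'))
    (hdis' : Disjoint (srow t m) L') (hG' : srow t m ∪ L' ⊆ G) :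
    Ec (qs a b) (srow t m) (fun σ => if InOrb (nx (L' ∪ σ)) R.1 c then (1 : ℂ) else 0) =
      val a b (srow t (m + 2)) L R c := by
  set q : ℤ × ℤ := (t.1 + (m : ℤ), t.2 + (m : ℤ)) with hq
  have e1 : nb q .E = (t.1 + ((m + 1 : ℕ) : ℤ), t.2 + ((m + 1 : ℕ) : ℤ)) := by
    rw [hq]; refine Prod.ext ?_ ?_ <;> simp only [nb] <;> push_cast <;> ring
  have hlong : srow t (m + 2) = insert (nb q .E) (insert q (srow t m)) := by
    rw [srow_succ', srow_succ', e1]
  have hsub : srow t m ⊆ srow t (m + 2) := by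
    rw [hlong]; exact (subset_insert _ _).trans (subset_insert _ _)
  have hq0 : q ∉ srow t m := end_notMem
  have hq1 : nb q .E ∉ srow t m := by
    intro h
    apply end_notMem (t := t) (m := m + 1)
    rw [← e1, srow_succ']; exact mem_insert_of_mem h
  obtain ⟨k', hk'⟩ := root_short hS hR hL
  rw [str_val h1 h2 hd m t L' ht hdis' hG' hk']
  refine (val_seam hS (hS.nat hsub hq0 hq1 hL) ?_ hL hRi hci a b).symm
  intro e h3 h4
  rw [hlong, mem_insert, mem_insert]
  tauto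

open Classical in
/-- **The frozen sum**, the tile `t + (m + 1, m + 1)` behind the string of `m + 1` tiles is fixed in any
state. -/
theorem seam_sum1 (h1 : a + b = 1) (h2 : a * b = 1) (ht : (t.1 + t.2) % 2 = 1)
    (hd : DCo G (fi c) (fi R.1)) (hdis : Disjoint (srow t (m + 1)) L)
    (hG : srow t (m + 1) ∪ L ⊆ G) (hS : Seam (srow t (m + 2)) L (t.1 + (m : ℤ), t.2 + (m : ℤ)))
    (hR : Root (srow t (m + 2)) L (t.1 + ((m + 2 : ℕ) : ℤ), t.2 + ((m + 2 : ℕ) : ℤ)) R k)
    (hRi : ¬ IntS (t.1 + (m : ℤ), t.2 + (m : ℤ)) R.1)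
    (hci : ¬ IntS (t.1 + (m : ℤ), t.2 + (m : ℤ)) c) :
    Ec (qs a b) (srow t (m + 1)) (fun σ => if InOrb (nx (L ∪ σ)) R.1 c then (1 : ℂ) else 0) =
      val a b (srow t (m + 2)) L R c := by
  have hq0 : (t.1 + (m : ℤ), t.2 + (m : ℤ)) ∉ srow t m := end_notMem
  have hshort : srow t (m + 1) = insert (t.1 + (m : ℤ), t.2 + (m : ℤ)) (srow t m) := srow_succ'
  rw [hshort] at hdis hG ⊢
  rw [disjoint_insert_left] at hdis
  have k1 := seam_sum2 (L' := L) h1 h2 ht hd hS hR hRi hci (fun _ _ _ => Iff.rfl) hdis.2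
    (sub_of hG (Or.inl rfl))
  have k2 := seam_sum2 (L' := insert (t.1 + (m : ℤ), t.2 + (m : ℤ)) L) h1 h2 ht hd hS hR hRi hci
    (fun e he _ => by rw [mem_insert]; exact ⟨Or.inr, fun h => h.resolve_left he⟩)
    (by rw [disjoint_insert_right]; exact ⟨hq0, hdis.2⟩) (sub_of hG (Or.inr rfl))
  have e2 : Ec (qs a b) (srow t m) (fun σ =>
      if InOrb (nx (L ∪ insert (t.1 + (m : ℤ), t.2 + (m : ℤ)) σ)) R.1 c then (1 : ℂ) else 0) =
        val a b (srow t (m + 2)) L R c := by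
    rw [← k2]
    refine Ec_congr fun σ _ => ?_
    rw [union_insert, insert_union]
  rw [Ec_insert _ hq0, k1, e2]
  ring

end Pool.Agent.H84.W
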