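import Mathlib
import Pool.Agent.H84.W.Seam2
import Pool.Agent.H33.Q1.Tile

set_option autoImplicit false
open Finset

/-! # The seam in the tile frame

`seam_lt` : the tiles `(X, r)`, `(X + 1, r)` behind the string of the row `r`; below them the colour `c0`, above
them `!c0`, parity `(X + r) % 2 = if c0 then 0 else 1`. -/

namespace Pool.Agent.H84.W

open Pool.Agent.H75.Perc Pool.Agent.H75.TwoArm Pool.Agent.H75.Four Pool.Agent.H69.Q1
open Pool.Agent.H13.W Pool.Agent.H99.W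
open Pool.Agent.H33.Q1 (lt lt_odd lt_inj)
open Pool.Agent.H81.G1 (Dir)

variable {F L : Finset (ℤ × ℤ)} {X r x y : ℤ} {c0 : Bool}

lemma nb_lt (x y : ℤ) : nb (lt (x, y)) .W = lt (x - 1, y) ∧ nb (lt (x, y)) .E = lt (x + 1, y) ∧
    nb (lt (x, y)) .S = lt (x, y - 1) ∧ nb (lt (x, y)) .N = lt (x, y + 1) := by
  refine ⟨?_, ?_, ?_, ?_⟩ <;> simp only [nb, lt] <;> refine Prod.ext ?_ ?_ <;> simp only <;> ring

/-- the row of tiles -/
lemma srow_lt (x y : ℤ) (m : ℕ) (e : ℤ × ℤ) :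
    e ∈ srow (lt (x, y)) m ↔ ∃ x', x ≤ x' ∧ x' < x + m ∧ e = lt (x', y) := by
  rw [mem_srow]
  constructor
  · rintro ⟨i, hi, rfl⟩
    refine ⟨x + i, by omega, by omega, ?_⟩
    simp only [lt]; refine Prod.ext ?_ ?_ <;> simp only <;> ring
  · rintro ⟨x', h1, h2, rfl⟩
    refine ⟨(x' - x).toNat, by omega, ?_⟩
    simp only [lt]
    refine Prod.ext ?_ ?_ <;> simp only <;> omega

/-- the tile behind the row -/
lemma end_lt (x y : ℤ) (m : ℕ) :
    ((lt (x, y)).1 + (m : ℤ), (lt (x, y)).2 + (m : ℤ)) = lt (x + m, y) := by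
  simp only [lt]; refine Prod.ext ?_ ?_ <;> simp only <;> ring

/-- states of a tile -/
lemma Nm_lt_A (h : lt (x, y) ∈ L ↔ (x + y) % 2 = 0) : Nm L (lt (x, y)) = Am := by
  unfold Nm
  rw [if_neg]
  rw [h]
  simp only [lt]
  omega

lemma Nm_lt_B (h : lt (x, y) ∈ L ↔ (x + y) % 2 = 1) : Nm L (lt (x, y)) = Bm := by
  unfold Nm
  rw [if_pos]
  rw [h]
  simp only [lt]
  omega

/-- **The seam behind the string.** -/
lemma seam_lt (par : (X + r) % 2 = if c0 then 0 else 1)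
    (hF : ∀ x, X ≤ x → x ≤ X + 1 → lt (x, r - 1) ∉ F ∧ lt (x, r + 1) ∉ F)
    (hb : ∀ x, X ≤ x → x ≤ X + 1 → (lt (x, r - 1) ∈ L ↔ c0 = true))
    (ha : ∀ x, X ≤ x → x ≤ X + 1 → (lt (x, r + 1) ∈ L ↔ c0 = false))
    (both : (lt (X, r) ∈ F ∧ lt (X + 1, r) ∈ F) ∨ (lt (X, r) ∉ F ∧ lt (X + 1, r) ∉ F)) :
    Seam F L (lt (X, r)) := by
  obtain ⟨-, bE, bS, bN⟩ := nb_lt X r
  obtain ⟨-, -, cS, cN⟩ := nb_lt (X + 1) r
  refine ⟨lt_odd _, ?_, ?_, ?_, ?_, ?_⟩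
  · rw [bN]
    refine ⟨(hF X le_rfl (by omega)).2, Nm_lt_A ?_⟩
    rw [ha X le_rfl (by omega)]
    cases c0 <;> simp at par ⊢ <;> omega
  · rw [bS]
    refine ⟨(hF X le_rfl (by omega)).1, Nm_lt_B ?_⟩
    rw [hb X le_rfl (by omega)]
    cases c0 <;> simp at par ⊢ <;> omega
  · rw [bE, cN]
    refine ⟨(hF (X + 1) (by omega) le_rfl).2, Nm_lt_B ?_⟩
    rw [ha (X + 1) (by omega) le_rfl]
    cases c0 <;> simp at par ⊢ <;> omega
  · rw [bE, cS]
    refine ⟨(hF (X + 1) (by omega) le_rfl).1, Nm_lt_A ?_⟩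
    rw [hb (X + 1) (by omega) le_rfl]
    cases c0 <;> simp at par ⊢ <;> omega
  · rw [bE]; exact both

/-- the tiles of the seam -/
lemma tilS_lt : TilS (lt (X, r)) (lt (x, y)) ↔ X ≤ x ∧ x ≤ X + 1 ∧ r - 1 ≤ y ∧ y ≤ r + 1 := by
  obtain ⟨-, bE, bS, bN⟩ := nb_lt X r
  obtain ⟨-, -, cS, cN⟩ := nb_lt (X + 1) r
  unfold TilS
  rw [bE, bN, bS, cN, cS]
  constructor
  · rintro (h | h | h | h | h | h) <;> have := lt_inj h <;> simp only [Prod.mk.injEq] at this <;>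
      omega
  · rintro ⟨h1, h2, h3, h4⟩
    have hx : x = X ∨ x = X + 1 := by omega
    have hy : y = r - 1 ∨ y = r ∨ y = r + 1 := by omega
    rcases hx with rfl | rfl <;> rcases hy with rfl | rfl | rfl <;> simp

/-- a corner with a tile off the seam is not inside the seam -/
lemma not_intS {q c : ℤ × ℤ} (hq : (q.1 + q.2) % 2 = 1) (h : ¬ TilS q (lab c) ∨ ¬ TilS q (plab c)) :
    ¬ IntS q c := by
  intro hi
  rcases h with h | h
  · exact h (til_of_int hq (x := (c, true)) hi)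
  · exact h (til_of_int hq (x := (c, false)) hi)

end Pool.Agent.H84.W
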